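import Mathlib
import Pool.Agent.TFN.Nilp

/-!
# The nilpotency lemma, finite index version
-/

set_option autoImplicit false

namespace Pool.TFL

open Cardinal Pool.TFR Pool.TFN Polynomial

/-- **The nilpotency lemma.** -/
theorem nilp2 {Λ E : Type} [Group Λ] [AddCommGroup E] [Group.IsSolvable Λ] (hr : r0 Λ < ℵ₀)
    (hE : TF E) (ρ : Λ →* Module.End ℤ E) (P : Subgroup Λ) (ε : Module.End ℤ E)
    (hc : ∀ a ∈ P, Commute (ρ a) ε) (d : E)
    (h : ∀ m : ℕ → ℕ, ∃ (i0 : ℕ) (ι : ℕ → ℕ) (a : ℕ → Λ), (∀ i, a i ∈ P) ∧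
      Function.Injective ι ∧ (∀ i, ι i ≠ i0) ∧
      ∀ i, ρ (a i) (d + m i0 • ε d) = d + m (ι i) • ε d) : ∃ k : ℕ, (ε ^ k) d = 0 := by
  by_contra hcon
  push Not at hcon
  obtain ⟨K, _, _, β, hβ0, hβ⟩ := exists_hom hE ε d hcon
  have haev : ∀ (n : ℕ) (η : Module.End ℤ E), aeval η (1 + C (n : ℤ) * X) d = d + n • η d := by
    intro n η
    rw [map_add, map_mul, map_one, aeval_X, aeval_C, LinearMap.add_apply, Module.End.mul_apply]
    congr 1
    change ((n : ℤ) • (η d)) = _
    rw [natCast_zsmul]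
  by_cases htr : Transcendental ℤ β
  · -- the transcendental case
    rw [transcendental_iff] at htr
    have hmap : ∀ n : ℕ, (mapRingHom (Int.castRingHom ℚ)) (1 + C ((n + 1 : ℕ) : ℤ) * X) =
        1 + C ((n : ℚ) + 1) * X := by
      intro n
      rw [coe_mapRingHom, Polynomial.map_add, Polynomial.map_mul, Polynomial.map_one, map_C,
        map_X]
      congr 3
      simp
    have hdeg : ∀ n : ℕ, (1 + C ((n : ℚ) + 1) * X).natDegree = 1 := by
      intro n
      rw [add_comm, ← C_1]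
      exact natDegree_linear (by positivity)
    have hne0 : ∀ n : ℕ, (mapRingHom (Int.castRingHom ℚ)) (1 + C ((n + 1 : ℕ) : ℤ) * X) ≠ 0 := by
      intro n
      rw [hmap]
      intro h0
      have := hdeg n
      rw [h0, natDegree_zero] at this
      exact zero_ne_one this
    have hcop : ∀ i j : ℕ, i ≠ j → IsCoprime
        ((mapRingHom (Int.castRingHom ℚ)) (1 + C ((i + 1 : ℕ) : ℤ) * X))
        ((mapRingHom (Int.castRingHom ℚ)) (1 + C ((j + 1 : ℕ) : ℤ) * X)) := by
      intro i j hij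
      rw [hmap, hmap]
      have hne : (j : ℚ) - i ≠ 0 := by
        rw [sub_ne_zero]
        exact_mod_cast hij.symm
      refine ⟨C (((j : ℚ) + 1) / (j - i)), C (-((i : ℚ) + 1) / (j - i)), ?_⟩
      have e2 : ((j : ℚ) + 1) / (j - i) + -((i : ℚ) + 1) / (j - i) = 1 := by
        field_simp; ring
      have e3 : ((j : ℚ) + 1) / (j - i) * ((i : ℚ) + 1) +
            -((i : ℚ) + 1) / (j - i) * ((j : ℚ) + 1) = 0 := by ring
      rw [coprime_aux, e2, e3, C_0, C_1, zero_mul, add_zero]
    obtain ⟨i0, ι, a, ha, hι, hι0, hrel⟩ := h (fun n => n + 1)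
    refine line_trick (κ := mapRingHom (Int.castRingHom ℚ))
      (ψ := ((aeval ε : ℤ[X] →ₐ[ℤ] Module.End ℤ E) : ℤ[X] →+* Module.End ℤ E)) (ρ := ρ) (P := P)
      (v := d) hr (fun q hq r => comm_aeval (hc q hq) r) (fun s hs => ?_)
      (1 + C ((i0 + 1 : ℕ) : ℤ) * X)
      (fun n => 1 + C ((ι n + 1 : ℕ) : ℤ) * X) a ha (fun n => ?_)
      (hne0 i0) (fun n => hne0 (ι n)) (fun n => hcop _ _ (hι0 n))
      (fun i j hij => hcop _ _ (fun e => hij (hι e))) (fun n => ?_)
    · rw [htr s (hβ s hs), map_zero]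
    · change ρ (a n) (aeval ε (1 + C ((i0 + 1 : ℕ) : ℤ) * X) d) =
        aeval ε (1 + C ((ι n + 1 : ℕ) : ℤ) * X) d
      rw [haev, haev]
      exact hrel n
    · rw [hmap]
      exact Polynomial.not_isUnit_of_natDegree_pos _ (by rw [hdeg]; exact one_pos)
  · -- the algebraic case
    have halg : IsAlgebraic ℤ β := not_not.1 htr
    obtain ⟨l, hl, hint⟩ : ∃ l : ℕ, l ≠ 0 ∧ IsIntegral ℤ ((l : K) * β) := by
      obtain ⟨y, hy, hint⟩ := halg.exists_integral_multiple
      refine ⟨y.natAbs, Int.natAbs_ne_zero.2 hy, ?_⟩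
      rcases Int.natAbs_eq y with h1 | h1
      · rw [h1, zsmul_eq_mul] at hint
        simpa using hint
      · rw [h1, zsmul_eq_mul] at hint
        have := hint.neg
        simpa using this
    set t : K := (l : K) * β with ht
    have ht0 : t ≠ 0 := mul_ne_zero (by exact_mod_cast hl) hβ0
    obtain ⟨f, hf1, hf2⟩ := exists_seq (minpoly.monic hint)
      (minpoly_coeff_ne hint ht0) (minpoly.natDegree_pos hint)
    let κ : ℤ[X] →+* ↥(aeval t : ℤ[X] →ₐ[ℤ] K).range := (aeval t : ℤ[X] →ₐ[ℤ] K).rangeRestrict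
    have hκ : ∀ s, ((κ s : ↥(aeval t : ℤ[X] →ₐ[ℤ] K).range) : K) = aeval t s := fun s => rfl
    have hκg : ∀ i, κ (1 + C (f i : ℤ) * X) = 1 + (f i : ↥(aeval t : ℤ[X] →ₐ[ℤ] K).range) * κ X := by
      intro i
      rw [map_add, map_mul, map_one]
      congr 2
      exact map_natCast (κ.comp C) (f i)
    have hnu : ∀ i, ¬ IsUnit (κ (1 + C (f i : ℤ) * X)) := by
      intro i hu
      obtain ⟨q, hq, hqn, hd⟩ := hf1 i
      obtain ⟨⟨w, g, hg⟩, hw⟩ := hu.exists_right_inv
      refine not_unit hint hq hqn hd g ?_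
      have h1 := congrArg Subtype.val hw
      have h2 : (aeval t (1 + C (f i : ℤ) * X) : K) * w = 1 := h1
      have hg' : aeval t g = w := hg
      rw [map_add, map_mul, map_one, aeval_X, aeval_C] at h2
      have : (algebraMap ℤ K) (f i : ℤ) = (f i : K) := by simp
      rw [hg', ← this]
      exact h2
    have hne0 : ∀ i, κ (1 + C (f i : ℤ) * X) ≠ 0 := by
      intro i h0
      -- zero is excluded by the divisibility
      have hd := dvd_eval (x := t) (F := minpoly ℤ t) (minpoly.aeval ℤ t) (f i)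
      have h1 : (1 : K) + (f i : K) * t = 0 := by
        have := congrArg Subtype.val h0
        have h2 : (aeval t (1 + C (f i : ℤ) * X) : K) = 0 := this
        rw [map_add, map_mul, map_one, aeval_X, aeval_C] at h2
        simpa using h2
      rw [h1, zero_dvd_iff] at hd
      have h3 : (minpoly ℤ t).reverse.eval (-(f i : ℤ)) = 0 := by exact_mod_cast hd
      have h4 := hf2 i (i + 1) (Nat.lt_succ_self i)
      rw [h3, zero_dvd_iff] at h4
      obtain ⟨q, hq, hqn, -⟩ := hf1 (i + 1)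
      exact hqn (by
        have : f (i + 1) = 0 := by exact_mod_cast h4
        rw [this]; exact dvd_zero _)
    have hcop : ∀ i j, i ≠ j →
        IsCoprime (κ (1 + C (f i : ℤ) * X)) (κ (1 + C (f j : ℤ) * X)) := by
      have core : ∀ i j, i < j → IsCoprime (κ (1 + C (f i : ℤ) * X)) (κ (1 + C (f j : ℤ) * X)) := by
        intro i j hij
        rw [hκg, hκg]
        have hx : aeval (κ X) (minpoly ℤ t) = 0 := by
          refine Subtype.ext ?_
          have h1 : ((aeval (κ X) (minpoly ℤ t) : ↥(aeval t : ℤ[X] →ₐ[ℤ] K).range) : K) =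
              aeval (((κ X : ↥(aeval t : ℤ[X] →ₐ[ℤ] K).range) : K)) (minpoly ℤ t) :=
            (Polynomial.aeval_algHom_apply (aeval t : ℤ[X] →ₐ[ℤ] K).range.val (κ X) _).symm
          rw [h1, hκ, aeval_X, minpoly.aeval]
          rfl
        obtain ⟨w, hw⟩ := dvd_eval hx (f i)
        obtain ⟨c, hc'⟩ := hf2 i j hij
        have h2 : (f j : ↥(aeval t : ℤ[X] →ₐ[ℤ] K).range) =
            (1 + (f i : ↥(aeval t : ℤ[X] →ₐ[ℤ] K).range) * κ X) * w * c := by
          rw [← hw, ← Int.cast_mul, ← hc', Int.cast_natCast]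
        refine ⟨-(w * c * κ X), 1, ?_⟩
        rw [h2]; ring
      intro i j hij
      rcases Nat.lt_or_gt_of_ne hij with h1 | h1
      · exact core i j h1
      · exact (core j i h1).symm
    obtain ⟨i0, ι, a, ha, hι, hι0, hrel⟩ := h (fun n => f n * l)
    refine line_trick (κ := κ)
      (ψ := ((aeval ((l : ℤ) • ε) : ℤ[X] →ₐ[ℤ] Module.End ℤ E) : ℤ[X] →+* Module.End ℤ E))
      (ρ := ρ) (P := P) (v := d) hr
      (fun q hq r => comm_aeval ((hc q hq).smul_right _) r) (fun s hs => ?_)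
      (1 + C (f i0 : ℤ) * X)
      (fun n => 1 + C (f (ι n) : ℤ) * X) a ha (fun n => ?_)
      (hne0 i0) (fun n => hne0 (ι n)) (fun n => hcop _ _ (hι0 n))
      (fun i j hij => hcop _ _ (fun e => hij (hι e))) (fun n => hnu (ι n))
    · have h1 : aeval ε (s.comp (C (l : ℤ) * X)) d = 0 := by
        rw [aeval_comp]
        have : aeval ε (C (l : ℤ) * X) = (l : ℤ) • ε := by
          rw [map_mul, aeval_X, aeval_C]
          rfl
        rw [this]
        exact hs
      have h2 := hβ _ h1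
      rw [aeval_comp] at h2
      have h3 : aeval β (C (l : ℤ) * X) = t := by
        rw [map_mul, aeval_X, aeval_C, ht]
        simp
      rw [h3] at h2
      exact Subtype.ext h2
    · change ρ (a n) (aeval ((l : ℤ) • ε) (1 + C (f i0 : ℤ) * X) d) =
        aeval ((l : ℤ) • ε) (1 + C (f (ι n) : ℤ) * X) d
      rw [haev, haev]
      have h5 := hrel n
      rw [mul_smul, mul_smul] at h5
      rw [LinearMap.smul_apply, natCast_zsmul]
      exact h5

end Pool.TFL
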