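import Mathlib
import Pool.Agent.TFN.RankX
import Pool.Agent.TFL.Nilp2
import Pool.Agent.TFR.Reduce

/-!
# Derivations of abelian-by-finite groups: preparations
-/

set_option autoImplicit false

namespace Pool.TFL

open Cardinal Pool.TFR Pool.TFN Polynomial

section

variable {Λ E : Type} [Group Λ] [AddCommGroup E]

/-- pigeonhole -/
theorem pigeon {D : Der Λ E} {S : AddSubmonoid E} (h : PreD D S) (P : Subgroup Λ)
    (hPf : P.FiniteIndex) (s : ℕ → E) (hs : ∀ i, s i ∈ S) :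
    ∃ (i0 : ℕ) (ι : ℕ → ℕ) (a : ℕ → Λ), (∀ i, a i ∈ P) ∧ Function.Injective ι ∧
      (∀ i, ι i ≠ i0) ∧ ∀ i, D.π (a i) = s (ι i) - D.ρ (a i) (s i0) := by
  classical
  choose q hq using fun i => h.val (s i) (hs i)
  have hfin : Finite (Λ ⧸ P) := Subgroup.finite_quotient_of_finiteIndex
  obtain ⟨y, hy⟩ := Finite.exists_infinite_fiber (fun i : ℕ => (((q i)⁻¹ : Λ) : Λ ⧸ P))
  let e := (Set.infinite_coe_iff.1 hy).natEmbedding
  have he : ∀ i, (((q (e i).1)⁻¹ : Λ) : Λ ⧸ P) = y := fun i => (e i).2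
  have hmem : ∀ i, q (e (i + 1)).1 * (q (e 0).1)⁻¹ ∈ P := by
    intro i
    have := (he (i + 1)).trans (he 0).symm
    rw [QuotientGroup.eq] at this
    simpa using this
  refine ⟨(e 0).1, fun i => (e (i + 1)).1, fun i => _, fun i => hmem i, ?_, ?_, ?_⟩
  · intro i j hij
    have := e.injective (Subtype.ext hij)
    omega
  · intro i hi
    have := e.injective (Subtype.ext hi)
    omega
  · intro i
    set A : Λ := q (e (i + 1)).1 * (q (e 0).1)⁻¹ with hA
    have hAq : A * q (e 0).1 = q (e (i + 1)).1 := by rw [hA]; group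
    have e1 : D.π A + D.ρ A (D.π (q (e 0).1)) = D.π (q (e (i + 1)).1) := by
      rw [← D.map_mul, hAq]
    rw [hq, hq] at e1
    change D.π A = s (e (i + 1)).1 - D.ρ A (s (e 0).1)
    rw [← e1]
    abel

theorem pigeon_lt {D : Der Λ E} {S : AddSubmonoid E} (h : PreD D S) (P : Subgroup Λ)
    (hPf : P.FiniteIndex) (x : E) (hx : x ∈ S) :
    ∃ (i j : ℕ) (a : Λ), a ∈ P ∧ i < j ∧ D.π a = j • x - D.ρ a (i • x) := by
  obtain ⟨i0, ι, a, ha, hι, -, hrel⟩ := pigeon h P hPf (fun i => i • x)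
    (fun i => S.nsmul_mem hx i)
  obtain ⟨_, ⟨k, rfl⟩, hk⟩ := (Set.infinite_range_of_injective hι).exists_gt i0
  exact ⟨i0, ι k, a k, ha k, hk, hrel k⟩

theorem preD_shift {D : Der Λ E} {S : AddSubmonoid E} (h : PreD D S) {m : E} (hm : m ∈ S) :
    PreD (D.shift m) S where
  inv := h.inv
  gen := h.gen
  val d hd := by
    obtain ⟨g, hg⟩ := h.val m hm
    obtain ⟨k, hk⟩ := h.val (m + d) (S.add_mem hm hd)
    refine ⟨k * g⁻¹, ?_⟩
    change D.π (k * g⁻¹) + (D.ρ (k * g⁻¹) m - m) = d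
    have e1 : D.π (k * g⁻¹) + D.ρ (k * g⁻¹) (D.π g) = D.π k := by
      rw [← D.map_mul, inv_mul_cancel_right]
    rw [hg, hk] at e1
    have e2 : D.π (k * g⁻¹) + (D.ρ (k * g⁻¹) m - m) =
        (D.π (k * g⁻¹) + D.ρ (k * g⁻¹) m) - m := by abel
    rw [e2, e1]
    abel

/-- pairwise coprime natural numbers -/
theorem exists_coprime_seq : ∃ m : ℕ → ℕ, (∀ i, 2 ≤ m i) ∧
    ∀ i j, i ≠ j → IsCoprime (m i : ℤ) (m j : ℤ) := by
  have hm : ∀ i, (((1 + 1 * seqP (1 : ℤ) i).toNat : ℕ) : ℤ) = 1 + 1 * seqP (1 : ℤ) i := by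
    intro i
    have := seqP_pos 1 le_rfl i
    exact Int.toNat_of_nonneg (by omega)
  refine ⟨fun i => (1 + 1 * seqP (1 : ℤ) i).toNat, fun i => ?_, fun i j hij => ?_⟩
  · have h1 := seqP_pos 1 le_rfl i
    have h2 := hm i
    have h3 : (2 : ℤ) ≤ (((1 + 1 * seqP (1 : ℤ) i).toNat : ℕ) : ℤ) := by rw [h2]; omega
    exact_mod_cast h3
  · change IsCoprime (((1 + 1 * seqP (1 : ℤ) i).toNat : ℕ) : ℤ)
      (((1 + 1 * seqP (1 : ℤ) j).toNat : ℕ) : ℤ)
    rw [hm, hm]
    exact seq_coprime 1 hij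

/-- elements of `P` with value in `W` act trivially modulo `W` -/
theorem trivial_mod2 [Group.IsSolvable Λ] (hr : r0 Λ < ℵ₀) {D : Der Λ E} {S : AddSubmonoid E}
    (h : PreD D S) (P : Subgroup Λ) (hPf : P.FiniteIndex)
    (hPc : ∀ a ∈ P, ∀ b ∈ P, a * b = b * a) {W : Submodule ℤ E} (hW : D.Inv W)
    (hTF : ∀ n : ℤ, n ≠ 0 → ∀ x, n • x ∈ W → x ∈ W) {a : Λ} (haP : a ∈ P)
    (ha : D.π a ∈ W) (x : E) : D.ρ a x - x ∈ W := by
  have key : ∀ x ∈ S, D.ρ a x - x ∈ W := by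
    intro x hx
    by_contra hcon
    obtain ⟨m, hm2, hmc⟩ := exists_coprime_seq
    obtain ⟨i0, ι, b, hb, hι, hι0, hrel⟩ := pigeon h P hPf (fun i => m i • x)
      (fun i => S.nsmul_mem hx _)
    set y : E := D.ρ a x - x with hy
    have hcomm : ∀ c ∈ P, ∀ z, D.ρ a (D.ρ c z) = D.ρ c (D.ρ a z) := by
      intro c hc z
      rw [← Module.End.mul_apply, ← Module.End.mul_apply, ← map_mul, ← map_mul, hPc a haP c hc]
    have hmem : ∀ i, m (ι i) • y - D.ρ (b i) (m i0 • y) ∈ W := by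
      intro i
      have h1 := basic (show D.π (b i * a) = D.π (a * b i) by rw [hPc a haP _ (hb i)])
      have h2 : D.ρ a (D.π (b i)) - D.π (b i) ∈ W := by
        rw [h1]
        exact W.sub_mem (hW _ _ ha) ha
      rw [hrel i] at h2
      have e : D.ρ a (m (ι i) • x - D.ρ (b i) (m i0 • x)) - (m (ι i) • x - D.ρ (b i) (m i0 • x)) =
          m (ι i) • y - D.ρ (b i) (m i0 • y) := by
        rw [hy, map_sub, hcomm _ (hb i), map_nsmul, map_nsmul, map_nsmul, map_nsmul, map_nsmul,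
          smul_sub, map_sub, smul_sub]
        abel
      rw [e] at h2
      exact h2
    refine line_trick (κ := RingHom.id ℤ) (ψ := algebraMap ℤ (Module.End ℤ (E ⧸ W)))
      (ρ := (D.quot hW).ρ) (P := P) (v := Submodule.Quotient.mk y) hr
      (fun q _ r => (Algebra.commutes r ((D.quot hW).ρ q)).symm) (fun s hs => ?_) (m i0 : ℤ)
      (fun i => (m (ι i) : ℤ)) b hb (fun i => ?_) ?_ (fun i => ?_) (fun i => hmc _ _ (hι0 i))
      (fun i j hij => hmc _ _ (fun e => hij (hι e))) (fun i => ?_)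
    · by_contra hs0
      rw [Module.algebraMap_end_apply, ← Submodule.Quotient.mk_smul,
        Submodule.Quotient.mk_eq_zero] at hs
      exact hcon (hTF s hs0 y hs)
    · rw [Module.algebraMap_end_apply, Module.algebraMap_end_apply, ← Submodule.Quotient.mk_smul,
        ← Submodule.Quotient.mk_smul]
      change Submodule.Quotient.mk (D.ρ (b i) ((m i0 : ℤ) • y)) = _
      rw [natCast_zsmul, natCast_zsmul, eq_comm, Submodule.Quotient.eq]
      exact hmem i
    · have := hm2 i0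
      change (m i0 : ℤ) ≠ 0
      omega
    · have := hm2 (ι i)
      change (m (ι i) : ℤ) ≠ 0
      omega
    · have := hm2 (ι i)
      change ¬ IsUnit (m (ι i) : ℤ)
      rw [Int.isUnit_iff]
      omega
  obtain ⟨d, hd, d', hd', rfl⟩ := h.gen x
  have e : D.ρ a (d - d') - (d - d') = (D.ρ a d - d) - (D.ρ a d' - d') := by
    rw [map_sub]; abel
  rw [e]
  exact W.sub_mem (key d hd) (key d' hd')

end

theorem rank_of_mult {Y : Type} [AddCommGroup Y] (V : Submodule ℤ Y)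
    (h : ∀ y, ∃ n : ℤ, n ≠ 0 ∧ n • y ∈ V) : Module.rank ℤ Y = Module.rank ℤ V := by
  have h1 := rank_quotient_add_rank_of_isDomain V
  have h2 : Module.rank ℤ (Y ⧸ V) = 0 := by
    rw [rank_eq_zero_iff]
    intro x
    obtain ⟨y, rfl⟩ := Submodule.Quotient.mk_surjective _ x
    obtain ⟨n, hn, hny⟩ := h y
    exact ⟨n, hn, by rw [← Submodule.Quotient.mk_smul, Submodule.Quotient.mk_eq_zero]; exact hny⟩
  rw [← h1, h2, zero_add]

theorem orb_rank2 {Λ E : Type} [CommGroup Λ] [AddCommGroup E] (D : Der Λ E)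
    (S : AddSubmonoid E) (hinv : ∀ a, ∀ d ∈ S, D.ρ a d ∈ S)
    (hph : ∀ s : ℕ → E, (∀ i, s i ∈ S) → ∃ (i0 : ℕ) (ι : ℕ → ℕ) (a : ℕ → Λ),
      Function.Injective ι ∧ (∀ i, ι i ≠ i0) ∧ ∀ i, D.π (a i) = s (ι i) - D.ρ (a i) (s i0))
    (hr : ra Λ < ℵ₀) (hE : TF E) {γ : Λ} (hd : D.π γ ∈ S) (hd0 : D.π γ ≠ 0) :
    Module.rank ℤ (TFN.orb D (D.π γ)) < ℵ₀ ∧ ra ↥(D.stab (inv_orb D (D.π γ))) ≠ 0 := by
  set d : E := D.π γ with hdef
  set ε : Module.End ℤ E := D.ρ γ - 1 with hε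
  have hεa : ∀ x, ε x = D.ρ γ x - x := fun x => rfl
  have hcm : ∀ a, Commute (D.ρ a) ε := by
    intro a
    have h1 : Commute (D.ρ a) (D.ρ γ) := by
      change D.ρ a * D.ρ γ = D.ρ γ * D.ρ a
      rw [← map_mul, ← map_mul, mul_comm]
    exact h1.sub_right (Commute.one_right _)
  have hcm' : ∀ a x, ε (D.ρ a x) = D.ρ a (ε x) := by
    intro a x
    rw [← Module.End.mul_apply, ← (hcm a).eq, Module.End.mul_apply]
  have hr' : r0 Λ < ℵ₀ := by rw [r0_comm]; exact hr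
  obtain ⟨k, hk⟩ := nilp2 hr' hE D.ρ ⊤ ε (fun a _ => hcm a) d (fun m => by
    obtain ⟨i0, ι, a, hι, hι0, hrel⟩ := hph (fun i => m i • d) (fun i => S.nsmul_mem hd _)
    refine ⟨i0, ι, a, fun _ => trivial, hι, hι0, fun i => ?_⟩
    have h1 := basic (show D.π (a i * γ) = D.π (γ * a i) by rw [mul_comm])
    rw [← hdef, hrel i, ← hεa, map_sub, hcm', map_nsmul, map_nsmul, map_nsmul] at h1
    have h2 : D.ρ (a i) d = d + (m (ι i) • ε d - m i0 • D.ρ (a i) (ε d)) := by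
      rw [h1]; abel
    rw [map_add, map_nsmul, h2]
    abel)
  set W := TFN.orb D d with hWdef
  have hW : D.Inv W := inv_orb D d
  have hεW : ∀ x ∈ W, ε x ∈ W := fun x hx => W.sub_mem (hW _ _ hx) hx
  let f : Module.End ℤ ↥W := ε.restrict hεW
  have hfa : ∀ x : ↥W, ((f x : ↥W) : E) = ε x.1 := fun x => rfl
  have hfp : ∀ (n : ℕ) (x : ↥W), (((f ^ n) x : ↥W) : E) = (ε ^ n) x.1 := by
    intro n
    induction n with
    | zero => intro x; rfl
    | succ n ihn =>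
      intro x
      rw [pow_succ, pow_succ, Module.End.mul_apply, Module.End.mul_apply, ihn, hfa]
  have hfk : f ^ k = 0 := by
    refine LinearMap.ext (fun x => Subtype.ext ?_)
    rw [hfp]
    change (ε ^ k) x.1 = 0
    refine Submodule.span_induction (p := fun m _ => (ε ^ k) m = 0) ?_ ?_ ?_ ?_ x.2
    · rintro _ ⟨a, rfl⟩
      have h1 : D.ρ a * ε ^ k = ε ^ k * D.ρ a := ((hcm a).pow_right k).eq
      change (ε ^ k) (D.ρ a d) = 0
      rw [← Module.End.mul_apply, ← h1, Module.End.mul_apply, hk, map_zero]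
    · exact map_zero _
    · intro x y _ _ hx hy
      rw [map_add, hx, hy, add_zero]
    · intro c x _ hx
      rw [map_smul, hx, smul_zero]
  have hinv' : (D.sub hW).Inv (LinearMap.range f) := by
    rintro q _ ⟨w, rfl⟩
    refine ⟨(D.sub hW).ρ q w, Subtype.ext ?_⟩
    change ε (D.ρ q.1 w.1) = D.ρ q.1 (ε w.1)
    rw [hcm']
  have hrk := rank_nilp k ↥W f hfk
  -- the derivation with values in the quotient
  let D1 := (D.sub hW).quot hinv'
  have hN : ∀ c ∈ D1.ρ.ker, D1.ρ c = 1 := fun c hc => MonoidHom.mem_ker.1 hc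
  have htop : ∀ y, ∃ n : ℤ, n ≠ 0 ∧ n • y ∈ valN D1 D1.ρ.ker hN := by
    intro y
    obtain ⟨w, rfl⟩ := Submodule.Quotient.mk_surjective _ y
    obtain ⟨w, hw⟩ := w
    refine Submodule.span_induction (p := fun m hm => ∃ n : ℤ, n ≠ 0 ∧
      n • Submodule.Quotient.mk (⟨m, hm⟩ : ↥W) ∈ valN D1 D1.ρ.ker hN) ?_ ?_ ?_ ?_ hw
    · rintro _ ⟨b, rfl⟩
      obtain ⟨i0, ι, a, hι, -, hrel⟩ := hph (fun i => i • D.ρ b d)
        (fun i => S.nsmul_mem (hinv b d hd) _)
      obtain ⟨_, ⟨k', rfl⟩, hlt⟩ := (Set.infinite_range_of_injective hι).exists_gt i0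
      have hrel' := hrel k'
      set a' := a k' with ha'
      set j := ι k' with hj
      have hbW : D.ρ b d ∈ W := hW _ _ (mem_orb D d)
      have haW : D.π a' ∈ W := by
        rw [hrel']
        exact W.sub_mem (W.nsmul_mem hbW _) (hW _ _ (W.nsmul_mem hbW _))
      -- `a' - 1` maps `d` into `ε W`
      have hd1 : D.ρ a' d - d = ε (D.π a') := by
        have h1 := basic (show D.π (a' * γ) = D.π (γ * a') by rw [mul_comm])
        rw [← hdef] at h1
        exact h1.symm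
      refine ⟨(j : ℤ) - i0, by omega, ?_⟩
      rw [mem_valN]
      refine ⟨⟨a', haW⟩, ?_, ?_⟩
      · rw [MonoidHom.mem_ker]
        refine LinearMap.ext (fun y => ?_)
        obtain ⟨w, rfl⟩ := Submodule.Quotient.mk_surjective _ y
        change Submodule.Quotient.mk _ = Submodule.Quotient.mk _
        rw [Submodule.Quotient.eq]
        obtain ⟨w, hw'⟩ := w
        refine Submodule.span_induction (p := fun m hm =>
          (D.sub hW).ρ ⟨a', haW⟩ (⟨m, hm⟩ : ↥W) - (⟨m, hm⟩ : ↥W) ∈ LinearMap.range f)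
          ?_ ?_ ?_ ?_ hw'
        · rintro _ ⟨c, rfl⟩
          refine ⟨⟨D.ρ c (D.π a'), hW _ _ haW⟩, Subtype.ext ?_⟩
          change ε (D.ρ c (D.π a')) = D.ρ a' (D.ρ c d) - D.ρ c d
          rw [hcm', ← hd1, map_sub, ρ_comm D a' c]
        · have e : (⟨0, W.zero_mem⟩ : ↥W) = 0 := rfl
          rw [e, map_zero, sub_zero]
          exact Submodule.zero_mem _
        · intro x y hx hy h1 h2
          have := Submodule.add_mem _ h1 h2
          have e : (D.sub hW).ρ ⟨a', haW⟩ (⟨x + y, W.add_mem hx hy⟩ : ↥W) -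
              (⟨x + y, W.add_mem hx hy⟩ : ↥W) =
              ((D.sub hW).ρ ⟨a', haW⟩ (⟨x, hx⟩ : ↥W) - (⟨x, hx⟩ : ↥W)) +
              ((D.sub hW).ρ ⟨a', haW⟩ (⟨y, hy⟩ : ↥W) - (⟨y, hy⟩ : ↥W)) := by
            have e1 : (⟨x + y, W.add_mem hx hy⟩ : ↥W) = ⟨x, hx⟩ + ⟨y, hy⟩ := rfl
            rw [e1, map_add]; abel
          rw [e]; exact this
        · intro c x hx h1
          have := Submodule.smul_mem _ c h1
          have e : (D.sub hW).ρ ⟨a', haW⟩ (⟨c • x, W.smul_mem c hx⟩ : ↥W) -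
              (⟨c • x, W.smul_mem c hx⟩ : ↥W) =
              c • ((D.sub hW).ρ ⟨a', haW⟩ (⟨x, hx⟩ : ↥W) - (⟨x, hx⟩ : ↥W)) := by
            have e1 : (⟨c • x, W.smul_mem c hx⟩ : ↥W) = c • ⟨x, hx⟩ := rfl
            rw [e1, map_smul, smul_sub]
          rw [e]; exact this
      · -- the value
        change Submodule.Quotient.mk (⟨D.π a', haW⟩ : ↥W) =
          ((j : ℤ) - i0) • Submodule.Quotient.mk (⟨D.ρ b d, _⟩ : ↥W)
        rw [← Submodule.Quotient.mk_smul, Submodule.Quotient.eq]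
        refine ⟨⟨-(i0 • D.ρ b (D.π a')), W.neg_mem (W.nsmul_mem (hW _ _ haW) _)⟩,
          Subtype.ext ?_⟩
        change ε (-(i0 • D.ρ b (D.π a'))) = D.π a' - ((j : ℤ) - i0) • D.ρ b d
        rw [map_neg, map_nsmul, hcm', ← hd1, hrel', sub_smul, natCast_zsmul, natCast_zsmul,
          map_nsmul, map_sub, smul_sub, ρ_comm D a' b]
        abel
    · exact ⟨1, one_ne_zero, by
        have : (1 : ℤ) • Submodule.Quotient.mk (p := LinearMap.range f) (⟨0, W.zero_mem⟩ : ↥W) = 0 := by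
          rw [one_smul]; rfl
        rw [this]
        exact Submodule.zero_mem _⟩
    · rintro x y hx hy ⟨n, hn, h1⟩ ⟨n', hn', h2⟩
      refine ⟨n * n', mul_ne_zero hn hn', ?_⟩
      have e : (n * n') • Submodule.Quotient.mk (p := LinearMap.range f)
          (⟨x + y, W.add_mem hx hy⟩ : ↥W) =
          n' • (n • Submodule.Quotient.mk (p := LinearMap.range f) (⟨x, hx⟩ : ↥W)) +
          n • (n' • Submodule.Quotient.mk (p := LinearMap.range f) (⟨y, hy⟩ : ↥W)) := by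
        have e1 : (⟨x + y, W.add_mem hx hy⟩ : ↥W) = ⟨x, hx⟩ + ⟨y, hy⟩ := rfl
        rw [e1, Submodule.Quotient.mk_add, smul_add, smul_smul, smul_smul, mul_comm n' n]
      rw [e]
      exact Submodule.add_mem _ (Submodule.smul_mem _ _ h1) (Submodule.smul_mem _ _ h2)
    · rintro c x hx ⟨n, hn, h1⟩
      refine ⟨n, hn, ?_⟩
      have e : n • Submodule.Quotient.mk (p := LinearMap.range f)
          (⟨c • x, W.smul_mem c hx⟩ : ↥W) =
          c • (n • Submodule.Quotient.mk (p := LinearMap.range f) (⟨x, hx⟩ : ↥W)) := by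
        have e1 : (⟨c • x, W.smul_mem c hx⟩ : ↥W) = c • ⟨x, hx⟩ := rfl
        rw [e1, Submodule.Quotient.mk_smul, smul_comm]
      rw [e]
      exact Submodule.smul_mem _ _ h1
  have h1 : Module.rank ℤ (↥W ⧸ LinearMap.range f) ≤ ra ↥(D.stab hW) := by
    have h2 := rank_valN_le D1 hN
    rw [rank_of_mult _ htop, ← r0_comm]
    exact h2.trans (r0_subgroup_le _)
  have h2 : ra ↥(D.stab hW) < ℵ₀ :=
    lt_of_le_of_lt (ra_le_of_injective (D.stab hW).subtype (Subgroup.subtype_injective _)) hr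
  have h3 : Module.rank ℤ ↥W ≤ k * ra ↥(D.stab hW) := hrk.trans (mul_le_mul_right h1 _)
  refine ⟨lt_of_le_of_lt h3 (Cardinal.mul_lt_aleph0 (Cardinal.natCast_lt_aleph0) h2), ?_⟩
  intro h0
  rw [h0, mul_zero, nonpos_iff_eq_zero, rank_eq_zero_iff] at h3
  obtain ⟨c, hc, hcd⟩ := h3 ⟨d, mem_orb D d⟩
  exact hd0 (hE c hc d (congrArg Subtype.val hcd))

end Pool.TFL
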