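import Mathlib
import Pool.Agent.TFL.RankY1

/-!
# Derivations of abelian-by-finite groups whose values contain a generating submonoid
-/

set_option autoImplicit false

namespace Pool.TFL

open Cardinal Pool.TFR Pool.TFN

/-- restriction of a derivation to a subgroup -/
def res {Λ E : Type} [Group Λ] [AddCommGroup E] (D : Der Λ E) (P : Subgroup Λ) : Der ↥P E where
  ρ := D.ρ.comp P.subtype
  π := fun x => D.π x.1
  map_mul a b := D.map_mul a.1 b.1

/-- the submodule generated by an orbit of a group -/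
def orbG {Λ E : Type} [Group Λ] [AddCommGroup E] (D : Der Λ E) (d : E) : Submodule ℤ E :=
  Submodule.span ℤ (Set.range (fun a => D.ρ a d))

theorem inv_orbG {Λ E : Type} [Group Λ] [AddCommGroup E] (D : Der Λ E) (d : E) :
    D.Inv (orbG D d) := by
  intro a m hm
  refine Submodule.span_induction (p := fun m _ => D.ρ a m ∈ orbG D d) ?_ ?_ ?_ ?_ hm
  · rintro _ ⟨b, rfl⟩
    refine Submodule.subset_span ⟨a * b, ?_⟩
    change D.ρ (a * b) d = D.ρ a (D.ρ b d)
    rw [map_mul]; rfl
  · rw [map_zero]; exact Submodule.zero_mem _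
  · intro x y _ _ hx hy
    rw [map_add]; exact Submodule.add_mem _ hx hy
  · intro c x _ hx
    rw [map_smul]; exact Submodule.smul_mem _ _ hx

/-- the orbit of a finite index subgroup gives finite rank of the whole orbit -/
theorem rank_orbG {Λ E : Type} [Group Λ] [AddCommGroup E] (D : Der Λ E) (d : E)
    (P : Subgroup Λ) (hPf : P.FiniteIndex)
    (h : Module.rank ℤ (orbG (res D P) d) < ℵ₀) : Module.rank ℤ (orbG D d) < ℵ₀ := by
  classical
  have hfin : Finite (Λ ⧸ P) := Subgroup.finite_quotient_of_finiteIndex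
  have hft : Fintype (Λ ⧸ P) := Fintype.ofFinite _
  let F : (Λ ⧸ P) → Submodule ℤ E := fun j => (orbG (res D P) d).map (D.ρ j.out)
  have hle : orbG D d ≤ Finset.univ.sup F := by
    refine Submodule.span_le.2 ?_
    rintro _ ⟨g, rfl⟩
    set j : Λ ⧸ P := (g : Λ ⧸ P) with hj
    have hg : j.out⁻¹ * g ∈ P := by
      rw [← QuotientGroup.eq]
      exact QuotientGroup.out_eq' _
    have h1 : D.ρ g d ∈ F j := by
      refine ⟨D.ρ (j.out⁻¹ * g) d, Submodule.subset_span ⟨⟨_, hg⟩, rfl⟩, ?_⟩
      rw [← Module.End.mul_apply, ← map_mul, mul_inv_cancel_left]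
    exact (Finset.le_sup (f := F) (Finset.mem_univ j)) h1
  have hfin : ∀ s : Finset (Λ ⧸ P), Module.rank ℤ ↥(s.sup F) < ℵ₀ := by
    intro s
    induction s using Finset.induction_on with
    | empty =>
      rw [Finset.sup_empty, rank_bot]
      exact Cardinal.aleph0_pos
    | insert a s _ ihs =>
      rw [Finset.sup_insert]
      refine lt_of_le_of_lt (Submodule.rank_add_le_rank_add_rank _ _) ?_
      exact Cardinal.add_lt_aleph0 (lt_of_le_of_lt (rank_map_le _ _) h) ihs
  exact lt_of_le_of_lt (Submodule.rank_mono hle) (hfin _)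

/-- the isolator of a submodule -/
def isol {E : Type} [AddCommGroup E] (W : Submodule ℤ E) : Submodule ℤ E where
  carrier := {x | ∃ n : ℤ, n ≠ 0 ∧ n • x ∈ W}
  zero_mem' := ⟨1, one_ne_zero, by rw [smul_zero]; exact W.zero_mem⟩
  add_mem' := by
    rintro a b ⟨n, hn, ha⟩ ⟨k, hk, hb⟩
    refine ⟨n * k, mul_ne_zero hn hk, ?_⟩
    rw [smul_add, mul_smul n k b, mul_comm n k, mul_smul k n a]
    exact W.add_mem (W.smul_mem _ ha) (W.smul_mem _ hb)
  smul_mem' := by
    rintro c a ⟨n, hn, ha⟩
    exact ⟨n, hn, by rw [smul_comm]; exact W.smul_mem _ ha⟩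

theorem le_isol {E : Type} [AddCommGroup E] (W : Submodule ℤ E) : W ≤ isol W :=
  fun x hx => ⟨1, one_ne_zero, by rwa [one_smul]⟩

theorem isol_tf {E : Type} [AddCommGroup E] (W : Submodule ℤ E) (n : ℤ) (hn : n ≠ 0) (x : E)
    (h : n • x ∈ isol W) : x ∈ isol W := by
  obtain ⟨k, hk, hkx⟩ := h
  exact ⟨k * n, mul_ne_zero hk hn, by rw [mul_smul]; exact hkx⟩

theorem rank_isol {E : Type} [AddCommGroup E] (W : Submodule ℤ E) :
    Module.rank ℤ (isol W) = Module.rank ℤ W := by
  have h1 := rank_of_mult (W.comap (isol W).subtype) (fun y => by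
    obtain ⟨n, hn, h⟩ := y.2
    exact ⟨n, hn, h⟩)
  rw [h1]
  exact LinearEquiv.rank_eq (Submodule.comapSubtypeEquivOfLe (le_isol W))

/-- **Derivations of abelian-by-finite groups.** -/
theorem rank_Y (n : ℕ) : ∀ (Λ E : Type) [Group Λ] [AddCommGroup E] [Group.IsSolvable Λ]
    (P : Subgroup Λ), P.Normal → P.FiniteIndex → (∀ a ∈ P, ∀ b ∈ P, a * b = b * a) →
    ∀ (D : Der Λ E) (S : AddSubmonoid E), r0 Λ < ℵ₀ → PreD D S → r0 ↥P < n →
      Module.rank ℤ E < ℵ₀ := by
  induction n with
  | zero =>
    intro Λ E _ _ _ P _ _ _ D S _ _ h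
    rw [Nat.cast_zero] at h
    exact absurd h (not_lt_of_ge zero_le)
  | succ n ih =>
    -- reduction to the torsion-free case
    suffices hTF : ∀ (Λ E : Type) [Group Λ] [AddCommGroup E] [Group.IsSolvable Λ]
        (P : Subgroup Λ), P.Normal → P.FiniteIndex → (∀ a ∈ P, ∀ b ∈ P, a * b = b * a) →
        ∀ (D : Der Λ E) (S : AddSubmonoid E), r0 Λ < ℵ₀ → PreD D S → r0 ↥P < (n + 1 : ℕ) →
          TF E → Module.rank ℤ E < ℵ₀ by
      intro Λ E _ _ _ P hPn hPf hPc D S hrΛ h hr
      have h1 := hTF Λ _ P hPn hPf hPc (D.quot D.inv_tors) _ hrΛ (h.quot D.inv_tors) hr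
        (tf_quot E)
      have hsum := rank_quotient_add_rank_of_isDomain (Der.tors E)
      rw [Der.rank_tors, add_zero] at hsum
      rwa [← hsum]
    intro Λ E _ _ _ P hPn hPf hPc D0 S hrΛ h0 hr hE
    by_cases hS : ∃ d ∈ S, d ≠ 0
    · obtain ⟨s, hs, hs0⟩ := hS
      obtain ⟨i, j, γ, hγ, hij, hγπ⟩ := pigeon_lt h0 P hPf s hs
      -- change of the base point
      let D : Der Λ E := D0.shift (i • s)
      have h : PreD D S := preD_shift h0 (S.nsmul_mem hs i)
      have hDγ : D.π γ = (j - i) • s := by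
        change D0.π γ + (D0.ρ γ (i • s) - i • s) = _
        have e1 : j • s = (j - i) • s + i • s := by
          rw [← add_smul]; congr 1; omega
        rw [hγπ, e1]
        abel
      have hd : D.π γ ∈ S := by rw [hDγ]; exact S.nsmul_mem hs _
      have hd0 : D.π γ ≠ 0 := by
        rw [hDγ]
        intro h1
        have h2 : ((j - i : ℕ) : ℤ) • s = 0 := by rw [natCast_zsmul]; exact h1
        exact hs0 (hE _ (by omega) s h2)
      let _ : CommGroup ↥P := cg ↥P (fun a b => Subtype.ext (hPc a.1 a.2 b.1 b.2))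
      have hraP : ra ↥P < ℵ₀ := by
        rw [← r0_comm]
        exact lt_of_lt_of_le hr (Cardinal.natCast_lt_aleph0).le
      obtain ⟨o1, o2⟩ := orb_rank2 (res D P) S (fun a d hd => h.inv a.1 d hd) (fun s hs => by
        obtain ⟨i0, ι, a, ha, hι, hι0, hrel⟩ := pigeon h P hPf s hs
        exact ⟨i0, ι, fun i => ⟨a i, ha i⟩, hι, hι0, hrel⟩) hraP hE (γ := ⟨γ, hγ⟩) hd hd0
      set d : E := D.π γ with hdd
      have o1' : Module.rank ℤ (orbG D d) < ℵ₀ := rank_orbG D d P hPf o1
      let W : Submodule ℤ E := isol (orbG D d)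
      have hW : D.Inv W := by
        rintro q x ⟨k, hk, hkx⟩
        exact ⟨k, hk, by rw [← map_smul]; exact inv_orbG D d q _ hkx⟩
      have hWtf := isol_tf (orbG D d)
      have htriv : ∀ a ∈ P, D.π a ∈ W → ∀ x, D.ρ a x - x ∈ W := fun a ha haW x =>
        trivial_mod2 hrΛ h P hPf hPc hW hWtf ha haW x
      -- the kernel
      let St : Subgroup Λ := P ⊓ D.stab hW
      have hSt : St.Normal := by
        refine ⟨fun a ha g => ⟨hPn.conj_mem a ha.1 g, ?_⟩⟩
        change D.π (g * a * g⁻¹) ∈ W
        have haW : D.π a ∈ W := ha.2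
        have e1 : D.π (g * a * g⁻¹) = D.ρ g (D.π a) -
            (D.ρ (g * a * g⁻¹) (D.π g) - D.π g) := by
          have e2 : D.π (g * a * g⁻¹) + D.ρ (g * a * g⁻¹) (D.π g) = D.π g + D.ρ g (D.π a) := by
            rw [← D.map_mul, inv_mul_cancel_right, D.map_mul]
          rw [eq_sub_of_add_eq e2]
          abel
        rw [e1]
        refine W.sub_mem (hW _ _ haW) ?_
        have h3 := hW g _ (htriv a ha.1 haW (D.ρ g⁻¹ (D.π g)))
        rw [map_sub, D.ρ_apply_inv] at h3
        have e4 : D.ρ g (D.ρ a (D.ρ g⁻¹ (D.π g))) = D.ρ (g * a * g⁻¹) (D.π g) := by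
          rw [map_mul, map_mul]; rfl
        rw [e4] at h3
        exact h3
      let f : Λ →* Λ ⧸ St := QuotientGroup.mk' St
      have hf : Function.Surjective f := QuotientGroup.mk'_surjective St
      have hfker : ∀ g, f g = 1 → g ∈ St := fun g hg => (QuotientGroup.eq_one_iff g).1 hg
      have h3 : Module.rank ℤ (E ⧸ W) < ℵ₀ := by
        refine ih (Λ ⧸ St) (E ⧸ W) (P.map f) (hPn.map f hf) ?_ ?_
          ((TFN.desc (D.quot hW) f hf (fun g hg => ?_) (fun g hg => ?_))) _ ?_
          ((h.quot hW).desc f hf (fun g hg => ?_) (fun g hg => ?_)) ?_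
        · exact ⟨fun h0 => hPf.index_ne_zero (Nat.eq_zero_of_zero_dvd
            (h0 ▸ P.index_map_dvd hf))⟩
        · rintro _ ⟨a, ha, rfl⟩ _ ⟨b, hb, rfl⟩
          rw [← map_mul, ← map_mul, hPc a ha b hb]
        · refine LinearMap.ext (fun y => ?_)
          obtain ⟨x, rfl⟩ := Submodule.Quotient.mk_surjective _ y
          change Submodule.Quotient.mk (D.ρ g x) = Submodule.Quotient.mk x
          rw [Submodule.Quotient.eq]
          exact htriv g (hfker g hg).1 (hfker g hg).2 x
        · change Submodule.Quotient.mk (D.π g) = 0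
          rw [Submodule.Quotient.mk_eq_zero]
          exact (hfker g hg).2
        · exact lt_of_le_of_lt (r0_le_of_surjective f hf) hrΛ
        · refine LinearMap.ext (fun y => ?_)
          obtain ⟨x, rfl⟩ := Submodule.Quotient.mk_surjective _ y
          change Submodule.Quotient.mk (D.ρ g x) = Submodule.Quotient.mk x
          rw [Submodule.Quotient.eq]
          exact htriv g (hfker g hg).1 (hfker g hg).2 x
        · change Submodule.Quotient.mk (D.π g) = 0
          rw [Submodule.Quotient.mk_eq_zero]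
          exact (hfker g hg).2
        · have h4 := r0_map_add f P
          have h5 : r0 ↥(P ⊓ f.ker) ≠ 0 := by
            intro h6
            apply o2
            rw [← r0_comm]
            have h7 : r0 ↥((res D P).stab (inv_orb (res D P) d)) ≤ r0 ↥(P ⊓ f.ker) := by
              refine r0_le_of_injective
                ({ toFun := fun x => ⟨x.1.1, x.1.2, ?_⟩
                   map_one' := rfl
                   map_mul' := fun a b => rfl } :
                  ↥((res D P).stab (inv_orb (res D P) d)) →* ↥(P ⊓ f.ker)) ?_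
              · have hx : D.π x.1.1 ∈ TFN.orb (res D P) d := x.2
                have h8 : (x.1.1 : Λ) ∈ St := by
                  refine ⟨x.1.2, ?_⟩
                  change D.π x.1.1 ∈ W
                  refine le_isol _ ?_
                  refine Submodule.span_mono ?_ hx
                  rintro _ ⟨b, rfl⟩
                  exact ⟨b.1, rfl⟩
                exact (QuotientGroup.eq_one_iff _).2 h8
              · intro a b hab
                exact Subtype.ext (Subtype.ext (congrArg (fun t : ↥(P ⊓ f.ker) => (t : Λ)) hab))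
            rw [h6] at h7
            exact le_antisymm h7 zero_le
          rw [h4] at hr
          have hr' : r0 ↥(P ⊓ f.ker) + r0 ↥(P.map f) < ℵ₀ :=
            lt_of_lt_of_le hr (Cardinal.natCast_lt_aleph0).le
          obtain ⟨a, ha⟩ := Cardinal.lt_aleph0.1 (lt_of_le_of_lt (self_le_add_right _ _) hr')
          obtain ⟨b, hb⟩ := Cardinal.lt_aleph0.1 (lt_of_le_of_lt (self_le_add_left _ _) hr')
          rw [ha, hb] at hr
          rw [ha] at h5
          rw [hb]
          have h6 : a + b < n + 1 := by exact_mod_cast hr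
          have h7 : a ≠ 0 := by exact_mod_cast h5
          have h8 : b < n := by omega
          exact_mod_cast h8
      have h4 := rank_quotient_add_rank_of_isDomain W
      rw [← h4]
      refine Cardinal.add_lt_aleph0 h3 ?_
      change Module.rank ℤ ↥(isol (orbG D d)) < ℵ₀
      rw [rank_isol]
      exact o1'
    · push Not at hS
      have hsub : Subsingleton E := ⟨fun a b => by
        have h1 : ∀ x : E, x = 0 := fun x => by
          obtain ⟨d, hd, d', hd', rfl⟩ := h0.gen x
          rw [hS d hd, hS d' hd', sub_zero]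
        rw [h1 a, h1 b]⟩
      rw [rank_subsingleton']
      exact Cardinal.aleph0_pos

end Pool.TFL
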