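import Mathlib
import Pool.Agent.TFN.LocT
import Pool.Agent.TFL.RankY2

/-!
# Transitive actions with an abelian normal subgroup acting by scalars
-/

set_option autoImplicit false

namespace Pool.TFL

open Cardinal Pool.TFR Pool.TFN
open scoped commutatorElement

/-- A group acting semilinearly and transitively on the elements of augmentation one. -/
structure TrG (p : ℕ) (Q R V : Type) [Group Q] [CommRing R] [AddCommGroup V]
    [Module R V] where
  act : Q →* Module.End ℤ V
  N : Subgroup Q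
  hN : N.Normal
  eps : V →+ ZMod p
  aug : R →+* ZMod p
  eps_smul : ∀ (r : R) (v : V), eps (r • v) = aug r * eps v
  eps_act : ∀ (h : Q) (v : V), eps (act h v) = eps v
  conj : ∀ (h : Q) (r : R), ∃ r' : R, ∀ v : V, act h (r • v) = r' • act h v
  c : V
  eps_c : eps c = 1
  trans : ∀ x : V, eps x = 1 → ∃ h, act h c = x
  K_act : ∀ k ∈ N, ∃ u : R, ∀ v : V, act k v = u • v
  faith : ∀ r : R, (∀ v : V, r • v = 0) → r = 0
  charp : (p : R) = 0

namespace TrG

variable {p : ℕ} {Q R V : Type} [Group Q] [CommRing R] [AddCommGroup V]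
  [Module R V] (T : TrG p Q R V)

theorem act_inv_act (h : Q) (v : V) : T.act h⁻¹ (T.act h v) = v := by
  rw [← Module.End.mul_apply, ← map_mul, inv_mul_cancel, map_one]
  rfl

theorem act_act_inv (h : Q) (v : V) : T.act h (T.act h⁻¹ v) = v := by
  rw [← Module.End.mul_apply, ← map_mul, mul_inv_cancel, map_one]
  rfl

theorem act_mul (h h' : Q) (v : V) : T.act (h * h') v = T.act h (T.act h' v) := by
  rw [map_mul, Module.End.mul_apply]

theorem act_one (v : V) : T.act 1 v = v := by
  rw [map_one]; rfl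

include T in
theorem eq_of_smul {a b : R} (h : ∀ v : V, a • v = b • v) : a = b := by
  rw [← sub_eq_zero]
  exact T.faith _ (fun v => by rw [sub_smul, h v, sub_self])

include T in
theorem eq_of_smul_act {a b : R} (g : Q) (h : ∀ v : V, a • T.act g v = b • T.act g v) :
    a = b := by
  refine T.eq_of_smul (fun v => ?_)
  have := h (T.act g⁻¹ v)
  rwa [T.act_act_inv] at this

/-- conjugation -/
noncomputable def cj (h : Q) (r : R) : R := (T.conj h r).choose

theorem cj_spec (h : Q) (r : R) (v : V) : T.act h (r • v) = T.cj h r • T.act h v :=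
  (T.conj h r).choose_spec v

theorem aug_cj (h : Q) (r : R) : T.aug (T.cj h r) = T.aug r := by
  have h1 := congrArg T.eps (T.cj_spec h r T.c)
  rw [T.eps_act, T.eps_smul, T.eps_smul, T.eps_act, T.eps_c, mul_one, mul_one] at h1
  exact h1.symm

theorem cj_one_right (h : Q) : T.cj h 1 = 1 :=
  T.eq_of_smul_act h (fun v => by rw [← T.cj_spec, one_smul, one_smul])

theorem cj_mul_right (h : Q) (a b : R) : T.cj h (a * b) = T.cj h a * T.cj h b :=
  T.eq_of_smul_act h (fun v => by
    rw [← T.cj_spec, mul_smul, mul_smul, T.cj_spec, T.cj_spec])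

theorem cj_zero_right (h : Q) : T.cj h 0 = 0 :=
  T.eq_of_smul_act h (fun v => by rw [← T.cj_spec, zero_smul, zero_smul, map_zero])

theorem cj_add_right (h : Q) (a b : R) : T.cj h (a + b) = T.cj h a + T.cj h b :=
  T.eq_of_smul_act h (fun v => by
    rw [← T.cj_spec, add_smul, add_smul, map_add, T.cj_spec, T.cj_spec])

theorem cj_mul (h h' : Q) (r : R) : T.cj (h * h') r = T.cj h (T.cj h' r) :=
  T.eq_of_smul_act (h * h') (fun v => by
    rw [← T.cj_spec, T.act_mul, T.act_mul, T.cj_spec, T.cj_spec])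

theorem cj_of_K {k : Q} (hk : k ∈ T.N) (r : R) : T.cj k r = r := by
  obtain ⟨u, hu⟩ := T.K_act k hk
  refine T.eq_of_smul_act k (fun v => ?_)
  rw [← T.cj_spec, hu, hu, smul_comm]

theorem cj_one (r : R) : T.cj 1 r = r := T.cj_of_K T.N.one_mem r

theorem exists_move {x y : V} (hx : T.eps x = 1) (hy : T.eps y = 1) : ∃ h, T.act h x = y := by
  obtain ⟨g1, rfl⟩ := T.trans x hx
  obtain ⟨g2, rfl⟩ := T.trans y hy
  exact ⟨g2 * g1⁻¹, by rw [T.act_mul, T.act_inv_act]⟩

theorem exists_shift [Fact p.Prime] (x : V) : ∃ n : ℕ, T.eps (x + n • T.c) = 1 := by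
  obtain ⟨n, hn⟩ := ZMod.natCast_zmod_surjective (1 - T.eps x)
  refine ⟨n, ?_⟩
  rw [map_add, map_nsmul, T.eps_c, nsmul_eq_mul, mul_one, hn]
  abel

end TrG

end Pool.TFL
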