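import Mathlib
import Pool.Agent.TFR.Main3
import Pool.Agent.TFN.DerX

/-!
# Groups with finitely generated subgroups; subgroups of full rank
-/

set_option autoImplicit false

namespace Pool.TFL

open Cardinal Pool.TFR

/-- all subgroups of finitely generated subgroups are finitely generated -/
def LM (Q : Type) [Group Q] : Prop := ∀ X K : Subgroup Q, X.FG → K ≤ X → K.FG

theorem fg_map {G H : Type} [Group G] [Group H] (f : G →* H) {S : Subgroup G} (h : S.FG) :
    (S.map f).FG := by
  classical
  obtain ⟨F, rfl⟩ := h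
  refine ⟨F.image f, ?_⟩
  rw [MonoidHom.map_closure, Finset.coe_image]

theorem exists_fg_lift {G H : Type} [Group G] [Group H] (f : G →* H)
    (hf : Function.Surjective f) {X : Subgroup H} (hX : X.FG) :
    ∃ X' : Subgroup G, X'.FG ∧ X'.map f = X := by
  classical
  obtain ⟨F, rfl⟩ := hX
  choose g hg using hf
  refine ⟨Subgroup.closure ((F.image g : Finset G) : Set G), ⟨_, rfl⟩, ?_⟩
  rw [MonoidHom.map_closure, Finset.coe_image, ← Set.image_comp]
  have : f ∘ g = id := funext hg
  rw [this, Set.image_id]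

theorem LM.of_surjective {G H : Type} [Group G] [Group H] (h : LM G) (f : G →* H)
    (hf : Function.Surjective f) : LM H := by
  intro X K hX hK
  obtain ⟨X', hX', rfl⟩ := exists_fg_lift f hf hX
  have h1 : (X' ⊓ K.comap f).FG := h X' _ hX' inf_le_left
  have h2 : (X' ⊓ K.comap f).map f = K := by
    ext y
    constructor
    · rintro ⟨x, ⟨-, hx⟩, rfl⟩
      exact hx
    · intro hy
      obtain ⟨x, hx, rfl⟩ := hK hy
      exact ⟨x, ⟨hx, hy⟩, rfl⟩
  rw [← h2]
  exact fg_map f h1

theorem fg_of_map_subtype {G : Type} [Group G] {X : Subgroup G} {K : Subgroup ↥X}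
    (h : (K.map X.subtype).FG) : K.FG := by
  rw [← Group.fg_iff_subgroup_fg] at h ⊢
  have e := K.equivMapOfInjective X.subtype X.subtype_injective
  exact Group.fg_of_surjective (f := (e.symm : ↥(K.map X.subtype) →* ↥K)) e.symm.surjective

theorem LM.all {G : Type} [Group G] (h : LM G) {X : Subgroup G} (hX : X.FG) (K : Subgroup ↥X) :
    K.FG := by
  refine fg_of_map_subtype (h X _ hX ?_)
  rintro _ ⟨x, -, rfl⟩
  exact x.2

theorem finiteIndex_sup {G : Type} [Group G] (D N : Subgroup G) [hN : N.Normal]
    [h1 : (D ⊔ N).FiniteIndex] [h2 : (D.subgroupOf N).FiniteIndex] : D.FiniteIndex := by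
  have f1 : Finite (G ⧸ (D ⊔ N)) := Subgroup.finite_quotient_of_finiteIndex
  have f2 : Finite (↥N ⧸ D.subgroupOf N) := Subgroup.finite_quotient_of_finiteIndex
  let F : (G ⧸ (D ⊔ N)) × (↥N ⧸ D.subgroupOf N) → G ⧸ D := fun x =>
    ((x.1.out * (x.2.out : ↥N).1 : G) : G ⧸ D)
  have hF : Function.Surjective F := by
    intro y
    obtain ⟨g, rfl⟩ := QuotientGroup.mk_surjective y
    set a : G ⧸ (D ⊔ N) := (g : G ⧸ (D ⊔ N)) with ha
    have hga : a.out⁻¹ * g ∈ D ⊔ N := by
      rw [← QuotientGroup.eq]
      exact QuotientGroup.out_eq' _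
    have hga' : a.out⁻¹ * g ∈ N ⊔ D := (sup_comm D N).le hga
    obtain ⟨x, hx, d, hd, hxd⟩ := Subgroup.mem_sup_of_normal_left.1 hga'
    set b : ↥N ⧸ D.subgroupOf N := ((⟨x, hx⟩ : ↥N) : ↥N ⧸ D.subgroupOf N) with hb
    have hxb : (b.out)⁻¹ * ⟨x, hx⟩ ∈ D.subgroupOf N := by
      rw [← QuotientGroup.eq]
      exact QuotientGroup.out_eq' _
    rw [Subgroup.mem_subgroupOf] at hxb
    refine ⟨(a, b), ?_⟩
    change ((a.out * (b.out : ↥N).1 : G) : G ⧸ D) = (g : G ⧸ D)
    rw [QuotientGroup.eq]
    have e : (a.out * (b.out : ↥N).1)⁻¹ * g = ((b.out)⁻¹ * (⟨x, hx⟩ : ↥N) : ↥N).1 * d := by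
      have : g = a.out * (x * d) := by rw [hxd]; group
      rw [this, Subgroup.coe_mul, Subgroup.coe_inv]
      group
    rw [e]
    exact D.mul_mem hxb hd
  have f3 : Finite (G ⧸ D) := Finite.of_surjective F hF
  exact Subgroup.finiteIndex_of_finite_quotient

/-- Subgroups of full rank have finite index. -/
theorem finiteIndex_of_r0 (n : ℕ) : ∀ (X : Type) [Group X], derivedSeries X n = ⊥ →
    (∀ K : Subgroup X, K.FG) → r0 X < ℵ₀ → ∀ D : Subgroup X, r0 ↥D = r0 X → D.FiniteIndex := by
  induction n with
  | zero =>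
    intro X _ h _ _ D _
    have := subsingleton_of_derivedSeries_zero h
    infer_instance
  | succ n ih =>
    intro X _ h hfg hr D hD
    have hsol : Group.IsSolvable X := (Group.isSolvable_def X).2 ⟨_, h⟩
    have hG' : derivedSeries ↥(commutator X) n = ⊥ := derivedSeries_commutator_eq_bot h
    let φ : D →* Abelianization X := Abelianization.of.comp D.subtype
    have e1 : r0 D = r0 φ.ker + r0 φ.range := r0_add_range φ
    have e2 : r0 φ.ker = r0 ↥(D.subgroupOf (commutator X)) := by
      refine r0_congr ?_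
      refine
        { toFun := fun x => ⟨⟨x.1.1, (QuotientGroup.eq_one_iff _).1 x.2⟩, x.1.2⟩
          invFun := fun x => ⟨⟨x.1.1, x.2⟩, (QuotientGroup.eq_one_iff _).2 x.1.2⟩
          left_inv := fun x => rfl
          right_inv := fun x => rfl
          map_mul' := fun x y => rfl }
    have e3 : r0 X = rab X + r0 ↥(commutator X) := r0_eq_rab_add X
    have e4 : r0 φ.range = ra φ.range := r0_comm _
    have i1 : r0 ↥(D.subgroupOf (commutator X)) ≤ r0 ↥(commutator X) := r0_subgroup_le _
    have i2 : ra φ.range ≤ rab X :=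
      ra_le_of_injective φ.range.subtype Subtype.val_injective
    rw [e1, e2, e4, e3] at hD
    rw [e3] at hr
    obtain ⟨a, ha⟩ := Cardinal.lt_aleph0.1 (lt_of_le_of_lt (self_le_add_right _ _) hr)
    obtain ⟨b, hb⟩ := Cardinal.lt_aleph0.1 (lt_of_le_of_lt (self_le_add_left _ _) hr)
    rw [ha] at i2 hD
    rw [hb] at i1 hD
    obtain ⟨a', ha'⟩ := Cardinal.lt_aleph0.1 (lt_of_le_of_lt i2 (Cardinal.natCast_lt_aleph0))
    obtain ⟨b', hb'⟩ := Cardinal.lt_aleph0.1 (lt_of_le_of_lt i1 (Cardinal.natCast_lt_aleph0))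
    rw [ha'] at i2 hD
    rw [hb'] at i1 hD
    have j1 : b' + a' = a + b := by exact_mod_cast hD
    have j2 : a' ≤ a := by exact_mod_cast i2
    have j3 : b' ≤ b := by exact_mod_cast i1
    have k1 : a' = a := by omega
    have k2 : b' = b := by omega
    -- the subgroup of the derived subgroup
    have hfg' : ∀ K : Subgroup ↥(commutator X), K.FG := fun K => fg_of_map_subtype (hfg _)
    have l1 : (D.subgroupOf (commutator X)).FiniteIndex :=
      ih ↥(commutator X) hG' hfg' (hb ▸ Cardinal.natCast_lt_aleph0) _ (by rw [hb', hb, k2])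
    -- the image in the abelianization
    have hX : Group.FG X := Group.fg_def.2 (hfg ⊤)
    have l2 : Finite (Abelianization X ⧸ φ.range) := by
      have hfa : Group.FG (Abelianization X) := QuotientGroup.fg (commutator X)
      have hfq : Group.FG (Abelianization X ⧸ φ.range) := QuotientGroup.fg φ.range
      refine CommGroup.finite_of_fg_isMulTorsion (G := Abelianization X ⧸ φ.range) ?_
      have h1 := ra_add (QuotientGroup.mk' φ.range) (QuotientGroup.mk'_surjective _)
      rw [QuotientGroup.ker_mk'] at h1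
      have h2 : ra (Abelianization X) = a := ha
      have h3 : ra (Abelianization X ⧸ φ.range) = 0 := by
        rw [h2, ha', k1] at h1
        have h4 : (a : Cardinal) + ra (Abelianization X ⧸ φ.range) = a + 0 := by
          rw [add_zero]; exact h1.symm
        exact Cardinal.eq_of_add_eq_add_left h4 Cardinal.natCast_lt_aleph0
      intro x
      rw [isOfFinOrder_iff_pow_eq_one]
      unfold ra at h3
      rw [rank_eq_zero_iff] at h3
      obtain ⟨c, hc, hcx⟩ := h3 (Additive.ofMul x)
      have h6 : x ^ c = 1 := hcx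
      refine ⟨c.natAbs, Int.natAbs_pos.2 hc, ?_⟩
      rcases Int.natAbs_eq c with h7 | h7
      · rw [h7, zpow_natCast] at h6
        exact h6
      · rw [h7, zpow_neg, zpow_natCast, inv_eq_one] at h6
        exact h6
    have l3 : φ.range.FiniteIndex := Subgroup.finiteIndex_of_finite_quotient
    have l4 : D ⊔ commutator X = φ.range.comap Abelianization.of := by
      ext x
      constructor
      · intro hx
        rw [sup_comm] at hx
        obtain ⟨c, hc, d, hd, rfl⟩ := Subgroup.mem_sup_of_normal_left.1 hx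
        refine ⟨⟨d, hd⟩, ?_⟩
        rw [map_mul]
        have : Abelianization.of c = 1 := (QuotientGroup.eq_one_iff _).2 hc
        rw [this, one_mul]
        rfl
      · rintro ⟨d, hd⟩
        have h1 : (Abelianization.of d.1 : Abelianization X) = Abelianization.of x := hd
        have h2 : d.1⁻¹ * x ∈ commutator X := by
          rw [← QuotientGroup.eq]; exact h1
        have h3 : x = d.1 * (d.1⁻¹ * x) := by group
        rw [h3]
        exact (D ⊔ commutator X).mul_mem (Subgroup.mem_sup_left d.2) (Subgroup.mem_sup_right h2)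
    have l5 : (D ⊔ commutator X).FiniteIndex := by
      rw [l4]
      refine ⟨?_⟩
      rw [Subgroup.index_comap_of_surjective _ (QuotientGroup.mk_surjective (s := commutator X))]
      exact l3.index_ne_zero
    exact finiteIndex_sup D (commutator X)

end Pool.TFL
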