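import Mathlib
import Pool.Agent.TFL.Max

/-!
# Powers fixing the base point
-/

set_option autoImplicit false

namespace Pool.TFL

open Cardinal Pool.TFR Polynomial

theorem sub_one_pow {p : ℕ} [Fact p.Prime] {V : Type} [AddCommGroup V]
    (hpV : ∀ v : V, p • v = 0) (T : Module.End ℤ V) (a : ℕ) :
    (T - 1) ^ p ^ a = T ^ p ^ a - 1 := by
  have hz : ((X - 1 : ℤ[X]) ^ p ^ a - (X ^ p ^ a - 1)).map (Int.castRingHom (ZMod p)) = 0 := by
    rw [Polynomial.map_sub, Polynomial.map_pow, Polynomial.map_sub, Polynomial.map_sub,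
      Polynomial.map_pow, Polynomial.map_X, Polynomial.map_one, sub_pow_char_pow, one_pow, sub_self]
  have hpd : (C (p : ℤ)) ∣ ((X - 1 : ℤ[X]) ^ p ^ a - (X ^ p ^ a - 1)) := by
    rw [Polynomial.C_dvd_iff_dvd_coeff]
    intro i
    have := congrArg (fun P => Polynomial.coeff P i) hz
    simp only [Polynomial.coeff_map, Polynomial.coeff_zero] at this
    exact (ZMod.intCast_zmod_eq_zero_iff_dvd _ p).1 this
  obtain ⟨G, hG⟩ := hpd
  have h1 := congrArg (aeval T) hG
  rw [map_sub, map_pow, map_sub, map_sub, map_pow, aeval_X, map_one, map_mul, aeval_C,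
    sub_eq_iff_eq_add] at h1
  rw [h1]
  have h2 : (algebraMap ℤ (Module.End ℤ V)) (p : ℤ) * aeval T G = 0 := by
    refine LinearMap.ext (fun v => ?_)
    rw [Module.End.mul_apply, Module.algebraMap_end_apply, natCast_zsmul, hpV]
    rfl
  rw [h2, zero_add]

/-- finitely many operators -/
theorem finite_range {X V : Type} [Group X] [AddCommGroup V] (act : X →* Module.End ℤ V)
    (N : Subgroup X) (hfg : N.FG) (hcomm : ∀ a ∈ N, ∀ b ∈ N, a * b = b * a)
    (hp : ∀ n ∈ N, ∃ m : ℕ, 0 < m ∧ act (n ^ m) = 1) :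
    (Set.range (fun n : ↥N => act n.1)).Finite := by
  let _ : CommGroup ↥N := cg ↥N (fun a b => Subtype.ext (hcomm a.1 a.2 b.1 b.2))
  let ψ : ↥N →* (Module.End ℤ V)ˣ := (act.comp N.subtype).toHomUnits
  have hg : Group.FG ↥N := (Group.fg_iff_subgroup_fg N).2 hfg
  have hgq : Group.FG (↥N ⧸ ψ.ker) := QuotientGroup.fg ψ.ker
  have hfin : Finite (↥N ⧸ ψ.ker) := by
    refine CommGroup.finite_of_fg_isMulTorsion (G := ↥N ⧸ ψ.ker) ?_
    intro x
    obtain ⟨n, rfl⟩ := QuotientGroup.mk_surjective x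
    obtain ⟨m, hm, hmn⟩ := hp n.1 n.2
    rw [isOfFinOrder_iff_pow_eq_one]
    refine ⟨m, hm, ?_⟩
    rw [← QuotientGroup.mk_pow]
    refine (QuotientGroup.eq_one_iff _).2 ?_
    rw [MonoidHom.mem_ker]
    exact Units.ext hmn
  refine (Set.finite_range (fun q : ↥N ⧸ ψ.ker =>
    ((QuotientGroup.kerLift ψ q : (Module.End ℤ V)ˣ) : Module.End ℤ V))).subset ?_
  rintro _ ⟨n, rfl⟩
  exact ⟨(n : ↥N ⧸ ψ.ker), rfl⟩

theorem exists_pow_comm {X V : Type} [Group X] [AddCommGroup V] (act : X →* Module.End ℤ V)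
    (N : Subgroup X) (hN : N.Normal) (hfin : (Set.range (fun n : ↥N => act n.1)).Finite) (x : X) :
    ∃ j : ℕ, 0 < j ∧ ∀ n ∈ N, act (x ^ j) * act n = act n * act (x ^ j) := by
  have hf : Finite ↥(Set.range (fun n : ↥N => act n.1)) := hfin
  let F : ℕ → (↥(Set.range (fun n : ↥N => act n.1)) → ↥(Set.range (fun n : ↥N => act n.1))) :=
    fun j T => ⟨act (x ^ j) * T.1 * act (x ^ j)⁻¹, by
      obtain ⟨_, n, rfl⟩ := T
      refine ⟨⟨x ^ j * n.1 * (x ^ j)⁻¹, hN.conj_mem n.1 n.2 _⟩, ?_⟩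
      change act (x ^ j * n.1 * (x ^ j)⁻¹) = act (x ^ j) * act n.1 * act (x ^ j)⁻¹
      rw [map_mul, map_mul]⟩
  obtain ⟨i, j, hij, h⟩ := Finite.exists_ne_map_eq_of_infinite F
  wlog hlt : i < j generalizing i j
  · exact this j i hij.symm h.symm (lt_of_le_of_ne (not_lt.1 hlt) hij.symm)
  refine ⟨j - i, by omega, fun n hn => ?_⟩
  have h1 : act (x ^ i) * act n * act (x ^ i)⁻¹ = act (x ^ j) * act n * act (x ^ j)⁻¹ :=
    congrArg Subtype.val (congrFun h ⟨act n, ⟨n, hn⟩, rfl⟩)
  have h2 := congrArg (fun T => act (x ^ i)⁻¹ * T * act (x ^ j)) h1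
  simp only [← map_mul] at h2 ⊢
  have e1 : (x ^ i)⁻¹ * (x ^ i * n * (x ^ i)⁻¹) * x ^ j = n * x ^ (j - i) := by
    have : x ^ j = x ^ i * x ^ (j - i) := by rw [← pow_add]; congr 1; omega
    rw [this]; group
  have e2 : (x ^ i)⁻¹ * (x ^ j * n * (x ^ j)⁻¹) * x ^ j = x ^ (j - i) * n := by
    have : x ^ j = x ^ i * x ^ (j - i) := by rw [← pow_add]; congr 1; omega
    rw [this]; group
  rw [e1, e2] at h2
  exact h2.symm

/-- Every element has a power fixing the base point. -/
theorem fix_of {p : ℕ} [Fact p.Prime] {X V : Type} [Group X] [AddCommGroup V]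
    (hpV : ∀ v : V, p • v = 0) (act : X →* Module.End ℤ V) (c : V)
    (hgen : ∀ v : V, v ∈ Submodule.span ℤ (Set.range (fun x => act x c)))
    (N : Subgroup X) (hN : N.Normal) (hfg : N.FG) (hcomm : ∀ a ∈ N, ∀ b ∈ N, a * b = b * a)
    (hp : ∀ n ∈ N, ∃ a : ℕ, act (n ^ p ^ a) = 1)
    (X2 : Subgroup X) [X2.FiniteIndex]
    (hX2 : ∀ x ∈ X2, act x c - c ∈
      Submodule.span ℤ {w | ∃ n ∈ N, ∃ v, w = act n v - v}) (x : X) :
    ∃ k : ℕ, 0 < k ∧ act (x ^ k) c = c := by
  classical
  have hpp : p.Prime := Fact.out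
  -- the commutative ring
  let S0 : Subring (Module.End ℤ V) := Subring.closure {T | ∃ n ∈ N, act n = T}
  have hS0c : ∀ a b : ↥S0, a * b = b * a := by
    have h : IsMulCommutative ↥S0 := by
      refine Subring.isMulCommutative_closure ?_
      rintro _ ⟨a, ha, rfl⟩ _ ⟨b, hb, rfl⟩
      rw [← map_mul, ← map_mul, hcomm a ha b hb]
    exact fun a b => h.is_comm.comm a b
  let _ : CommRing ↥S0 := { (inferInstance : Ring ↥S0) with mul_comm := hS0c }
  have hmem : ∀ n ∈ N, act n ∈ S0 := fun n hn => Subring.subset_closure ⟨n, hn, rfl⟩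
  let δ : X → ↥S0 := fun n => if h : n ∈ N then ⟨act n - 1, S0.sub_mem (hmem n h) S0.one_mem⟩
    else 0
  have hδ : ∀ n ∈ N, (δ n).1 = act n - 1 := by
    intro n hn
    simp only [δ, dif_pos hn]
  obtain ⟨F, hF⟩ := hfg
  let I : Ideal ↥S0 := Ideal.span ((F.image δ : Finset ↥S0) : Set ↥S0)
  have hIfg : I.FG := ⟨F.image δ, rfl⟩
  have hδI : ∀ n ∈ N, δ n ∈ I := by
    intro n hn
    have hn' : n ∈ Subgroup.closure (F : Set X) := hF ▸ hn
    have key : n ∈ N ∧ δ n ∈ I := by
      refine Subgroup.closure_induction (p := fun n _ => n ∈ N ∧ δ n ∈ I) ?_ ?_ ?_ ?_ hn'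
      · intro n hn
        refine ⟨hF ▸ Subgroup.subset_closure hn, Ideal.subset_span ?_⟩
        rw [Finset.coe_image]
        exact ⟨n, hn, rfl⟩
      · refine ⟨N.one_mem, ?_⟩
        have : δ 1 = 0 := Subtype.ext (by
          rw [hδ 1 N.one_mem, map_one, sub_self]; rfl)
        rw [this]
        exact I.zero_mem
      · rintro a b _ _ ⟨ha, ha'⟩ ⟨hb, hb'⟩
        refine ⟨N.mul_mem ha hb, ?_⟩
        have : δ (a * b) = (δ a + 1) * δ b + δ a := Subtype.ext (by
          change (δ (a * b)).1 = ((δ a).1 + 1) * (δ b).1 + (δ a).1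
          rw [hδ _ (N.mul_mem ha hb), hδ a ha, hδ b hb, map_mul]
          noncomm_ring)
        rw [this]
        exact I.add_mem (I.mul_mem_left _ hb') ha'
      · rintro a _ ⟨ha, ha'⟩
        refine ⟨N.inv_mem ha, ?_⟩
        have : δ a⁻¹ = (-(δ a⁻¹ + 1)) * δ a := Subtype.ext (by
          change (δ a⁻¹).1 = (-((δ a⁻¹).1 + 1)) * (δ a).1
          rw [hδ _ (N.inv_mem ha), hδ a ha]
          have h1 : act a⁻¹ * act a = 1 := by rw [← map_mul, inv_mul_cancel, map_one]
          have h2 : -(act a⁻¹ - 1 + 1) * (act a - 1) = -(act a⁻¹ * act a) + act a⁻¹ := by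
            noncomm_ring
          rw [h2, h1]
          abel)
        rw [this]
        exact I.mul_mem_left _ ha'
    exact key.2
  have hIn : IsNilpotent I := by
    refine hIfg.isNilpotent_iff_le_nilradical.2 (Ideal.span_le.2 ?_)
    intro r hr
    rw [Finset.coe_image] at hr
    obtain ⟨n, hn, rfl⟩ := hr
    have hnN : n ∈ N := hF ▸ Subgroup.subset_closure hn
    obtain ⟨a, ha⟩ := hp n hnN
    refine (mem_nilradical).2 ⟨p ^ a, Subtype.ext ?_⟩
    change (δ n).1 ^ p ^ a = 0
    rw [hδ n hnN, sub_one_pow hpV, ← map_pow, ha, sub_self]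
  obtain ⟨K, hK⟩ := hIn
  -- the filtration
  let U : ℕ → Submodule ℤ V := fun j => Submodule.span ℤ {w | ∃ r ∈ I ^ j, ∃ v : V, w = r.1 v}
  let W0 : Submodule ℤ V := Submodule.span ℤ {w | ∃ n ∈ N, ∃ v, w = act n v - v}
  have hW0U : W0 ≤ U 1 := by
    refine Submodule.span_le.2 ?_
    rintro _ ⟨n, hn, v, rfl⟩
    refine Submodule.subset_span ⟨δ n, by rw [pow_one]; exact hδI n hn, v, ?_⟩
    rw [hδ n hn]
    rfl
  have hW0 : ∀ g, ∀ w ∈ W0, act g w ∈ W0 := by
    intro g w hw
    refine Submodule.span_induction (p := fun w _ => act g w ∈ W0) ?_ ?_ ?_ ?_ hw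
    · rintro _ ⟨n, hn, v, rfl⟩
      refine Submodule.subset_span ⟨g * n * g⁻¹, hN.conj_mem n hn g, act g v, ?_⟩
      rw [map_sub, ← Module.End.mul_apply, ← Module.End.mul_apply, ← map_mul, ← map_mul,
        inv_mul_cancel_right]
    · rw [map_zero]; exact Submodule.zero_mem _
    · intro a b _ _ ha hb
      rw [map_add]; exact Submodule.add_mem _ ha hb
    · intro k a _ ha
      rw [map_smul]; exact Submodule.smul_mem _ _ ha
  have hcore : ∀ z ∈ X2.normalCore, ∀ v, act z v - v ∈ W0 := by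
    intro z hz v
    refine Submodule.span_induction (p := fun v _ => act z v - v ∈ W0) ?_ ?_ ?_ ?_ (hgen v)
    · rintro _ ⟨y, rfl⟩
      have h1 : y⁻¹ * z * y ∈ X2.normalCore := by
        have := (Subgroup.normalCore_normal X2).conj_mem z hz y⁻¹
        simpa using this
      have h2 := hW0 y _ (hX2 _ (Subgroup.normalCore_le X2 h1))
      rw [map_sub, ← Module.End.mul_apply, ← map_mul] at h2
      have h3 : y * (y⁻¹ * z * y) = z * y := by group
      rw [h3, map_mul, Module.End.mul_apply] at h2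
      exact h2
    · rw [map_zero, sub_zero]; exact Submodule.zero_mem _
    · intro a b _ _ ha hb
      have : act z (a + b) - (a + b) = (act z a - a) + (act z b - b) := by
        rw [map_add]; abel
      rw [this]; exact Submodule.add_mem _ ha hb
    · intro k a _ ha
      have : act z (k • a) - k • a = k • (act z a - a) := by rw [map_smul, smul_sub]
      rw [this]; exact Submodule.smul_mem _ _ ha
  -- a power in the core centralising the operators
  obtain ⟨i, hi, -, hxi⟩ := Subgroup.exists_pow_mem_of_index_ne_zero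
    (Subgroup.FiniteIndex.index_ne_zero (H := X2.normalCore)) x
  obtain ⟨j, hj, hxj⟩ := exists_pow_comm act N hN (finite_range act N ⟨F, hF⟩ hcomm
    (fun n hn => by
      obtain ⟨a, ha⟩ := hp n hn
      exact ⟨p ^ a, pow_pos hpp.pos a, ha⟩)) (x ^ i)
  set z : X := (x ^ i) ^ j with hz
  have hzc : z ∈ X2.normalCore := X2.normalCore.pow_mem hxi j
  have hzr : ∀ r ∈ S0, act z * r = r * act z := by
    intro r hr
    refine Subring.closure_induction (p := fun r _ => act z * r = r * act z) ?_ ?_ ?_ ?_ ?_ ?_ hr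
    · rintro _ ⟨n, hn, rfl⟩
      exact hxj n hn
    · rw [mul_zero, zero_mul]
    · rw [mul_one, one_mul]
    · intro a b _ _ ha hb
      rw [mul_add, add_mul, ha, hb]
    · intro a _ ha
      rw [mul_neg, neg_mul, ha]
    · intro a b _ _ ha hb
      rw [← mul_assoc, ha, mul_assoc, hb, mul_assoc]
  have hstep : ∀ j, ∀ w ∈ U j, act z w - w ∈ U (j + 1) := by
    intro j w hw
    refine Submodule.span_induction (p := fun w _ => act z w - w ∈ U (j + 1)) ?_ ?_ ?_ ?_ hw
    · rintro _ ⟨r, hr, v, rfl⟩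
      have h1 : act z (r.1 v) - r.1 v = r.1 (act z v - v) := by
        rw [map_sub, ← Module.End.mul_apply, hzr r.1 r.2, Module.End.mul_apply]
      rw [h1]
      have h2 : act z v - v ∈ U 1 := hW0U (hcore z hzc v)
      refine Submodule.span_induction (p := fun u _ => r.1 u ∈ U (j + 1)) ?_ ?_ ?_ ?_ h2
      · rintro _ ⟨s, hs, v', rfl⟩
        refine Submodule.subset_span ⟨r * s, ?_, v', rfl⟩
        rw [pow_succ]
        rw [pow_one] at hs
        exact Ideal.mul_mem_mul hr hs
      · rw [map_zero]; exact Submodule.zero_mem _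
      · intro a b _ _ ha hb
        rw [map_add]; exact Submodule.add_mem _ ha hb
      · intro k a _ ha
        rw [map_smul]; exact Submodule.smul_mem _ _ ha
    · rw [map_zero, sub_zero]; exact Submodule.zero_mem _
    · intro a b _ _ ha hb
      have : act z (a + b) - (a + b) = (act z a - a) + (act z b - b) := by
        rw [map_add]; abel
      rw [this]; exact Submodule.add_mem _ ha hb
    · intro k a _ ha
      have : act z (k • a) - k • a = k • (act z a - a) := by rw [map_smul, smul_sub]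
      rw [this]; exact Submodule.smul_mem _ _ ha
  have hpow : ∀ j v, ((act z - 1) ^ j) v ∈ U j := by
    intro j v
    induction j with
    | zero =>
      refine Submodule.subset_span ⟨1, ?_, v, rfl⟩
      rw [pow_zero, Ideal.one_eq_top]
      exact Submodule.mem_top
    | succ j ih =>
      rw [pow_succ', Module.End.mul_apply]
      exact hstep j _ ih
  have hUK : ∀ w ∈ U K, w = 0 := by
    intro w hw
    refine Submodule.span_induction (p := fun w _ => w = 0) ?_ ?_ ?_ ?_ hw
    · rintro _ ⟨r, hr, v, rfl⟩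
      rw [hK] at hr
      have : r = 0 := by simpa using hr
      rw [this]
      rfl
    · rfl
    · intro a b _ _ ha hb
      rw [ha, hb, add_zero]
    · intro k a _ ha
      rw [ha, smul_zero]
  have hzK : (act z - 1) ^ K = 0 := LinearMap.ext (fun v => hUK _ (hpow K v))
  have hKp : K ≤ p ^ K := (Nat.lt_pow_self hpp.one_lt).le
  have hzp : act (z ^ p ^ K) = 1 := by
    have h1 : (act z - 1) ^ p ^ K = 0 := by
      obtain ⟨d, hd⟩ := Nat.exists_eq_add_of_le hKp
      rw [hd, pow_add, hzK, zero_mul]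
    rw [sub_one_pow hpV] at h1
    rw [map_pow]
    exact sub_eq_zero.1 h1
  refine ⟨i * j * p ^ K, Nat.mul_pos (Nat.mul_pos hi hj) (pow_pos hpp.pos K), ?_⟩
  rw [pow_mul, pow_mul, ← hz, hzp]
  rfl

end Pool.TFL
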