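import Mathlib
import Pool.Agent.TFL.Fix
import Pool.Agent.TFN.FromDer

/-!
# Elements of order prime to `p` act trivially
-/

set_option autoImplicit false

namespace Pool.TFL

open Cardinal Pool.TFR Pool.TFN

section

variable {p : ℕ} [Fact p.Prime] {Q M : Type} [Group Q] [AddCommGroup M] (D : Der Q M)
  (hpM : ∀ m : M, p • m = 0)

theorem eact_snd (q : Q) (v : Ext p M) : (eact D hpM q v).2 = v.2 := rfl

theorem eact_mul (a b : Q) (v : Ext p M) :
    eact D hpM (a * b) v = eact D hpM a (eact D hpM b v) := by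
  rw [map_mul, Module.End.mul_apply]

theorem eact_one (v : Ext p M) : eact D hpM 1 v = v := by
  rw [map_one]; rfl

theorem eact_inv_self (a : Q) (v : Ext p M) : eact D hpM a⁻¹ (eact D hpM a v) = v := by
  rw [← eact_mul, inv_mul_cancel, eact_one]

theorem exists_base (hs : Function.Surjective D.π) {v : Ext p M} (hv : v.2 = 1) :
    ∃ q, eact D hpM q ((0 : M), (1 : ZMod p)) = v := by
  obtain ⟨q, hq⟩ := hs v.1
  refine ⟨q, ?_⟩
  rw [eact_base, hq]
  exact Prod.ext rfl hv.symm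

theorem exists_move (hs : Function.Surjective D.π) {v w : Ext p M} (hv : v.2 = 1)
    (hw : w.2 = 1) : ∃ q, eact D hpM q v = w := by
  obtain ⟨a, rfl⟩ := exists_base D hpM hs hv
  obtain ⟨b, rfl⟩ := exists_base D hpM hs hw
  refine ⟨b * a⁻¹, ?_⟩
  rw [eact_mul, eact_inv_self]

theorem pprime (hs : Function.Surjective D.π) (hmax : LM Q) (N : Subgroup Q) (hN : N.Normal)
    (hcomm : ∀ a ∈ N, ∀ b ∈ N, a * b = b * a) {y : Q} (hy : y ∈ N) {m : ℕ} (hm : ¬ p ∣ m)
    {v : Ext p M} (hv : v.2 = 1) (hyv : eact D hpM (y ^ m) v = v) : eact D hpM y v = v := by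
  -- the average
  have hm0 : (m : ZMod p) ≠ 0 := fun h => hm ((ZMod.natCast_eq_zero_iff _ _).1 h)
  obtain ⟨u, hu⟩ := ZMod.natCast_zmod_surjective ((m : ZMod p)⁻¹)
  set e : Ext p M := u • ∑ i ∈ Finset.range m, eact D hpM (y ^ i) v with he
  have he2 : e.2 = 1 := by
    have h1 : ∀ n : ℕ, (∑ i ∈ Finset.range n, eact D hpM (y ^ i) v).2 = (n : ZMod p) := by
      intro n
      induction n with
      | zero => simp
      | succ n ih =>
        rw [Finset.sum_range_succ, Prod.snd_add, ih, eact_snd, hv]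
        push_cast
        rfl
    change u • (∑ i ∈ Finset.range m, eact D hpM (y ^ i) v).2 = 1
    rw [h1, nsmul_eq_mul, hu, inv_mul_cancel₀ hm0]
  have hye : eact D hpM y e = e := by
    rw [he, map_nsmul, map_sum]
    congr 1
    have h1 : ∀ i, eact D hpM y (eact D hpM (y ^ i) v) = eact D hpM (y ^ (i + 1)) v := by
      intro i
      rw [← eact_mul, ← pow_succ']
    rw [Finset.sum_congr rfl (fun i _ => h1 i)]
    have h2 := Finset.sum_range_succ (fun i => eact D hpM (y ^ i) v) m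
    have h3 := Finset.sum_range_succ' (fun i => eact D hpM (y ^ i) v) m
    rw [h2, pow_zero, eact_one, hyv] at h3
    exact (add_right_cancel h3).symm
  obtain ⟨q, hq⟩ := exists_move D hpM hs hv he2
  have hbase : eact D hpM (q⁻¹ * y * q) v = v := by
    rw [eact_mul, eact_mul, hq, hye, ← hq, eact_inv_self]
  have hstep : ∀ t ∈ N, eact D hpM t v = v → eact D hpM (q⁻¹ * t * q) v = v := by
    intro t ht htv
    have h1 : eact D hpM t e = e := by
      rw [he, map_nsmul, map_sum]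
      congr 1
      refine Finset.sum_congr rfl (fun i _ => ?_)
      rw [← eact_mul, hcomm t ht _ (N.pow_mem hy i), eact_mul, htv]
    rw [eact_mul, eact_mul, hq, h1, ← hq, eact_inv_self]
  have ht : ∀ i : ℕ, eact D hpM ((q ^ (i + 1))⁻¹ * y * q ^ (i + 1)) v = v := by
    intro i
    induction i with
    | zero => rw [zero_add, pow_one]; exact hbase
    | succ i ih =>
      have h1 := hstep _ (by
        have := hN.conj_mem y hy (q ^ (i + 1))⁻¹
        simpa using this) ih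
      have e1 : q⁻¹ * ((q ^ (i + 1))⁻¹ * y * q ^ (i + 1)) * q =
          (q ^ (i + 1 + 1))⁻¹ * y * q ^ (i + 1 + 1) := by
        rw [pow_succ q (i + 1), mul_inv_rev]; group
      rwa [e1] at h1
  -- the noetherian argument
  let z : ℕ → Q := fun i => q ^ i * y * (q ^ i)⁻¹
  let Zk : ℕ → Subgroup Q := fun k => Subgroup.closure {g | ∃ i, i ≤ k ∧ z i = g}
  have hmono : ∀ k l, k ≤ l → Zk k ≤ Zk l := by
    intro k l hkl
    refine Subgroup.closure_mono ?_
    rintro _ ⟨i, hi, rfl⟩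
    exact ⟨i, hi.trans hkl, rfl⟩
  let Z : Subgroup Q := Subgroup.closure (Set.range z)
  have hZ : ∀ g ∈ Z, ∃ k, g ∈ Zk k := by
    intro g hg
    refine Subgroup.closure_induction (p := fun g _ => ∃ k, g ∈ Zk k) ?_ ?_ ?_ ?_ hg
    · rintro _ ⟨i, rfl⟩
      exact ⟨i, Subgroup.subset_closure ⟨i, le_rfl, rfl⟩⟩
    · exact ⟨0, (Zk 0).one_mem⟩
    · rintro a b _ _ ⟨k, hk⟩ ⟨l, hl⟩
      exact ⟨max k l, (Zk _).mul_mem (hmono _ _ (le_max_left _ _) hk)
        (hmono _ _ (le_max_right _ _) hl)⟩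
    · rintro a _ ⟨k, hk⟩
      exact ⟨k, (Zk k).inv_mem hk⟩
  have hZfg : Z.FG := by
    classical
    refine hmax (Subgroup.closure (({y, q} : Finset Q) : Set Q)) Z ⟨_, rfl⟩ ?_
    refine (Subgroup.closure_le _).2 ?_
    rintro _ ⟨i, rfl⟩
    have h1 : y ∈ Subgroup.closure (({y, q} : Finset Q) : Set Q) :=
      Subgroup.subset_closure (by simp)
    have h2 : q ∈ Subgroup.closure (({y, q} : Finset Q) : Set Q) :=
      Subgroup.subset_closure (by simp)
    exact Subgroup.mul_mem _ (Subgroup.mul_mem _ (Subgroup.pow_mem _ h2 i) h1)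
      (Subgroup.inv_mem _ (Subgroup.pow_mem _ h2 i))
  obtain ⟨F, hF⟩ := hZfg
  have hFk : ∃ k, ∀ f ∈ F, f ∈ Zk k := by
    have hFZ : ∀ f ∈ F, f ∈ Z := fun f hf => hF ▸ Subgroup.subset_closure hf
    clear hF
    classical
    induction F using Finset.induction_on with
    | empty => exact ⟨0, fun f hf => absurd hf (Finset.notMem_empty f)⟩
    | insert a F _ ih =>
      obtain ⟨k, hk⟩ := ih (fun f hf => hFZ f (Finset.mem_insert_of_mem hf))
      obtain ⟨l, hl⟩ := hZ a (hFZ a (Finset.mem_insert_self _ _))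
      refine ⟨max k l, fun f hf => ?_⟩
      rcases Finset.mem_insert.1 hf with rfl | hf
      · exact hmono _ _ (le_max_right _ _) hl
      · exact hmono _ _ (le_max_left _ _) (hk f hf)
  obtain ⟨k, hk⟩ := hFk
  have hzk : z (k + 1) ∈ Zk k := by
    have h1 : z (k + 1) ∈ Z := Subgroup.subset_closure ⟨k + 1, rfl⟩
    rw [← hF] at h1
    exact (Subgroup.closure_le _).2 (fun f hf => hk f hf) h1
  have hfix : ∀ g ∈ Zk k, eact D hpM ((q ^ (k + 1))⁻¹ * g * q ^ (k + 1)) v = v := by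
    intro g hg
    refine Subgroup.closure_induction
      (p := fun g _ => eact D hpM ((q ^ (k + 1))⁻¹ * g * q ^ (k + 1)) v = v) ?_ ?_ ?_ ?_ hg
    · rintro _ ⟨i, hi, rfl⟩
      obtain ⟨d, rfl⟩ := Nat.exists_eq_add_of_le hi
      have e1 : (q ^ (i + d + 1))⁻¹ * (q ^ i * y * (q ^ i)⁻¹) * q ^ (i + d + 1) =
          (q ^ (d + 1))⁻¹ * y * q ^ (d + 1) := by
        have : q ^ (i + d + 1) = q ^ i * q ^ (d + 1) := by rw [← pow_add, add_assoc]
        rw [this, mul_inv_rev]; group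
      change eact D hpM ((q ^ (i + d + 1))⁻¹ * (q ^ i * y * (q ^ i)⁻¹) * q ^ (i + d + 1)) v = v
      rw [e1]
      exact ht d
    · rw [mul_one, inv_mul_cancel, eact_one]
    · intro a b _ _ ha hb
      have e1 : (q ^ (k + 1))⁻¹ * (a * b) * q ^ (k + 1) =
          ((q ^ (k + 1))⁻¹ * a * q ^ (k + 1)) * ((q ^ (k + 1))⁻¹ * b * q ^ (k + 1)) := by group
      rw [e1, eact_mul, hb, ha]
    · intro a _ ha
      have e1 : (q ^ (k + 1))⁻¹ * a⁻¹ * q ^ (k + 1) = ((q ^ (k + 1))⁻¹ * a * q ^ (k + 1))⁻¹ := by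
        group
      rw [e1]
      conv_lhs => rw [← ha]
      rw [eact_inv_self]
  have h1 := hfix _ hzk
  have e1 : (q ^ (k + 1))⁻¹ * (q ^ (k + 1) * y * (q ^ (k + 1))⁻¹) * q ^ (k + 1) = y := by group
  change eact D hpM ((q ^ (k + 1))⁻¹ * (q ^ (k + 1) * y * (q ^ (k + 1))⁻¹) * q ^ (k + 1)) v = v
    at h1
  rwa [e1] at h1

end

end Pool.TFL
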