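import Mathlib
import Pool.Agent.TFL.PPrime

/-!
# The extension step by an abelian normal subgroup with periodic values
-/

set_option autoImplicit false

namespace Pool.TFL

open Cardinal Pool.TFR Pool.TFN

/-- all surjective derivations into elementary abelian `p`-groups have stabilisers of full rank -/
def DP (p : ℕ) (Λ : Type) [Group Λ] : Prop :=
  ∀ (M : Type) [AddCommGroup M] (D : Der Λ M), (∀ m : M, p • m = 0) →
    Function.Surjective D.π → r0 Λ = r0 ↥(D.stab D.inv_bot)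

theorem desc_r0 {Q Λ M : Type} [Group Q] [Group Λ] [AddCommGroup M] [Group.IsSolvable Q]
    (D : Der Q M) (f : Q →* Λ) (hf : Function.Surjective f) (h1 : ∀ g, f g = 1 → D.ρ g = 1)
    (h2 : ∀ g, f g = 1 → D.π g = 0) :
    r0 ↥(D.stab D.inv_bot) = r0 ↥f.ker +
      r0 ↥((desc D f hf h1 h2).stab (desc D f hf h1 h2).inv_bot) := by
  have e1 : D.stab D.inv_bot ⊓ f.ker = f.ker := by
    refine inf_eq_right.2 (fun g hg => ?_)
    rw [D.mem_stab, Submodule.mem_bot]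
    exact h2 g hg
  have e2 : (D.stab D.inv_bot).map f = (desc D f hf h1 h2).stab (desc D f hf h1 h2).inv_bot := by
    ext y
    constructor
    · rintro ⟨g, hg, rfl⟩
      have hg' : D.π g ∈ (⊥ : Submodule ℤ M) := hg
      rw [Der.mem_stab, (desc_key g).2]
      exact hg'
    · intro hy
      obtain ⟨g, rfl⟩ := hf y
      rw [Der.mem_stab, (desc_key g).2] at hy
      exact ⟨g, hy, rfl⟩
  rw [r0_map_add f (D.stab D.inv_bot), e1, e2]

/-- the descent of a formula -/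
theorem descent {p : ℕ} {Q Λ M : Type} [Group Q] [Group Λ] [AddCommGroup M] [Group.IsSolvable Q]
    (D : Der Q M) (hpM : ∀ m : M, p • m = 0) (hs : Function.Surjective D.π)
    (f : Q →* Λ) (hf : Function.Surjective f) (h1 : ∀ g, f g = 1 → D.ρ g = 1)
    (h2 : ∀ g, f g = 1 → D.π g = 0) (hΛ : DP p Λ) : r0 Q = r0 ↥(D.stab D.inv_bot) := by
  rw [desc_r0 D f hf h1 h2, ← hΛ M (desc D f hf h1 h2) hpM (fun m => by
    obtain ⟨q, rfl⟩ := hs m
    exact ⟨f q, (desc_key q).2⟩)]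
  exact r0_add f hf

section

variable {Q M : Type} [Group Q] [AddCommGroup M] (D : Der Q M)

/-- the values on which the subgroup `N ⊓ X` acts nontrivially -/
def WX (N X : Subgroup Q) : Submodule ℤ M :=
  Submodule.span ℤ {w | ∃ a ∈ N ⊓ X, ∃ g ∈ X, w = D.π (a * g) - D.π g}

theorem WX_mono {N X X' : Subgroup Q} (h : X ≤ X') : WX D N X ≤ WX D N X' := by
  refine Submodule.span_mono ?_
  rintro _ ⟨a, ⟨ha, ha'⟩, g, hg, rfl⟩
  exact ⟨a, ⟨ha, h ha'⟩, g, h hg, rfl⟩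

theorem exists_fg {N : Subgroup Q} {w : M} (hw : w ∈ WX D N ⊤) :
    ∃ X : Subgroup Q, X.FG ∧ w ∈ WX D N X := by
  classical
  refine Submodule.span_induction (p := fun w _ => ∃ X : Subgroup Q, X.FG ∧ w ∈ WX D N X)
    ?_ ?_ ?_ ?_ hw
  · rintro _ ⟨a, ⟨ha, -⟩, g, -, rfl⟩
    refine ⟨Subgroup.closure (({a, g} : Finset Q) : Set Q), ⟨_, rfl⟩, Submodule.subset_span
      ⟨a, ⟨ha, Subgroup.subset_closure (by simp)⟩, g, Subgroup.subset_closure (by simp), rfl⟩⟩
  · exact ⟨⊥, Subgroup.FG.bot, Submodule.zero_mem _⟩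
  · rintro a b _ _ ⟨X, hX, ha⟩ ⟨Y, hY, hb⟩
    exact ⟨X ⊔ Y, hX.sup hY, Submodule.add_mem _ (WX_mono D le_sup_left ha)
      (WX_mono D le_sup_right hb)⟩
  · rintro k a _ ⟨X, hX, ha⟩
    exact ⟨X, hX, Submodule.smul_mem _ _ ha⟩

theorem WX_inv {N X : Subgroup Q} (hN : N.Normal) {q : Q} (hq : q ∈ X) {w : M}
    (hw : w ∈ WX D N X) : D.ρ q w ∈ WX D N X := by
  refine Submodule.span_induction (p := fun w _ => D.ρ q w ∈ WX D N X) ?_ ?_ ?_ ?_ hw
  · rintro _ ⟨a, ⟨ha, ha'⟩, g, hg, rfl⟩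
    refine Submodule.subset_span ⟨q * a * q⁻¹, ⟨hN.conj_mem a ha q,
      X.mul_mem (X.mul_mem hq ha') (X.inv_mem hq)⟩, q * g, X.mul_mem hq hg, ?_⟩
    have e : q * a * q⁻¹ * (q * g) = q * (a * g) := by group
    rw [e, D.map_mul q (a * g), D.map_mul q g, map_sub]
    abel
  · rw [map_zero]; exact Submodule.zero_mem _
  · intro a b _ _ ha hb
    rw [map_add]; exact Submodule.add_mem _ ha hb
  · intro k a _ ha
    rw [map_smul]; exact Submodule.smul_mem _ _ ha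

theorem WX_val {N X : Subgroup Q} {a : Q} (ha : a ∈ N) (ha' : a ∈ X) : D.π a ∈ WX D N X := by
  refine Submodule.subset_span ⟨a, ⟨ha, ha'⟩, 1, X.one_mem, ?_⟩
  rw [mul_one, D.map_one, sub_zero]

/-- elements of `X` with value in `WX` -/
def X2 (N X : Subgroup Q) (hN : N.Normal) : Subgroup Q where
  carrier := {x | x ∈ X ∧ D.π x ∈ WX D N X}
  one_mem' := ⟨X.one_mem, by rw [D.map_one]; exact Submodule.zero_mem _⟩
  mul_mem' := by
    rintro a b ⟨ha, ha'⟩ ⟨hb, hb'⟩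
    refine ⟨X.mul_mem ha hb, ?_⟩
    rw [D.map_mul]
    exact Submodule.add_mem _ ha' (WX_inv D hN ha hb')
  inv_mem' := by
    rintro a ⟨ha, ha'⟩
    refine ⟨X.inv_mem ha, ?_⟩
    rw [D.map_inv]
    exact Submodule.neg_mem _ (WX_inv D hN (X.inv_mem ha) ha')

end

/-- uniform exponent -/
theorem exists_exponent {Q M : Type} [Group Q] [AddCommGroup M] (D : Der Q M) (N : Subgroup Q)
    (hcomm : ∀ a ∈ N, ∀ b ∈ N, a * b = b * a) (hfg : N.FG)
    (hper : ∀ a ∈ N, ∃ m : ℕ, 0 < m ∧ D.π (a ^ m) = 0) :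
    ∃ m : ℕ, 0 < m ∧ ∀ a ∈ N, D.π (a ^ m) = 0 := by
  classical
  have hmul : ∀ a : Q, ∀ m k : ℕ, D.π (a ^ m) = 0 → D.π (a ^ (m * k)) = 0 := by
    intro a m k h
    induction k with
    | zero => rw [mul_zero, pow_zero, D.map_one]
    | succ k ih => rw [Nat.mul_succ, pow_add, D.map_mul, ih, h, map_zero, add_zero]
  obtain ⟨F, hF⟩ := hfg
  have h1 : ∃ m : ℕ, 0 < m ∧ ∀ a ∈ F, D.π (a ^ m) = 0 := by
    have hFN : ∀ f ∈ F, f ∈ N := fun f hf => hF ▸ Subgroup.subset_closure hf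
    clear hF
    induction F using Finset.induction_on with
    | empty => exact ⟨1, one_pos, fun f hf => absurd hf (Finset.notMem_empty f)⟩
    | insert a F _ ih =>
      obtain ⟨k, hk, hk'⟩ := ih (fun f hf => hFN f (Finset.mem_insert_of_mem hf))
      obtain ⟨l, hl, hl'⟩ := hper a (hFN a (Finset.mem_insert_self _ _))
      refine ⟨k * l, Nat.mul_pos hk hl, fun f hf => ?_⟩
      rcases Finset.mem_insert.1 hf with rfl | hf
      · rw [mul_comm]; exact hmul _ _ _ hl'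
      · exact hmul _ _ _ (hk' f hf)
  obtain ⟨m, hm, hm'⟩ := h1
  refine ⟨m, hm, fun a ha => ?_⟩
  have ha' : a ∈ Subgroup.closure (F : Set Q) := hF ▸ ha
  have key : a ∈ N ∧ D.π (a ^ m) = 0 := by
    refine Subgroup.closure_induction (p := fun a _ => a ∈ N ∧ D.π (a ^ m) = 0) ?_ ?_ ?_ ?_ ha'
    · intro f hf
      exact ⟨hF ▸ Subgroup.subset_closure hf, hm' f hf⟩
    · exact ⟨N.one_mem, by rw [one_pow, D.map_one]⟩
    · rintro a b _ _ ⟨ha, ha'⟩ ⟨hb, hb'⟩
      refine ⟨N.mul_mem ha hb, ?_⟩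
      have hc : Commute a b := hcomm a ha b hb
      rw [hc.mul_pow, D.map_mul, ha', hb', map_zero, add_zero]
    · rintro a _ ⟨ha, ha'⟩
      refine ⟨N.inv_mem ha, ?_⟩
      rw [inv_pow, D.map_inv, ha', map_zero, neg_zero]
  exact key.2

end Pool.TFL
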