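import Mathlib
import Pool.Agent.TFL.TStep

/-!
# The extension step by an abelian normal subgroup with periodic values: proof
-/

set_option autoImplicit false

namespace Pool.TFL

open Cardinal Pool.TFR Pool.TFN

section

variable {p : ℕ} [Fact p.Prime] {Q M : Type} [Group Q] [AddCommGroup M] (D : Der Q M)
  (hpM : ∀ m : M, p • m = 0)

/-- the span of the orbit of the base point -/
noncomputable def orb (X : Subgroup Q) : Submodule ℤ (Ext p M) :=
  Submodule.span ℤ (Set.range (fun x : ↥X => eact D hpM x.1 ((0 : M), (1 : ZMod p))))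

theorem orb_inv {X : Subgroup Q} (x : ↥X) : ∀ v ∈ orb D hpM X, eact D hpM x.1 v ∈ orb D hpM X := by
  intro v hv
  refine Submodule.span_induction (p := fun v _ => eact D hpM x.1 v ∈ orb D hpM X)
    ?_ ?_ ?_ ?_ hv
  · rintro _ ⟨y, rfl⟩
    refine Submodule.subset_span ⟨x * y, ?_⟩
    change eact D hpM (x.1 * y.1) _ = _
    rw [eact_mul]
  · rw [map_zero]; exact Submodule.zero_mem _
  · intro a b _ _ ha hb
    rw [map_add]; exact Submodule.add_mem _ ha hb
  · intro k a _ ha
    rw [map_smul]; exact Submodule.smul_mem _ _ ha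

/-- the restricted action -/
noncomputable def ract (X : Subgroup Q) : ↥X →* Module.End ℤ ↥(orb D hpM X) where
  toFun x := (eact D hpM x.1).restrict (orb_inv D hpM x)
  map_one' := by
    refine LinearMap.ext (fun v => Subtype.ext ?_)
    change eact D hpM 1 v.1 = v.1
    rw [eact_one]
  map_mul' a b := by
    refine LinearMap.ext (fun v => Subtype.ext ?_)
    change eact D hpM (a.1 * b.1) v.1 = eact D hpM a.1 (eact D hpM b.1 v.1)
    rw [eact_mul]

theorem coe_ract {X : Subgroup Q} (x : ↥X) (v : ↥(orb D hpM X)) :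
    ((ract D hpM X x v : ↥(orb D hpM X)) : Ext p M) = eact D hpM x.1 v.1 := rfl

theorem base_mem (X : Subgroup Q) : ((0 : M), (1 : ZMod p)) ∈ orb D hpM X := by
  refine Submodule.subset_span ⟨1, ?_⟩
  exact eact_one D hpM _

include hpM in
theorem ext_smul (v : Ext p M) : p • v = 0 := by
  refine Prod.ext (hpM v.1) ?_
  change p • v.2 = 0
  rw [nsmul_eq_mul, CharP.cast_eq_zero, zero_mul]

include hpM in
/-- every element of a finitely generated subgroup `X` has a power with value zero, provided a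
finite index subgroup has values in `WX` -/
theorem powers_of (hs : Function.Surjective D.π) (hmax : LM Q) (N : Subgroup Q) (hN : N.Normal)
    (hcomm : ∀ a ∈ N, ∀ b ∈ N, a * b = b * a)
    (hper : ∀ a ∈ N, ∃ m : ℕ, 0 < m ∧ D.π (a ^ m) = 0) (X : Subgroup Q) (hX : X.FG)
    (hfi : ((X2 D N X hN).subgroupOf X).FiniteIndex) (x : Q) (hx : x ∈ X) :
    ∃ k : ℕ, 0 < k ∧ D.π (x ^ k) = 0 := by
  have hpp : p.Prime := Fact.out
  have hfgN : (N ⊓ X).FG := hmax X _ hX inf_le_right
  obtain ⟨m, hm, hmN⟩ := exists_exponent D (N ⊓ X) (fun a ha b hb => hcomm a ha.1 b hb.1) hfgN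
    (fun a ha => hper a ha.1)
  obtain ⟨a, m', hm', rfl⟩ := Nat.exists_eq_pow_mul_and_not_dvd hm.ne' p hpp.ne_one
  -- the `p`-power exponent
  have hexp : ∀ n ∈ N ⊓ X, ∀ y ∈ X,
      eact D hpM (n ^ p ^ a) (eact D hpM y ((0 : M), (1 : ZMod p))) =
        eact D hpM y ((0 : M), (1 : ZMod p)) := by
    intro n hn y hy
    refine pprime D hpM hs hmax N hN hcomm (N.pow_mem hn.1 _) hm' (by
      rw [eact_snd]) ?_
    rw [← pow_mul]
    have h1 : y⁻¹ * n * y ∈ N ⊓ X := by
      refine ⟨?_, X.mul_mem (X.mul_mem (X.inv_mem hy) hn.2) hy⟩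
      have := hN.conj_mem n hn.1 y⁻¹
      simpa using this
    have h2 := hmN _ h1
    have h3 : eact D hpM ((y⁻¹ * n * y) ^ (p ^ a * m')) ((0 : M), (1 : ZMod p)) =
        ((0 : M), (1 : ZMod p)) := by
      rw [eact_base, h2]
    have e : n ^ (p ^ a * m') * y = y * (y⁻¹ * n * y) ^ (p ^ a * m') := by
      have : y⁻¹ * n * y = y⁻¹ * n * (y⁻¹)⁻¹ := by rw [inv_inv]
      rw [this, conj_pow, inv_inv]
      group
    rw [← eact_mul, e, eact_mul, h3]
  let c' : ↥(orb D hpM X) := ⟨_, base_mem D hpM X⟩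
  obtain ⟨k, hk, hkx⟩ := fix_of (p := p) (X := ↥X) (V := ↥(orb D hpM X))
    (fun v => Subtype.ext (ext_smul hpM v.1)) (ract D hpM X) c' (by
      rintro ⟨v, hv⟩
      refine Submodule.span_induction (p := fun v hv => (⟨v, hv⟩ : ↥(orb D hpM X)) ∈
        Submodule.span ℤ (Set.range (fun x => ract D hpM X x c'))) ?_ ?_ ?_ ?_ hv
      · rintro _ ⟨y, rfl⟩
        exact Submodule.subset_span ⟨y, rfl⟩
      · exact Submodule.zero_mem _
      · intro a b ha hb ha' hb'
        exact Submodule.add_mem _ ha' hb'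
      · intro k a ha ha'
        exact Submodule.smul_mem _ k ha')
    (N.subgroupOf X) inferInstance (by
      refine fg_of_map_subtype ?_
      rw [Subgroup.subgroupOf_map_subtype]
      exact hfgN)
    (fun a ha b hb => Subtype.ext (hcomm a.1 ha b.1 hb))
    (fun n hn => by
      refine ⟨a, LinearMap.ext ?_⟩
      rintro ⟨v, hv⟩
      refine Subtype.ext ?_
      change eact D hpM (n.1 ^ p ^ a) v = v
      refine Submodule.span_induction (p := fun v _ => eact D hpM (n.1 ^ p ^ a) v = v)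
        ?_ ?_ ?_ ?_ hv
      · rintro _ ⟨y, rfl⟩
        exact hexp n.1 ⟨hn, n.2⟩ y.1 y.2
      · rw [map_zero]
      · intro a b _ _ ha hb
        rw [map_add, ha, hb]
      · intro k a _ ha
        rw [map_smul, ha])
    ((X2 D N X hN).subgroupOf X) (by
      intro x hx
      have hx' : D.π x.1 ∈ WX D N X := hx.2
      let T : Submodule ℤ ↥(orb D hpM X) := Submodule.span ℤ
        {w | ∃ n ∈ N.subgroupOf X, ∃ v, w = ract D hpM X n v - v}
      have key : ∀ w ∈ WX D N X, ((w, 0) : Ext p M) ∈ T.map (orb D hpM X).subtype := by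
        intro w hw
        refine Submodule.span_induction (p := fun w _ => ((w, 0) : Ext p M) ∈
          T.map (orb D hpM X).subtype) ?_ ?_ ?_ ?_ hw
        · rintro _ ⟨b, ⟨hb, hb'⟩, g, hg, rfl⟩
          refine ⟨_, Submodule.subset_span ⟨⟨b, hb'⟩, hb, ract D hpM X ⟨g, hg⟩ c', rfl⟩, ?_⟩
          change eact D hpM b (eact D hpM g ((0 : M), (1 : ZMod p))) -
            eact D hpM g ((0 : M), (1 : ZMod p)) = _
          rw [← eact_mul, eact_base, eact_base]
          refine Prod.ext rfl ?_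
          exact sub_self _
        · exact Submodule.zero_mem _
        · intro a b _ _ ha hb
          have := Submodule.add_mem _ ha hb
          rw [Prod.mk_add_mk, add_zero] at this
          exact this
        · intro k a _ ha
          have := Submodule.smul_mem _ k ha
          rw [Prod.smul_mk, smul_zero] at this
          exact this
      obtain ⟨u, hu, hu'⟩ := key _ hx'
      have h1 : ract D hpM X x c' - c' = u := by
        refine Subtype.ext ?_
        change eact D hpM x.1 ((0 : M), (1 : ZMod p)) - ((0 : M), (1 : ZMod p)) = u.1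
        have hu'' : u.1 = ((D.π x.1, 0) : Ext p M) := hu'
        rw [hu'', eact_base]
        refine Prod.ext ?_ ?_
        · exact sub_zero _
        · exact sub_self _
      rw [h1]
      exact hu)
    ⟨x, hx⟩
  refine ⟨k, hk, ?_⟩
  have h1 : eact D hpM (x ^ k) ((0 : M), (1 : ZMod p)) = ((0 : M), (1 : ZMod p)) :=
    congrArg Subtype.val hkx
  rw [eact_base] at h1
  exact congrArg Prod.fst h1

end

/-- **The extension step.** -/
theorem tstep {p : ℕ} [Fact p.Prime] {Q Λ M : Type} [Group Q] [Group Λ] [AddCommGroup M]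
    [Group.IsSolvable Q] (hr : r0 Q < ℵ₀) (hmax : LM Q) (D : Der Q M)
    (hpM : ∀ m : M, p • m = 0) (hs : Function.Surjective D.π) (f : Q →* Λ)
    (hf : Function.Surjective f) (hcomm : ∀ a ∈ f.ker, ∀ b ∈ f.ker, a * b = b * a)
    (hper : ∀ a ∈ f.ker, ∃ m : ℕ, 0 < m ∧ D.π (a ^ m) = 0) (hΛ : DP p Λ) :
    r0 Q = r0 ↥(D.stab D.inv_bot) := by
  classical
  set N : Subgroup Q := f.ker with hNdef
  have hN : N.Normal := MonoidHom.normal_ker f
  let W : Submodule ℤ M := WX D N ⊤
  have hW : D.Inv W := fun q w hw => WX_inv D hN (Subgroup.mem_top q) hw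
  have hval : ∀ a ∈ N, D.π a ∈ W := fun a ha => WX_val D ha (Subgroup.mem_top a)
  -- the quotient
  have e1 : r0 Q = r0 ↥(D.stab hW) := by
    have h := descent (p := p) (D.quot hW) (by
      intro m
      obtain ⟨m, rfl⟩ := Submodule.Quotient.mk_surjective _ m
      rw [← Submodule.Quotient.mk_smul, hpM]; rfl) (D.quot_surj hW hs) f hf
      (fun g hg => by
        refine LinearMap.ext (fun y => ?_)
        obtain ⟨m, rfl⟩ := Submodule.Quotient.mk_surjective _ y
        obtain ⟨q, rfl⟩ := hs m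
        change Submodule.Quotient.mk (D.ρ g (D.π q)) = Submodule.Quotient.mk (D.π q)
        rw [Submodule.Quotient.eq]
        have h1 : D.π (g * q) - D.π q ∈ W :=
          Submodule.subset_span ⟨g, ⟨hg, Subgroup.mem_top _⟩, q, Subgroup.mem_top _, rfl⟩
        have h2 : D.ρ g (D.π q) - D.π q = (D.π (g * q) - D.π q) - D.π g := by
          rw [D.map_mul]; abel
        rw [h2]
        exact W.sub_mem h1 (hval g hg))
      (fun g hg => (Submodule.Quotient.mk_eq_zero _).2 (hval g hg)) hΛ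
    rw [D.r0_quot_stab_bot hW] at h
    exact h
  -- a witness
  obtain ⟨n, hn⟩ := (Group.isSolvable_def ↥(D.stab hW)).1 inferInstance
  have hr1 : r0 ↥(D.stab hW) < ℵ₀ := e1 ▸ hr
  obtain ⟨S, hS⟩ := exists_witness n ↥(D.stab hW) hn hr1
  have hfind : ∃ X : Subgroup Q, X.FG ∧ ∀ s ∈ S, s.1 ∈ X ∧ D.π s.1 ∈ WX D N X := by
    clear hS
    induction S using Finset.induction_on with
    | empty => exact ⟨⊥, Subgroup.FG.bot, fun s hs => absurd hs (Finset.notMem_empty s)⟩
    | insert a S _ ih =>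
      obtain ⟨X, hX, hXS⟩ := ih
      obtain ⟨Y, hY, hYa⟩ := exists_fg D a.2
      refine ⟨X ⊔ Y ⊔ Subgroup.closure (({a.1} : Finset Q) : Set Q), (hX.sup hY).sup ⟨_, rfl⟩,
        fun s hs => ?_⟩
      rcases Finset.mem_insert.1 hs with rfl | hs
      · refine ⟨Subgroup.mem_sup_right (Subgroup.subset_closure (by simp)), ?_⟩
        exact WX_mono D (le_sup_right.trans le_sup_left) hYa
      · exact ⟨Subgroup.mem_sup_left (Subgroup.mem_sup_left (hXS s hs).1),
          WX_mono D (le_sup_left.trans le_sup_left) (hXS s hs).2⟩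
  obtain ⟨X, hX, hXS⟩ := hfind
  have hle : ∀ s ∈ S, s ∈ (X2 D N X hN).subgroupOf (D.stab hW) := fun s hs => hXS s hs
  have e2 := hS _ hle
  have e3 : r0 ↥((X2 D N X hN).subgroupOf (D.stab hW)) ≤ r0 ↥(X2 D N X hN) := by
    have hle2 : X2 D N X hN ≤ D.stab hW := fun x hx => WX_mono D le_top hx.2
    rw [r0_congr (Subgroup.subgroupOfEquivOfLe hle2)]
  have hXle : X2 D N X hN ≤ X := fun x hx => hx.1
  have e4 : r0 ↥(X2 D N X hN) = r0 ↥X := by
    refine le_antisymm (r0_mono hXle) ?_
    calc r0 ↥X ≤ r0 Q := r0_subgroup_le X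
      _ = r0 ↥(D.stab hW) := e1
      _ = r0 ↥((X2 D N X hN).subgroupOf (D.stab hW)) := e2.symm
      _ ≤ _ := e3
  have e5 : r0 Q ≤ r0 ↥X := by
    calc r0 Q = r0 ↥(D.stab hW) := e1
      _ = r0 ↥((X2 D N X hN).subgroupOf (D.stab hW)) := e2.symm
      _ ≤ r0 ↥(X2 D N X hN) := e3
      _ = r0 ↥X := e4
  have hfi : ((X2 D N X hN).subgroupOf X).FiniteIndex := by
    obtain ⟨m, hm⟩ := (Group.isSolvable_def ↥X).1 inferInstance
    refine finiteIndex_of_r0 m ↥X hm (fun K => hmax.all hX K)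
      (lt_of_le_of_lt (r0_subgroup_le X) hr) _ ?_
    rw [r0_congr (Subgroup.subgroupOfEquivOfLe hXle), e4]
  have e6 : r0 ↥(D.stab D.inv_bot ⊓ X) = r0 ↥X := by
    refine r0_eq_of_powers' inf_le_right (fun x hx => ?_)
    obtain ⟨k, hk, hk'⟩ := powers_of D hpM hs hmax N hN hcomm hper X hX hfi x hx
    refine ⟨k, hk, ?_, X.pow_mem hx k⟩
    change D.π (x ^ k) ∈ (⊥ : Submodule ℤ M)
    rw [hk']
    exact Submodule.zero_mem _
  refine le_antisymm ?_ (r0_subgroup_le _)
  calc r0 Q ≤ r0 ↥X := e5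
    _ = r0 ↥(D.stab D.inv_bot ⊓ X) := e6.symm
    _ ≤ _ := r0_mono inf_le_left

end Pool.TFL
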