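import Mathlib
import Pool.Agent.TFL.LocG
import Pool.Agent.TFL.TStep2

/-!
# Periodicity of the values on an abelian normal subgroup
-/

set_option autoImplicit false

namespace Pool.TFL

open Cardinal Pool.TFR Pool.TFN
open scoped commutatorElement

/-- data for the ring construction -/
structure GData (p : ℕ) [Fact p.Prime] (Q M : Type) [Group Q] [AddCommGroup M] where
  D : Der Q M
  hpM : ∀ m : M, p • m = 0
  N : Subgroup Q
  hN : N.Normal
  comm : ∀ a ∈ N, ∀ b ∈ N, a * b = b * a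
  surj : Function.Surjective D.π

namespace GData

variable {p : ℕ} [Fact p.Prime] {Q M : Type} [Group Q] [AddCommGroup M] (X : GData p Q M)

/-- the ring generated by the subgroup -/
def S0 : Subring (Module.End ℤ (Ext p M)) :=
  Subring.closure {x | ∃ a ∈ X.N, eact X.D X.hpM a = x}

theorem mem_S0 {a : Q} (ha : a ∈ X.N) : eact X.D X.hpM a ∈ X.S0 :=
  Subring.subset_closure ⟨a, ha, rfl⟩

theorem S0_comm : ∀ a b : ↥X.S0, a * b = b * a := by
  have h : IsMulCommutative ↥X.S0 := by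
    refine Subring.isMulCommutative_closure ?_
    rintro _ ⟨a, ha, rfl⟩ _ ⟨b, hb, rfl⟩
    rw [← map_mul, ← map_mul, X.comm a ha b hb]
  exact fun a b => h.is_comm.comm a b

noncomputable instance : CommRing ↥X.S0 :=
  { (inferInstance : Ring ↥X.S0) with mul_comm := X.S0_comm }

theorem S0_conj (h : Q) {r : Module.End ℤ (Ext p M)} (hr : r ∈ X.S0) :
    eact X.D X.hpM h * r * eact X.D X.hpM h⁻¹ ∈ X.S0 := by
  have hinv : eact X.D X.hpM h⁻¹ * eact X.D X.hpM h = 1 := by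
    rw [← map_mul, inv_mul_cancel, map_one]
  have hinv' : eact X.D X.hpM h * eact X.D X.hpM h⁻¹ = 1 := by
    rw [← map_mul, mul_inv_cancel, map_one]
  refine Subring.closure_induction (p := fun r _ => eact X.D X.hpM h * r * eact X.D X.hpM h⁻¹ ∈
    X.S0) ?_ ?_ ?_ ?_ ?_ ?_ hr
  · rintro _ ⟨a, ha, rfl⟩
    refine Subring.subset_closure ⟨h * a * h⁻¹, X.hN.conj_mem a ha h, ?_⟩
    rw [map_mul, map_mul]
  · rw [mul_zero, zero_mul]
    exact X.S0.zero_mem
  · rw [mul_one, hinv']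
    exact X.S0.one_mem
  · intro x y _ _ hx hy
    rw [mul_add, add_mul]
    exact X.S0.add_mem hx hy
  · intro x _ hx
    rw [mul_neg, neg_mul]
    exact X.S0.neg_mem hx
  · intro x y _ _ hx hy
    have : eact X.D X.hpM h * (x * y) * eact X.D X.hpM h⁻¹ =
        (eact X.D X.hpM h * x * eact X.D X.hpM h⁻¹) *
          (eact X.D X.hpM h * y * eact X.D X.hpM h⁻¹) := by
      calc eact X.D X.hpM h * (x * y) * eact X.D X.hpM h⁻¹ =
          eact X.D X.hpM h * x * 1 * y * eact X.D X.hpM h⁻¹ := by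
            rw [mul_one]; simp only [mul_assoc]
        _ = eact X.D X.hpM h * x * (eact X.D X.hpM h⁻¹ * eact X.D X.hpM h) * y *
            eact X.D X.hpM h⁻¹ := by rw [hinv]
        _ = _ := by simp only [mul_assoc]
    rw [this]
    exact X.S0.mul_mem hx hy

theorem S0_eps {r : Module.End ℤ (Ext p M)} (hr : r ∈ X.S0) :
    ∀ v, (r v).2 = (r ((0 : M), (1 : ZMod p))).2 * v.2 := by
  refine Subring.closure_induction (p := fun r _ => ∀ v, (r v).2 =
    (r ((0 : M), (1 : ZMod p))).2 * v.2) ?_ ?_ ?_ ?_ ?_ ?_ hr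
  · rintro _ ⟨a, ha, rfl⟩ v
    rw [eact_apply, eact_apply, one_mul]
  · intro v
    change (0 : ZMod p) = 0 * v.2
    rw [zero_mul]
  · intro v
    change v.2 = 1 * v.2
    rw [one_mul]
  · intro x y _ _ hx hy v
    change (x v).2 + (y v).2 = ((x _).2 + (y _).2) * v.2
    rw [hx v, hy v, add_mul]
  · intro x _ hx v
    change -(x v).2 = -(x _).2 * v.2
    rw [hx v, neg_mul]
  · intro x y _ _ hx hy v
    change (x (y v)).2 = (x (y _)).2 * v.2
    rw [hx (y v), hy v, hx (y ((0 : M), (1 : ZMod p))), mul_assoc]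

/-- the augmentation -/
noncomputable def aug : ↥X.S0 →+* ZMod p where
  toFun r := (r.1 ((0 : M), (1 : ZMod p))).2
  map_one' := rfl
  map_mul' a b := by
    change (a.1 (b.1 _)).2 = _
    rw [X.S0_eps a.2]
  map_zero' := rfl
  map_add' a b := rfl

theorem S0_char (r : ↥X.S0) : p • r = 0 := by
  refine Subtype.ext (LinearMap.ext (fun v => ?_))
  change p • (r.1 v) = 0
  exact ext_smul X.hpM _

/-- the transitive action -/
noncomputable def toTrG : TrG p Q ↥X.S0 (Ext p M) where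
  act := eact X.D X.hpM
  N := X.N
  hN := X.hN
  eps := AddMonoidHom.snd M (ZMod p)
  aug := X.aug
  eps_smul r v := X.S0_eps r.2 v
  eps_act h v := rfl
  conj h r := by
    refine ⟨⟨_, X.S0_conj h r.2⟩, fun v => ?_⟩
    change eact X.D X.hpM h (r.1 v) =
      eact X.D X.hpM h (r.1 (eact X.D X.hpM h⁻¹ (eact X.D X.hpM h v)))
    rw [eact_inv_self]
  c := (0, 1)
  eps_c := rfl
  trans x hx := exists_base X.D X.hpM X.surj hx
  K_act k hk := ⟨⟨_, X.mem_S0 hk⟩, fun v => rfl⟩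
  faith r hr := Subtype.ext (LinearMap.ext hr)
  charp := by
    have h := X.S0_char 1
    rwa [nsmul_eq_mul, mul_one] at h

/-- elements centralising the subgroup commute with the scalars -/
theorem mem_Cs {q : Q} (hq : ∀ n ∈ X.N, q * n = n * q) : q ∈ X.toTrG.Cs := by
  intro r
  refine X.toTrG.eq_of_smul_act q (fun v => ?_)
  rw [← X.toTrG.cj_spec]
  have h : eact X.D X.hpM q * r.1 = r.1 * eact X.D X.hpM q := by
    refine Subring.closure_induction (p := fun r _ => eact X.D X.hpM q * r =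
      r * eact X.D X.hpM q) ?_ ?_ ?_ ?_ ?_ ?_ r.2
    · rintro _ ⟨a, ha, rfl⟩
      rw [← map_mul, ← map_mul, hq a ha]
    · rw [mul_zero, zero_mul]
    · rw [mul_one, one_mul]
    · intro x y _ _ hx hy
      rw [mul_add, add_mul, hx, hy]
    · intro x _ hx
      rw [mul_neg, neg_mul, hx]
    · intro x y _ _ hx hy
      rw [← mul_assoc, hx, mul_assoc, hy, mul_assoc]
  exact LinearMap.congr_fun h v

end GData

/-- **Periodicity.** -/
theorem per_of_abfin {p : ℕ} [Fact p.Prime] {Q M : Type} [Group Q] [AddCommGroup M]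
    [Group.IsSolvable Q] (hr : r0 Q < ℵ₀) (D : Der Q M) (hpM : ∀ m : M, p • m = 0)
    (hs : Function.Surjective D.π) (N : Subgroup Q) (hN : N.Normal)
    (hcomm : ∀ a ∈ N, ∀ b ∈ N, a * b = b * a) (Q1 : Subgroup Q) (hQn : Q1.Normal)
    (hQf : Q1.FiniteIndex) (hQ1 : ∀ a ∈ Q1, ∀ b ∈ Q1, ∀ n ∈ N, ⁅a, b⁆ * n = n * ⁅a, b⁆) :
    ∀ n ∈ N, ∃ m : ℕ, 0 < m ∧ D.π (n ^ m) = 0 := by
  intro n hn
  let X : GData p Q M := ⟨D, hpM, N, hN, hcomm, hs⟩
  have hEE := X.toTrG.rank_EE hr Q1 hQn hQf (fun a ha b hb => X.mem_Cs (hQ1 a ha b hb))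
  obtain ⟨m, hm, hm'⟩ := X.toTrG.per_c hr hEE ⟨n, hn⟩
  refine ⟨m, hm, ?_⟩
  rw [← X.toTrG.sc_pow, ← X.toTrG.sc_spec] at hm'
  have h1 : eact D hpM (n ^ m) ((0 : M), (1 : ZMod p)) = ((0 : M), (1 : ZMod p)) := hm'
  rw [eact_base] at h1
  exact congrArg Prod.fst h1

end Pool.TFL
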