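import Mathlib
import Pool.Agent.TFL.Per

/-!
# The induction for locally polycyclic groups
-/

set_option autoImplicit false

namespace Pool.TFL

open Cardinal Pool.TFR Pool.TFN
open scoped commutatorElement

/-- an abelian normal subgroup centralised by the derived subgroup of a finite index subgroup -/
def Mal (Λ : Type) [Group Λ] : Prop :=
  ∃ N : Subgroup Λ, N.Normal ∧ N ≠ ⊥ ∧ (∀ a ∈ N, ∀ b ∈ N, a * b = b * a) ∧
    ∃ Q1 : Subgroup Λ, Q1.Normal ∧ Q1.FiniteIndex ∧
      ∀ a ∈ Q1, ∀ b ∈ Q1, ∀ n ∈ N, ⁅a, b⁆ * n = n * ⁅a, b⁆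

theorem tsh {p : ℕ} [Fact p.Prime] (n : ℕ) : ∀ (Q Λ : Type) [Group Q] [Group Λ]
    [Group.IsSolvable Q] (f : Q →* Λ), Function.Surjective f → IsTor f.ker →
    derivedSeries ↥f.ker n = ⊥ → r0 Q < ℵ₀ → LM Q → DP p Λ → DP p Q := by
  induction n with
  | zero =>
    intro Q Λ _ _ _ f hf _ h _ _ hΛ M _ D hpM hs
    have hsub := subsingleton_of_derivedSeries_zero h
    have hker : ∀ g, f g = 1 → g = 1 := by
      intro g hg
      have := hsub.elim (⟨g, hg⟩ : ↥f.ker) 1
      exact congrArg Subtype.val this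
    refine descent D hpM hs f hf (fun g hg => ?_) (fun g hg => ?_) hΛ
    · rw [hker g hg, map_one]
    · rw [hker g hg, D.map_one]
  | succ n ih =>
    intro Q Λ _ _ _ f hf htor h hr hLM hΛ M _ D hpM hs
    let A : Subgroup Q := (derivedSeries ↥f.ker n).map f.ker.subtype
    have hAn : A.Normal := by
      change ((derivedSeries ↥f.ker n).map f.ker.subtype).Normal
      infer_instance
    have hAle : A ≤ f.ker := by
      rintro _ ⟨x, -, rfl⟩
      exact x.2
    let g : Q →* Q ⧸ A := QuotientGroup.mk' A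
    have hg : Function.Surjective g := QuotientGroup.mk'_surjective A
    have hgk : g.ker = A := QuotientGroup.ker_mk' A
    let k : Q ⧸ A →* Λ := QuotientGroup.lift A f (fun x hx => hAle hx)
    have hkg : ∀ x, k (g x) = f x := fun x => rfl
    have hk : Function.Surjective k := by
      intro y
      obtain ⟨x, rfl⟩ := hf y
      exact ⟨g x, rfl⟩
    have hktor : IsTor k.ker := by
      intro y hy
      obtain ⟨x, rfl⟩ := hg y
      obtain ⟨m, hm, hm'⟩ := htor x hy
      exact ⟨m, hm, by rw [← map_pow, hm', map_one]⟩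
    let φ : ↥f.ker →* ↥k.ker := (g.comp f.ker.subtype).codRestrict k.ker (fun x => x.2)
    have hφ : Function.Surjective φ := by
      rintro ⟨y, hy⟩
      obtain ⟨x, rfl⟩ := hg y
      exact ⟨⟨x, hy⟩, rfl⟩
    have hkd : derivedSeries ↥k.ker n = ⊥ := by
      refine derivedSeries_of_surj φ hφ (fun x hx => ?_)
      refine Subtype.ext ?_
      exact (QuotientGroup.eq_one_iff _).2 ⟨x, hx, rfl⟩
    have hDP : DP p (Q ⧸ A) := ih (Q ⧸ A) Λ k hk hktor hkd
      (lt_of_le_of_lt (r0_le_of_surjective g hg) hr) (hLM.of_surjective g hg) hΛ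
    refine tstep hr hLM D hpM hs g hg ?_ ?_ hDP
    · rw [hgk]
      rintro _ ⟨a, ha, rfl⟩ _ ⟨b, hb, rfl⟩
      have h1 : ⁅a, b⁆ ∈ derivedSeries ↥f.ker (n + 1) :=
        Subgroup.commutator_mem_commutator ha hb
      rw [h, Subgroup.mem_bot, commutatorElement_eq_one_iff_mul_comm] at h1
      exact congrArg Subtype.val h1
    · intro a ha
      rw [hgk] at ha
      obtain ⟨m, hm, hm'⟩ := htor a (hAle ha)
      exact ⟨m, hm, by rw [hm', D.map_one]⟩

/-- nontrivial torsion-free abelian subgroups have nonzero rank -/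
theorem r0_ne_zero {Λ : Type} [Group Λ] (N : Subgroup Λ) (hne : N ≠ ⊥)
    (hcomm : ∀ a ∈ N, ∀ b ∈ N, a * b = b * a)
    (htf : ∀ x ∈ N, ∀ k : ℕ, 0 < k → x ^ k = 1 → x = 1) : r0 ↥N ≠ 0 := by
  intro h
  let _ : CommGroup ↥N := cg ↥N (fun a b => Subtype.ext (hcomm a.1 a.2 b.1 b.2))
  have h1 : r0 ↥N = ra ↥N := r0_comm ↥N
  rw [h1] at h
  unfold ra at h
  rw [rank_eq_zero_iff] at h
  apply hne
  rw [eq_bot_iff]
  intro x hx
  obtain ⟨c, hc, hcx⟩ := h (Additive.ofMul (⟨x, hx⟩ : ↥N))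
  have h6 : (⟨x, hx⟩ : ↥N) ^ c = 1 := hcx
  refine Subgroup.mem_bot.2 (htf x hx c.natAbs (Int.natAbs_pos.2 hc) ?_)
  have h8 : (⟨x, hx⟩ : ↥N) ^ c.natAbs = 1 := by
    rcases Int.natAbs_eq c with h7 | h7
    · rw [h7, zpow_natCast] at h6
      exact h6
    · rw [h7, zpow_neg, zpow_natCast, inv_eq_one] at h6
      exact h6
  exact congrArg Subtype.val h8

/-- **The main induction.** -/
theorem dp_of_LM {p : ℕ} [Fact p.Prime]
    (mal : ∀ (Λ : Type) [Group Λ] [Group.IsSolvable Λ], r0 Λ < ℵ₀ → NoTor Λ → Nontrivial Λ →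
      Mal Λ) (n : ℕ) : ∀ (Q : Type) [Group Q] [Group.IsSolvable Q], LM Q → r0 Q < n →
      DP p Q := by
  induction n with
  | zero =>
    intro Q _ _ _ h
    rw [Nat.cast_zero] at h
    exact absurd h (not_lt_of_ge zero_le)
  | succ n ih =>
    have key : ∀ (Λ : Type) [Group Λ] [Group.IsSolvable Λ], LM Λ → NoTor Λ →
        r0 Λ < (n + 1 : ℕ) → DP p Λ := by
      intro Λ _ _ hLM hno hrn
      have hr : r0 Λ < ℵ₀ := lt_of_lt_of_le hrn (Cardinal.natCast_lt_aleph0).le
      rcases subsingleton_or_nontrivial Λ with hsub | hnt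
      · intro M _ D hpM hs
        rw [r0_of_subsingleton, r0_of_subsingleton]
      · obtain ⟨N, hN, hne, hcomm, Q1, hQn, hQf, hQ1⟩ := mal Λ hr hno hnt
        intro M _ D hpM hs
        let g : Λ →* Λ ⧸ N := QuotientGroup.mk' N
        have hg : Function.Surjective g := QuotientGroup.mk'_surjective N
        have hgk : g.ker = N := QuotientGroup.ker_mk' N
        have hper := per_of_abfin hr D hpM hs N hN hcomm Q1 hQn hQf hQ1
        refine tstep hr hLM D hpM hs g hg (by rw [hgk]; exact hcomm) (by rw [hgk]; exact hper)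
          (ih (Λ ⧸ N) (hLM.of_surjective g hg) ?_)
        have h1 := r0_add_quotient N
        have h2 : r0 ↥N ≠ 0 := r0_ne_zero N hne hcomm
          (fun x hx k hk hxk => noTor_abelian hno N hcomm x hx k hk hxk)
        rw [h1] at hr hrn
        obtain ⟨a, ha⟩ := Cardinal.lt_aleph0.1 (lt_of_le_of_lt (self_le_add_right _ _) hr)
        obtain ⟨b, hb⟩ := Cardinal.lt_aleph0.1 (lt_of_le_of_lt (self_le_add_left _ _) hr)
        rw [ha, hb] at hrn
        rw [ha] at h2
        rw [hb]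
        have h6 : a + b < n + 1 := by exact_mod_cast hrn
        have h7 : a ≠ 0 := by exact_mod_cast h2
        have h8 : b < n := by omega
        exact_mod_cast h8
    intro Q _ _ hLM hrn
    have hr : r0 Q < ℵ₀ := lt_of_lt_of_le hrn (Cardinal.natCast_lt_aleph0).le
    have hTn := torRad_normal Q
    have hTt := torRad_isTor Q
    let f : Q →* Q ⧸ torRad Q := QuotientGroup.mk' (torRad Q)
    have hf : Function.Surjective f := QuotientGroup.mk'_surjective _
    have hker : f.ker = torRad Q := QuotientGroup.ker_mk' _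
    have hft : IsTor f.ker := by rw [hker]; exact hTt
    obtain ⟨m, hm⟩ := (Group.isSolvable_def ↥f.ker).1 inferInstance
    refine tsh m Q (Q ⧸ torRad Q) f hf hft hm hr hLM ?_
    have hno : NoTor (Q ⧸ torRad Q) := noTor_of_surj f hf hft (by rw [hker])
    have hrΛ : r0 (Q ⧸ torRad Q) < (n + 1 : ℕ) := lt_of_le_of_lt (r0_le_of_surjective f hf) hrn
    have hLMΛ : LM (Q ⧸ torRad Q) := hLM.of_surjective f hf
    exact key _ hLMΛ hno hrΛ

end Pool.TFL
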