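import Mathlib
import Pool.Agent.TFL.Ind

/-!
# Finite index subgroups of soluble linear groups: vectors fixed by commutators
-/

set_option autoImplicit false

namespace Pool.TFL

open Module
open scoped commutatorElement

section weights

variable {K V : Type} [Field K] [AddCommGroup V] [Module K V] [FiniteDimensional K V]

omit [FiniteDimensional K V] in
/-- eigenvectors with distinct weights are independent -/
theorem indep_weights {ι : Type} (f : ι → Module.End K V) {κ : Type} (χ : κ → ι → K)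
    (hχ : Function.Injective χ) (v : κ → V) (hv : ∀ k, v k ≠ 0)
    (he : ∀ k i, f i (v k) = χ k i • v k) : LinearIndependent K v := by
  classical
  rw [linearIndependent_iff']
  intro s
  induction s using Finset.induction_on with
  | empty => intro g _ i hi; simp at hi
  | insert a s has ih =>
    intro g hg
    have h1 : ∀ k ∈ s, g k = 0 := by
      intro k hk
      have hka : k ≠ a := fun h => has (h ▸ hk)
      obtain ⟨i, hi⟩ : ∃ i, χ k i ≠ χ a i := by
        by_contra h
        push Not at h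
        exact hka (hχ (funext h))
      have h2 : ∑ j ∈ s, (g j * (χ j i - χ a i)) • v j = 0 := by
        have h4 : ∑ j ∈ insert a s, (g j * (χ j i - χ a i)) • v j =
            f i (∑ j ∈ insert a s, g j • v j) - χ a i • ∑ j ∈ insert a s, g j • v j := by
          rw [map_sum, Finset.smul_sum, ← Finset.sum_sub_distrib]
          refine Finset.sum_congr rfl fun j _ => ?_
          rw [map_smul, he, smul_smul, smul_smul, ← sub_smul]
          congr 1
          ring
        rw [hg, map_zero, smul_zero, sub_zero, Finset.sum_insert has, sub_self, mul_zero,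
          zero_smul, zero_add] at h4
        exact h4
      have h5 := ih (fun j => g j * (χ j i - χ a i)) h2 k hk
      exact (mul_eq_zero.1 h5).resolve_right (sub_ne_zero.2 hi)
    intro k hk
    rcases Finset.mem_insert.1 hk with rfl | hk
    · rw [Finset.sum_insert has, Finset.sum_eq_zero (fun j hj => by rw [h1 j hj, zero_smul]),
        add_zero] at hg
      exact (smul_eq_zero.1 hg).resolve_right (hv k)
    · exact h1 k hk

theorem finite_weights {ι : Type} (f : ι → Module.End K V) :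
    {χ : ι → K | ∃ v : V, v ≠ 0 ∧ ∀ i, f i v = χ i • v}.Finite := by
  let S := {χ : ι → K | ∃ v : V, v ≠ 0 ∧ ∀ i, f i v = χ i • v}
  change S.Finite
  choose v hv he using fun χ : S => χ.2
  have hli := indep_weights f (fun χ : S => χ.1) Subtype.val_injective v hv he
  have hfin : Finite S := hli.finite
  exact Set.toFinite S

/-- commuting endomorphisms have a common eigenvector -/
theorem common {ι : Type} [IsAlgClosed K] [Nontrivial V] (f : ι → Module.End K V)
    (hf : ∀ i j, f i * f j = f j * f i) :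
    ∃ χ : ι → K, ∃ v : V, v ≠ 0 ∧ ∀ i, f i v = χ i • v := by
  classical
  have hex : ∃ n, ∃ W : Submodule K V, W ≠ ⊥ ∧ (∀ i, ∀ w ∈ W, f i w ∈ W) ∧ finrank K W = n :=
    ⟨_, ⊤, top_ne_bot, fun _ _ _ => Submodule.mem_top, rfl⟩
  obtain ⟨W, hW, hinv, hn⟩ := Nat.find_spec hex
  have hmin : ∀ W' : Submodule K V, W' ≠ ⊥ → (∀ i, ∀ w ∈ W', f i w ∈ W') → W' ≤ W → W' = W := by
    intro W' h1 h2 h3
    refine Submodule.eq_of_le_of_finrank_le h3 ?_
    rw [hn]
    exact Nat.find_min' hex ⟨W', h1, h2, rfl⟩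
  have hW' : Nontrivial W := Submodule.nontrivial_iff_ne_bot.2 hW
  have key : ∀ i, ∃ c : K, ∀ w ∈ W, f i w = c • w := by
    intro i
    obtain ⟨c, hc⟩ := Module.End.exists_eigenvalue ((f i).restrict (hinv i))
    obtain ⟨w, hw⟩ := hc.exists_hasEigenvector
    refine ⟨c, ?_⟩
    let W' : Submodule K V := W ⊓ LinearMap.ker (f i - algebraMap K (Module.End K V) c)
    have hmem : ∀ x, x ∈ W' ↔ x ∈ W ∧ f i x = c • x := by
      intro x
      change x ∈ W ∧ x ∈ LinearMap.ker (f i - algebraMap K (Module.End K V) c) ↔ _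
      rw [LinearMap.mem_ker, LinearMap.sub_apply, sub_eq_zero, Module.algebraMap_end_apply]
    have h1 : W' = W := by
      refine hmin W' ?_ ?_ inf_le_left
      · rw [Submodule.ne_bot_iff]
        refine ⟨w.1, (hmem _).2 ⟨w.2, ?_⟩, fun h => hw.2 (Subtype.ext h)⟩
        exact congrArg Subtype.val hw.apply_eq_smul
      · intro j x hx
        rw [hmem] at hx ⊢
        refine ⟨hinv j x hx.1, ?_⟩
        rw [← Module.End.mul_apply, hf i j, Module.End.mul_apply, hx.2, map_smul]
    intro x hx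
    rw [← h1] at hx
    exact ((hmem x).1 hx).2
  choose c hc using key
  obtain ⟨w, hw, hw0⟩ := Submodule.exists_mem_ne_zero_of_ne_bot hW
  exact ⟨c, w, hw0, fun i => hc i w hw⟩

end weights

/-- a criterion for finite index -/
theorem finiteIndex_of_fin {X α : Type} [Group X] (H : Subgroup X) (F : X → α)
    (hfin : (Set.range F).Finite) (h : ∀ g k, F g = F k → g⁻¹ * k ∈ H) : H.FiniteIndex := by
  have h1 : Finite (Set.range F) := hfin
  have h2 : Finite (X ⧸ H) := by
    refine Finite.of_injective (fun q : X ⧸ H => (⟨F q.out, ⟨_, rfl⟩⟩ : Set.range F)) ?_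
    intro a b hab
    have h3 : F a.out = F b.out := congrArg Subtype.val hab
    have h4 := h _ _ h3
    rw [← QuotientGroup.eq] at h4
    rwa [QuotientGroup.out_eq', QuotientGroup.out_eq'] at h4
  exact Subgroup.finiteIndex_of_finite_quotient

section irred

variable {K V : Type} [Field K] [AddCommGroup V] [Module K V] [FiniteDimensional K V]
variable {X : Type} [Group X]

/-- invariance under finite index subgroups forces everything -/
def Strong (φ : X →* Module.End K V) : Prop :=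
  ∀ Y : Subgroup X, Y.FiniteIndex → ∀ W : Submodule K V, W ≠ ⊥ →
    (∀ x ∈ Y, ∀ w ∈ W, φ x w ∈ W) → W = ⊤

omit [FiniteDimensional K V] in
theorem app_inv (φ : X →* Module.End K V) (x : X) (v : V) : φ x⁻¹ (φ x v) = v := by
  rw [← Module.End.mul_apply, ← map_mul, inv_mul_cancel, map_one, Module.End.one_apply]

omit [FiniteDimensional K V] in
theorem app_inv' (φ : X →* Module.End K V) (x : X) (v : V) : φ x (φ x⁻¹ v) = v := by
  rw [← Module.End.mul_apply, ← map_mul, mul_inv_cancel, map_one, Module.End.one_apply]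

omit [FiniteDimensional K V] in
theorem app_ne (φ : X →* Module.End K V) (x : X) {v : V} (hv : v ≠ 0) : φ x v ≠ 0 := by
  intro h
  apply hv
  rw [← app_inv φ x v, h, map_zero]

/-- normal subgroups with commuting image act by scalars -/
theorem scalar_of_comm [IsAlgClosed K] [Nontrivial V] (φ : X →* Module.End K V)
    (hs : Strong φ) (B : Subgroup X) [hB : B.Normal]
    (hc : ∀ a ∈ B, ∀ b ∈ B, φ a * φ b = φ b * φ a) :
    ∀ b ∈ B, ∃ c : K, ∀ v, φ b v = c • v := by
  obtain ⟨χ, v, hv, he⟩ := common (fun b : ↥B => φ b.1) (fun i j => hc _ i.2 _ j.2)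
  let cj : X → ↥B → ↥B := fun x b => ⟨x⁻¹ * b.1 * x, by
    have := hB.conj_mem b.1 b.2 x⁻¹
    rwa [inv_inv] at this⟩
  have hcjmul : ∀ x y b, cj (x * y) b = cj y (cj x b) := by
    intro x y b
    refine Subtype.ext ?_
    change (x * y)⁻¹ * b.1 * (x * y) = y⁻¹ * (x⁻¹ * b.1 * x) * y
    group
  have hcjone : ∀ b, cj 1 b = b := by
    intro b
    refine Subtype.ext ?_
    change (1 : X)⁻¹ * b.1 * 1 = b.1
    group
  have hφ : ∀ (x : X) (b : ↥B) (w : V), φ b.1 (φ x w) = φ x (φ (cj x b).1 w) := by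
    intro x b w
    change φ b.1 (φ x w) = φ x (φ (x⁻¹ * b.1 * x) w)
    rw [← Module.End.mul_apply, ← Module.End.mul_apply, ← map_mul, ← map_mul]
    congr 2
    group
  let F : X → (↥B → K) := fun x b => χ (cj x b)
  have hfin : (Set.range F).Finite := by
    refine (finite_weights (fun b : ↥B => φ b.1)).subset ?_
    rintro _ ⟨x, rfl⟩
    refine ⟨φ x v, app_ne φ x hv, fun b => ?_⟩
    change φ b.1 (φ x v) = χ (cj x b) • φ x v
    rw [hφ, he, map_smul]
  let Y : Subgroup X :=
    { carrier := {x | ∀ b, χ (cj x b) = χ b}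
      mul_mem' := by
        intro x y hx hy b
        change χ (cj (x * y) b) = χ b
        rw [hcjmul, hy, hx]
      one_mem' := by
        intro b
        rw [hcjone]
      inv_mem' := by
        intro x hx b
        change χ (cj x⁻¹ b) = χ b
        rw [← hx (cj x⁻¹ b), ← hcjmul, inv_mul_cancel, hcjone] }
  have hY : Y.FiniteIndex := by
    refine finiteIndex_of_fin Y F hfin (fun g k hgk => ?_)
    intro b
    change χ (cj (g⁻¹ * k) b) = χ b
    rw [hcjmul]
    have h1 : F k (cj g⁻¹ b) = F g (cj g⁻¹ b) := by rw [hgk]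
    change χ (cj k (cj g⁻¹ b)) = χ (cj g (cj g⁻¹ b)) at h1
    rw [h1, ← hcjmul, inv_mul_cancel, hcjone]
  let W : Submodule K V :=
    { carrier := {w | ∀ b : ↥B, φ b.1 w = χ b • w}
      add_mem' := by
        intro a b ha hb c
        rw [map_add, ha, hb, smul_add]
      zero_mem' := by
        intro b
        rw [map_zero, smul_zero]
      smul_mem' := by
        intro c w hw b
        rw [map_smul, hw, smul_comm] }
  have hW : W = ⊤ := by
    refine hs Y hY W ?_ ?_
    · rw [Submodule.ne_bot_iff]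
      exact ⟨v, he, hv⟩
    · intro x hx w hw b
      rw [hφ, hw, map_smul, hx b]
  intro b hb
  refine ⟨χ ⟨b, hb⟩, fun w => ?_⟩
  have : w ∈ W := by rw [hW]; exact Submodule.mem_top
  exact this ⟨b, hb⟩

/-- going up the derived series -/
theorem scalar_step [IsAlgClosed K] [Nontrivial V] (φ : X →* Module.End K V) (hs : Strong φ)
    (B : Subgroup X) [hB : B.Normal]
    (hc : ∀ a ∈ B, ∀ b ∈ B, ∃ c : K, ∀ v, φ ⁅a, b⁆ v = c • v) :
    ∀ b ∈ B, ∃ c : K, ∀ v, φ b v = c • v := by
  classical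
  let Z : Subgroup X :=
    { carrier := {z | z ∈ B ∧ ∀ b ∈ B, φ z * φ b = φ b * φ z}
      mul_mem' := by
        rintro x y ⟨hx, hx'⟩ ⟨hy, hy'⟩
        refine ⟨B.mul_mem hx hy, fun b hb => ?_⟩
        rw [map_mul, mul_assoc, hy' b hb, ← mul_assoc, hx' b hb, mul_assoc]
      one_mem' := ⟨B.one_mem, fun b _ => by rw [map_one, one_mul, mul_one]⟩
      inv_mem' := by
        rintro x ⟨hx, hx'⟩
        refine ⟨B.inv_mem hx, fun b hb => ?_⟩
        have h1 := congrArg (fun T => φ x⁻¹ * T * φ x⁻¹) (hx' b hb)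
        rw [← map_mul, ← map_mul, ← map_mul, ← map_mul, ← map_mul, ← map_mul] at h1
        rw [← map_mul, ← map_mul]
        rw [show x⁻¹ * (x * b) * x⁻¹ = b * x⁻¹ by group,
          show x⁻¹ * (b * x) * x⁻¹ = x⁻¹ * b by group] at h1
        exact h1.symm }
  have hZn : Z.Normal := by
    refine ⟨?_⟩
    rintro z ⟨hz, hz'⟩ g
    refine ⟨hB.conj_mem z hz g, fun b hb => ?_⟩
    have h2 : g⁻¹ * b * g ∈ B := by
      have := hB.conj_mem b hb g⁻¹
      rwa [inv_inv] at this
    have h1 := congrArg (fun T => φ g * T * φ g⁻¹) (hz' _ h2)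
    rw [← map_mul, ← map_mul, ← map_mul, ← map_mul, ← map_mul, ← map_mul] at h1
    rw [← map_mul, ← map_mul]
    rw [show g * (z * (g⁻¹ * b * g)) * g⁻¹ = g * z * g⁻¹ * b by group,
      show g * (g⁻¹ * b * g * z) * g⁻¹ = b * (g * z * g⁻¹) by group] at h1
    exact h1
  have hZ := scalar_of_comm φ hs Z (fun a ha b hb => ha.2 b hb.1)
  intro b hb
  obtain ⟨v0, hv0⟩ := exists_ne (0 : V)
  have hne : ∀ x : X, φ x ≠ 0 := by
    intro x h
    apply app_ne φ x hv0
    rw [h, LinearMap.zero_apply]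
  have hinv1 : ∀ x : X, φ x * φ x⁻¹ = 1 := fun x => by rw [← map_mul, mul_inv_cancel, map_one]
  have hinv2 : ∀ x : X, φ x⁻¹ * φ x = 1 := fun x => by rw [← map_mul, inv_mul_cancel, map_one]
  have hcj : ∀ x y : X, φ (x * y * x⁻¹) = φ x * φ y * φ x⁻¹ := fun x y => by
    rw [map_mul, map_mul]
  let Ad : X → Module.End K (Module.End K V) := fun x =>
    { toFun := fun T => φ x * T * φ x⁻¹
      map_add' := by
        intro S T
        rw [mul_add, add_mul]
      map_smul' := by
        intro c T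
        rw [mul_smul_comm, smul_mul_assoc]; rfl }
  have hAd : ∀ x y : X, Ad x (φ y) = φ (x * y * x⁻¹) := fun x y => (hcj x y).symm
  have hw : ∀ g : X, ∀ x : ↥B, ∃ c : K, Ad x.1 (φ (g * b * g⁻¹)) = c • φ (g * b * g⁻¹) := by
    intro g x
    obtain ⟨c, hc⟩ := hc x.1 x.2 (g * b * g⁻¹) (hB.conj_mem b hb g)
    refine ⟨c, ?_⟩
    rw [hAd]
    ext v
    have h1 : x.1 * (g * b * g⁻¹) * (x.1)⁻¹ = ⁅x.1, g * b * g⁻¹⁆ * (g * b * g⁻¹) := by
      rw [commutatorElement_def]; group
    rw [h1, map_mul, Module.End.mul_apply, hc, LinearMap.smul_apply]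
  choose w hw using hw
  have hfin : (Set.range w).Finite := by
    refine (finite_weights (fun x : ↥B => Ad x.1)).subset ?_
    rintro _ ⟨g, rfl⟩
    exact ⟨φ (g * b * g⁻¹), hne _, fun x => hw g x⟩
  have hstep : ∀ g k : X, w g = w k → ∃ ζ : K, φ (k * b * k⁻¹) = ζ • φ (g * b * g⁻¹) := by
    intro g k hgk
    set P := g * b * g⁻¹ with hP
    set R := k * b * k⁻¹ with hR
    have hPB : P ∈ B := hB.conj_mem b hb g
    have hRB : R ∈ B := hB.conj_mem b hb k
    have hz : P⁻¹ * R ∈ Z := by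
      refine ⟨B.mul_mem (B.inv_mem hPB) hRB, fun x hx => ?_⟩
      have e1 : φ (x * P * x⁻¹) = w g ⟨x, hx⟩ • φ P := by
        rw [← hAd]; exact hw g ⟨x, hx⟩
      have e2 : φ (x * R * x⁻¹) = w g ⟨x, hx⟩ • φ R := by
        rw [← hAd, hgk]; exact hw k ⟨x, hx⟩
      have e3 : φ (x * P * x⁻¹) * φ (x * (P⁻¹ * R) * x⁻¹) =
          φ (x * P * x⁻¹) * φ (P⁻¹ * R) := by
        rw [← map_mul, show x * P * x⁻¹ * (x * (P⁻¹ * R) * x⁻¹) = x * R * x⁻¹ by group, e2, e1,
          smul_mul_assoc, ← map_mul, mul_inv_cancel_left]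
      have e4 : φ (x * (P⁻¹ * R) * x⁻¹) = φ (P⁻¹ * R) := by
        have h1 := congrArg (fun T => φ (x * P * x⁻¹)⁻¹ * T) e3
        simp only [← mul_assoc] at h1
        rw [hinv2, one_mul, one_mul] at h1
        simpa only [mul_assoc] using h1
      calc φ (P⁻¹ * R) * φ x = φ (x * (P⁻¹ * R) * x⁻¹) * φ x := by rw [e4]
        _ = φ x * φ (P⁻¹ * R) := by
          rw [← map_mul, ← map_mul]; congr 1; group
    obtain ⟨ζ, hζ⟩ := hZ _ hz
    refine ⟨ζ, ?_⟩
    ext v
    rw [show R = P * (P⁻¹ * R) by group, map_mul, Module.End.mul_apply, hζ, map_smul,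
      LinearMap.smul_apply]
  let Y : Subgroup X :=
    { carrier := {x | ∃ ζ : K, φ (x * b * x⁻¹) = ζ • φ b}
      mul_mem' := by
        rintro x y ⟨c, hc⟩ ⟨d, hd⟩
        refine ⟨d * c, ?_⟩
        rw [show x * y * b * (x * y)⁻¹ = x * (y * b * y⁻¹) * x⁻¹ by group, hcj, hd,
          mul_smul_comm, smul_mul_assoc, ← hcj, hc, smul_smul]
      one_mem' := ⟨1, by rw [one_mul, inv_one, mul_one, one_smul]⟩
      inv_mem' := by
        rintro x ⟨c, hc⟩
        have hc0 : c ≠ 0 := by
          rintro rfl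
          rw [zero_smul] at hc
          exact hne _ hc
        refine ⟨c⁻¹, ?_⟩
        have h1 : φ b = c • φ (x⁻¹ * b * x⁻¹⁻¹) := by
          rw [hcj, ← smul_mul_assoc, ← mul_smul_comm, ← hc, hcj, inv_inv]
          rw [← map_mul, ← map_mul, ← map_mul, ← map_mul]
          congr 1
          group
        rw [h1, smul_smul, inv_mul_cancel₀ hc0, one_smul] }
  have hY : Y.FiniteIndex := by
    refine finiteIndex_of_fin Y w hfin (fun g k hgk => ?_)
    obtain ⟨ζ, hζ⟩ := hstep g k hgk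
    refine ⟨ζ, ?_⟩
    rw [show g⁻¹ * k * b * (g⁻¹ * k)⁻¹ = g⁻¹ * (k * b * k⁻¹) * g⁻¹⁻¹ by group, hcj, hζ,
      mul_smul_comm, smul_mul_assoc, ← hcj]
    congr 2
    group
  let Y' : Subgroup X :=
    { carrier := {x | φ (x * b * x⁻¹) = φ b}
      mul_mem' := by
        intro x y hx hy
        change φ (x * b * x⁻¹) = φ b at hx
        change φ (y * b * y⁻¹) = φ b at hy
        change φ (x * y * b * (x * y)⁻¹) = φ b
        rw [show x * y * b * (x * y)⁻¹ = x * (y * b * y⁻¹) * x⁻¹ by group, hcj, hy, ← hcj, hx]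
      one_mem' := by
        change φ (1 * b * 1⁻¹) = φ b
        rw [one_mul, inv_one, mul_one]
      inv_mem' := by
        intro x hx
        change φ (x * b * x⁻¹) = φ b at hx
        have h1 : φ x⁻¹ * φ b * φ x⁻¹⁻¹ = φ x⁻¹ * φ (x * b * x⁻¹) * φ x⁻¹⁻¹ := by rw [hx]
        change φ (x⁻¹ * b * x⁻¹⁻¹) = φ b
        rw [hcj, h1, ← hcj]
        congr 1
        group }
  obtain ⟨μ, hμ⟩ := Module.End.exists_eigenvalue (φ b)
  obtain ⟨v, hv⟩ := hμ.exists_hasEigenvector
  have hv1 : φ b v = μ • v := hv.apply_eq_smul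
  have hv2 : v ≠ 0 := hv.2
  have hμ0 : μ ≠ 0 := by
    rintro rfl
    rw [zero_smul] at hv1
    exact app_ne φ b hv2 hv1
  have hYY : Y' ≤ Y := fun x hx => ⟨1, by rw [one_smul]; exact hx⟩
  have hrel : (Y'.subgroupOf Y).FiniteIndex := by
    choose ζ hζ using fun x : ↥Y => x.2
    refine finiteIndex_of_fin _ (fun x : ↥Y => fun _ : Unit => ζ x * μ) ?_ ?_
    · refine (finite_weights (fun _ : Unit => φ b)).subset ?_
      rintro _ ⟨x, rfl⟩
      refine ⟨φ (x.1)⁻¹ v, app_ne φ _ hv2, fun _ => ?_⟩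
      change φ b (φ (x.1)⁻¹ v) = (ζ x * μ) • φ (x.1)⁻¹ v
      have h1 : φ b (φ (x.1)⁻¹ v) = φ (x.1)⁻¹ (φ (x.1 * b * (x.1)⁻¹) v) := by
        rw [← Module.End.mul_apply, ← Module.End.mul_apply, ← map_mul, ← map_mul]
        congr 2
        group
      rw [h1, hζ x, LinearMap.smul_apply, hv1, smul_smul, map_smul]
    · intro g k hgk
      have h1 : ζ g = ζ k := mul_right_cancel₀ hμ0 (congrFun hgk ())
      change φ ((g.1)⁻¹ * k.1 * b * ((g.1)⁻¹ * k.1)⁻¹) = φ b
      rw [show (g.1)⁻¹ * k.1 * b * ((g.1)⁻¹ * k.1)⁻¹ = (g.1)⁻¹ * (k.1 * b * (k.1)⁻¹) * (g.1)⁻¹⁻¹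
        by group, hcj, hζ k, ← h1, ← hζ g, ← hcj]
      congr 1
      group
  have hY' : Y'.FiniteIndex := by
    refine ⟨?_⟩
    rw [← Subgroup.relIndex_mul_index hYY]
    exact mul_ne_zero hrel.index_ne_zero hY.index_ne_zero
  let W : Submodule K V :=
    { carrier := {u | φ b u = μ • u}
      add_mem' := by
        intro x y hx hy
        change φ b x = μ • x at hx
        change φ b y = μ • y at hy
        change φ b (x + y) = μ • (x + y)
        rw [map_add, hx, hy, smul_add]
      zero_mem' := by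
        change φ b 0 = μ • (0 : V)
        rw [map_zero, smul_zero]
      smul_mem' := by
        intro c x hx
        change φ b x = μ • x at hx
        change φ b (c • x) = μ • (c • x)
        rw [map_smul, hx, smul_comm] }
  have hW : W = ⊤ := by
    refine hs Y' hY' W ?_ ?_
    · rw [Submodule.ne_bot_iff]
      exact ⟨v, hv1, hv2⟩
    · intro x hx u hu
      change φ b u = μ • u at hu
      change φ b (φ x u) = μ • φ x u
      have h1 : φ (x⁻¹ * b * x⁻¹⁻¹) = φ b := Y'.inv_mem hx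
      have h2 : φ b (φ x u) = φ x (φ (x⁻¹ * b * x⁻¹⁻¹) u) := by
        rw [← Module.End.mul_apply, ← Module.End.mul_apply, ← map_mul, ← map_mul]
        congr 2
        group
      rw [h2, h1, hu, map_smul]
  refine ⟨μ, fun u => ?_⟩
  have : u ∈ W := by rw [hW]; exact Submodule.mem_top
  exact this

theorem scalar_all [IsAlgClosed K] [Nontrivial V] (φ : X →* Module.End K V) (hs : Strong φ)
    (m : ℕ) (h : ∀ b ∈ derivedSeries X m, ∃ c : K, ∀ v, φ b v = c • v) :
    ∀ b : X, ∃ c : K, ∀ v, φ b v = c • v := by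
  induction m with
  | zero =>
    intro b
    refine h b ?_
    rw [derivedSeries_zero]
    exact Subgroup.mem_top b
  | succ m ih =>
    refine ih (scalar_step φ hs (derivedSeries X m) (fun a ha b hb => h _ ?_))
    exact Subgroup.commutator_mem_commutator ha hb

/-- soluble linear groups over algebraically closed fields: a finite index subgroup whose
commutators fix a common nonzero vector -/
theorem exists_comm_fixed [IsAlgClosed K] [Nontrivial V] [Group.IsSolvable X]
    (Φ : X →* Module.End K V) :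
    ∃ H : Subgroup X, H.FiniteIndex ∧ ∃ v : V, v ≠ 0 ∧ ∀ a ∈ H, ∀ b ∈ H, Φ ⁅a, b⁆ v = v := by
  classical
  have hex : ∃ n, ∃ H : Subgroup X, ∃ W : Submodule K V, H.FiniteIndex ∧ W ≠ ⊥ ∧
      (∀ x ∈ H, ∀ w ∈ W, Φ x w ∈ W) ∧ finrank K W = n :=
    ⟨_, ⊤, ⊤, inferInstance, top_ne_bot, fun _ _ _ _ => Submodule.mem_top, rfl⟩
  obtain ⟨H, W, hH, hW, hinv, hn⟩ := Nat.find_spec hex
  have hWn : Nontrivial W := Submodule.nontrivial_iff_ne_bot.2 hW
  let φ : ↥H →* Module.End K W :=
    { toFun := fun x => (Φ x.1).restrict (hinv x.1 x.2)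
      map_one' := by
        ext w
        change Φ (1 : X) w.1 = w.1
        rw [map_one]; rfl
      map_mul' := by
        intro x y
        ext w
        change Φ (x.1 * y.1) w.1 = Φ x.1 (Φ y.1 w.1)
        rw [map_mul]; rfl }
  have hs : Strong φ := by
    intro Y hY U hU hYU
    have h1 : (Y.map H.subtype).FiniteIndex := by
      refine ⟨?_⟩
      rw [Subgroup.index_map_subtype]
      exact mul_ne_zero hY.index_ne_zero hH.index_ne_zero
    have h2 : U.map W.subtype ≠ ⊥ := by
      rw [Submodule.ne_bot_iff] at hU ⊢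
      obtain ⟨u, hu, hu0⟩ := hU
      exact ⟨u.1, ⟨u, hu, rfl⟩, fun h => hu0 (Subtype.ext h)⟩
    have h3 : finrank K W ≤ finrank K U := by
      rw [hn, ← Submodule.finrank_map_subtype_eq W U]
      refine Nat.find_min' hex ⟨Y.map H.subtype, U.map W.subtype, h1, h2, ?_, rfl⟩
      rintro _ ⟨x, hx, rfl⟩ _ ⟨u, hu, rfl⟩
      exact ⟨φ x u, hYU x hx u hu, rfl⟩
    exact Submodule.eq_top_of_finrank_eq (le_antisymm (Submodule.finrank_le U) h3)
  obtain ⟨m, hm⟩ := (Group.isSolvable_def ↥H).1 inferInstance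
  have hall := scalar_all φ hs m (fun b hb => by
    rw [hm, Subgroup.mem_bot] at hb
    exact ⟨1, fun v => by rw [hb, map_one, one_smul]; rfl⟩)
  refine ⟨H, hH, ?_⟩
  obtain ⟨w, hw, hw0⟩ := Submodule.exists_mem_ne_zero_of_ne_bot hW
  refine ⟨w, hw0, fun a ha b hb => ?_⟩
  have hcomm : ∀ u : W, φ ⟨a, ha⟩ (φ ⟨b, hb⟩ u) = φ ⟨b, hb⟩ (φ ⟨a, ha⟩ u) := by
    intro u
    obtain ⟨c, hc⟩ := hall ⟨a, ha⟩
    obtain ⟨d, hd⟩ := hall ⟨b, hb⟩
    rw [hc, hd, hc, hd, smul_comm]
  have h4 : φ ⁅(⟨a, ha⟩ : ↥H), ⟨b, hb⟩⁆ ⟨w, hw⟩ = ⟨w, hw⟩ := by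
    rw [commutatorElement_def, map_mul, map_mul, map_mul, Module.End.mul_apply,
      Module.End.mul_apply, Module.End.mul_apply, hcomm, app_inv', app_inv']
  exact congrArg Subtype.val h4

end irred

end Pool.TFL
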