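import Mathlib
import Pool.Agent.TFL.MalA

/-!
# Torsion-free soluble groups of finite rank: an abelian normal subgroup centralised by the
derived subgroup of a subgroup of finite index
-/

set_option autoImplicit false

namespace Pool.TFL

open Cardinal Module Pool.TFR Pool.TFN
open scoped commutatorElement TensorProduct

/-- fixed vectors in a torsion-free abelian group of finite rank -/
theorem exists_fixed {A : Type} [AddCommGroup A] [Nontrivial A] (hr : Module.rank ℤ A < ℵ₀)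
    (htf : TF A) {Q : Type} [Group Q] [Group.IsSolvable Q] (ρ : Q →* Module.End ℤ A) :
    ∃ H : Subgroup Q, H.FiniteIndex ∧ ∃ a : A, a ≠ 0 ∧
      ∀ x ∈ H, ∀ y ∈ H, ρ ⁅x, y⁆ a = a := by
  classical
  have hU : Module.Finite ℚ (ℚ ⊗[ℤ] A) := by
    obtain ⟨ι, hι, v, hv⟩ := exists_family hr
    refine ⟨⟨Finset.univ.image (fun i => (1 : ℚ) ⊗ₜ[ℤ] v i), ?_⟩⟩
    rw [eq_top_iff]
    rintro u -
    induction u using TensorProduct.induction_on with
    | zero => exact Submodule.zero_mem _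
    | add x y hx hy => exact Submodule.add_mem _ hx hy
    | tmul q a =>
      obtain ⟨n, hn, hna⟩ := hv a
      have h1 : ∀ b ∈ Submodule.span ℤ (Set.range v), (1 : ℚ) ⊗ₜ[ℤ] b ∈
          Submodule.span ℚ (↑(Finset.univ.image (fun i => (1 : ℚ) ⊗ₜ[ℤ] v i)) :
            Set (ℚ ⊗[ℤ] A)) := by
        intro b hb
        induction hb using Submodule.span_induction with
        | mem x hx =>
          obtain ⟨i, rfl⟩ := hx
          exact Submodule.subset_span (by simp)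
        | zero => rw [TensorProduct.tmul_zero]; exact Submodule.zero_mem _
        | add x y _ _ hx hy => rw [TensorProduct.tmul_add]; exact Submodule.add_mem _ hx hy
        | smul c x _ hx =>
          rw [TensorProduct.tmul_smul]
          exact zsmul_mem hx c
      have h2 : q ⊗ₜ[ℤ] a = (q / n) • ((1 : ℚ) ⊗ₜ[ℤ] (n • a)) := by
        have hn' : (n : ℚ) ≠ 0 := Int.cast_ne_zero.2 hn
        rw [TensorProduct.smul_tmul', smul_eq_mul, mul_one, TensorProduct.tmul_smul,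
          TensorProduct.smul_tmul', zsmul_eq_mul, mul_div_cancel₀ _ hn']
      rw [h2]
      exact Submodule.smul_mem _ _ (h1 _ hna)
  have hloc : IsLocalizedModule (nonZeroDivisors ℤ) (TensorProduct.mk ℤ ℚ A 1) := inferInstance
  have hinj : ∀ a b : A, (1 : ℚ) ⊗ₜ[ℤ] a = (1 : ℚ) ⊗ₜ[ℤ] b → a = b := by
    intro a b hab
    obtain ⟨c, hc⟩ := hloc.exists_of_eq (x₁ := a) (x₂ := b) hab
    rw [Submonoid.smul_def, Submonoid.smul_def, ← sub_eq_zero, ← smul_sub] at hc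
    exact sub_eq_zero.1 (htf _ (nonZeroDivisors.coe_ne_zero c) _ hc)
  let K := AlgebraicClosure ℚ
  let ℬ := Basis.ofVectorSpace ℚ K
  let e := TensorProduct.equivFinsuppOfBasisLeft (N := ℚ ⊗[ℤ] A) ℬ
  have hV : Nontrivial (K ⊗[ℚ] (ℚ ⊗[ℤ] A)) := by
    obtain ⟨a, ha⟩ := exists_ne (0 : A)
    refine ⟨⟨(1 : K) ⊗ₜ[ℚ] ((1 : ℚ) ⊗ₜ[ℤ] a), 0, fun h => ?_⟩⟩
    have h1 : ∀ i, ℬ.repr (1 : K) i • ((1 : ℚ) ⊗ₜ[ℤ] a) = 0 := by
      intro i
      rw [← TensorProduct.equivFinsuppOfBasisLeft_apply_tmul_apply, h, map_zero]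
      rfl
    have h2 : ((1 : ℚ) ⊗ₜ[ℤ] a) ≠ 0 := by
      intro h3
      refine ha (hinj a 0 ?_)
      rw [h3, TensorProduct.tmul_zero]
    have h3 : ℬ.repr (1 : K) = 0 := by
      ext i
      exact (smul_eq_zero.1 (h1 i)).resolve_right h2
    exact one_ne_zero ((LinearEquiv.map_eq_zero_iff _).1 h3)
  let ρU : Q →* Module.End ℚ (ℚ ⊗[ℤ] A) :=
    ((Module.End.baseChangeHom ℤ ℚ A : Module.End ℤ A →ₐ[ℤ] _) : Module.End ℤ A →* _).comp ρ
  let Φ : Q →* Module.End K (K ⊗[ℚ] (ℚ ⊗[ℤ] A)) :=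
    ((Module.End.baseChangeHom ℚ K (ℚ ⊗[ℤ] A) : _ →ₐ[ℚ] _) :
      Module.End ℚ (ℚ ⊗[ℤ] A) →* _).comp ρU
  obtain ⟨H, hH, z, hz, hfix⟩ := exists_comm_fixed Φ
  have hez : e z ≠ 0 := fun h => hz ((LinearEquiv.map_eq_zero_iff _).1 h)
  obtain ⟨i, hi⟩ : ∃ i, e z i ≠ 0 := by
    by_contra hcon
    push Not at hcon
    exact hez (Finsupp.ext hcon)
  have hcomm : ∀ (T : Module.End ℚ (ℚ ⊗[ℤ] A)) (w : K ⊗[ℚ] (ℚ ⊗[ℤ] A)),
      e (T.baseChange K w) i = T (e w i) := by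
    intro T w
    induction w using TensorProduct.induction_on with
    | zero => rw [map_zero, map_zero]; exact (map_zero T).symm
    | add x y hx hy => rw [map_add, map_add, map_add, Finsupp.add_apply, hx, hy,
        Finsupp.add_apply, map_add]
    | tmul k u =>
      rw [LinearMap.baseChange_tmul]
      change (TensorProduct.equivFinsuppOfBasisLeft ℬ) (k ⊗ₜ[ℚ] T u) i =
        T ((TensorProduct.equivFinsuppOfBasisLeft ℬ) (k ⊗ₜ[ℚ] u) i)
      rw [TensorProduct.equivFinsuppOfBasisLeft_apply_tmul_apply,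
        TensorProduct.equivFinsuppOfBasisLeft_apply_tmul_apply, map_smul]
  have hfixU : ∀ x ∈ H, ∀ y ∈ H, ρU ⁅x, y⁆ (e z i) = e z i := by
    intro x hx y hy
    rw [← hcomm]
    have h1 : (ρU ⁅x, y⁆).baseChange K z = z := hfix x hx y hy
    rw [h1]
  obtain ⟨⟨a, c⟩, hac⟩ := hloc.surj (e z i)
  have hac' : (c : ℤ) • (e z i) = (1 : ℚ) ⊗ₜ[ℤ] a := hac
  refine ⟨H, hH, a, ?_, fun x hx y hy => hinj _ _ ?_⟩
  · rintro rfl
    rw [TensorProduct.tmul_zero, ← Int.cast_smul_eq_zsmul ℚ] at hac'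
    exact hi ((smul_eq_zero.1 hac').resolve_left
      (Int.cast_ne_zero.2 (nonZeroDivisors.coe_ne_zero c)))
  · have h1 : ρU ⁅x, y⁆ ((1 : ℚ) ⊗ₜ[ℤ] a) = (1 : ℚ) ⊗ₜ[ℤ] (ρ ⁅x, y⁆ a) :=
      LinearMap.baseChange_tmul _ _ _
    rw [← h1, ← hac', ← Int.cast_smul_eq_zsmul ℚ, map_smul, hfixU x hx y hy]

/-- **Mal'cev's lemma in the form needed here.** -/
theorem mal (Λ : Type) [Group Λ] [Group.IsSolvable Λ] (hr : r0 Λ < ℵ₀) (hno : NoTor Λ)
    (hnt : Nontrivial Λ) : Mal Λ := by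
  classical
  have hex : ∃ n, derivedSeries Λ n = ⊥ := (Group.isSolvable_def Λ).1 inferInstance
  have hn := Nat.find_spec hex
  obtain ⟨m, hm⟩ : ∃ m, Nat.find hex = m + 1 := by
    refine Nat.exists_eq_succ_of_ne_zero (fun h => ?_)
    rw [h, derivedSeries_zero] at hn
    exact top_ne_bot hn
  have hN : derivedSeries Λ m ≠ ⊥ := Nat.find_min hex (by omega)
  rw [hm] at hn
  have hcN : ∀ a ∈ derivedSeries Λ m, ∀ b ∈ derivedSeries Λ m, a * b = b * a := by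
    intro a ha b hb
    have h1 : ⁅a, b⁆ ∈ derivedSeries Λ (m + 1) := Subgroup.commutator_mem_commutator ha hb
    rw [hn, Subgroup.mem_bot, commutatorElement_eq_one_iff_mul_comm] at h1
    exact h1
  have hNn : (derivedSeries Λ m).Normal := inferInstance
  generalize derivedSeries Λ m = N at hN hcN hNn
  let _ : CommGroup ↥N := cg ↥N (fun a b => Subtype.ext (hcN a.1 a.2 b.1 b.2))
  have htf : TF (Additive ↥N) := by
    intro k hk x hkx
    have h1 : x.toMul ^ k = 1 := hkx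
    have h2 : x.toMul ^ k.natAbs = 1 := by
      rcases Int.natAbs_eq k with h7 | h7
      · rw [h7, zpow_natCast] at h1
        exact h1
      · rw [h7, zpow_neg, zpow_natCast, inv_eq_one] at h1
        exact h1
    have h3 : (x.toMul).1 ^ k.natAbs = 1 := congrArg Subtype.val h2
    have h4 := noTor_abelian hno N hcN _ (x.toMul).2 k.natAbs (Int.natAbs_pos.2 hk) h3
    exact Subtype.ext h4
  have hra : Module.rank ℤ (Additive ↥N) < ℵ₀ := by
    have h1 : r0 ↥N = ra ↥N := r0_comm ↥N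
    change ra ↥N < ℵ₀
    rw [← h1]
    exact lt_of_le_of_lt (r0_subgroup_le N) hr
  have hntN : Nontrivial (Additive ↥N) := by
    obtain ⟨x, hx⟩ := Subgroup.ne_bot_iff_exists_ne_one.1 hN
    exact ⟨⟨Additive.ofMul x, 0, fun h => hx h⟩⟩
  let ρ : Λ →* Module.End ℤ (Additive ↥N) :=
    { toFun := fun g => AddMonoidHom.toIntLinearMap
        (MonoidHom.toAdditive ((MulAut.conjNormal g : ↥N ≃* ↥N) : ↥N →* ↥N))
      map_one' := by
        ext x
        change ((MulAut.conjNormal (1 : Λ) : ↥N ≃* ↥N) x.toMul).1 = (x.toMul).1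
        rw [map_one]; rfl
      map_mul' := by
        intro g h
        ext x
        change ((MulAut.conjNormal (g * h) : ↥N ≃* ↥N) x.toMul).1 =
          ((MulAut.conjNormal g : ↥N ≃* ↥N) ((MulAut.conjNormal h : ↥N ≃* ↥N) x.toMul)).1
        rw [map_mul]; rfl }
  obtain ⟨H, hH, a, ha, hfix⟩ := exists_fixed hra htf ρ
  let Q1 := H.normalCore
  have hQ1n : Q1.Normal := H.normalCore_normal
  have hQ1 : Q1.FiniteIndex := inferInstance
  let N0 : Subgroup Λ := N ⊓ Subgroup.centralizer {g | ∃ x ∈ Q1, ∃ y ∈ Q1, g = ⁅x, y⁆}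
  have hmem : ∀ n, n ∈ N0 ↔ n ∈ N ∧ ∀ x ∈ Q1, ∀ y ∈ Q1, ⁅x, y⁆ * n = n * ⁅x, y⁆ := by
    intro n
    refine ⟨fun h => ⟨h.1, fun x hx y hy => h.2 _ ⟨x, hx, y, hy, rfl⟩⟩, fun h => ⟨h.1, ?_⟩⟩
    rintro _ ⟨x, hx, y, hy, rfl⟩
    exact h.2 x hx y hy
  refine ⟨N0, ⟨?_⟩, ?_, fun x hx y hy => hcN x hx.1 y hy.1, Q1, hQ1n, hQ1,
    fun x hx y hy n hn => ((hmem n).1 hn).2 x hx y hy⟩
  · intro n hn g
    rw [hmem] at hn ⊢
    refine ⟨hNn.conj_mem n hn.1 g, fun x hx y hy => ?_⟩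
    have h1 : g⁻¹ * x * g ∈ Q1 := by
      have := hQ1n.conj_mem x hx g⁻¹
      rwa [inv_inv] at this
    have h2 : g⁻¹ * y * g ∈ Q1 := by
      have := hQ1n.conj_mem y hy g⁻¹
      rwa [inv_inv] at this
    have h3 := congrArg (fun t => g * t * g⁻¹) (hn.2 _ h1 _ h2)
    simp only [commutatorElement_def] at h3 ⊢
    calc x * y * x⁻¹ * y⁻¹ * (g * n * g⁻¹)
        = g * (g⁻¹ * x * g * (g⁻¹ * y * g) * (g⁻¹ * x * g)⁻¹ * (g⁻¹ * y * g)⁻¹ * n) * g⁻¹ := by
          group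
      _ = g * (n * (g⁻¹ * x * g * (g⁻¹ * y * g) * (g⁻¹ * x * g)⁻¹ * (g⁻¹ * y * g)⁻¹)) * g⁻¹ := h3
      _ = g * n * g⁻¹ * (x * y * x⁻¹ * y⁻¹) := by group
  · intro h
    apply ha
    have h1 : (a.toMul).1 ∈ N0 := by
      rw [hmem]
      refine ⟨(a.toMul).2, fun x hx y hy => ?_⟩
      have h2 : ⁅x, y⁆ * (a.toMul).1 * ⁅x, y⁆⁻¹ = (a.toMul).1 :=
        congrArg (fun t : Additive ↥N => (t.toMul).1)
          (hfix x (H.normalCore_le hx) y (H.normalCore_le hy))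
      rw [mul_inv_eq_iff_eq_mul] at h2
      exact h2
    rw [h, Subgroup.mem_bot] at h1
    exact Subtype.ext h1

end Pool.TFL
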