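import Mathlib
import Pool.Agent.TFL.MalB
import Pool.Agent.TFN.StepZ

/-!
# The product formula when one factor acts as a locally polycyclic group
-/

set_option autoImplicit false

namespace Pool.TFL

open Cardinal Pool.TFR Pool.TFN
open scoped commutatorElement

/-- the derivation theorem for locally polycyclic actions -/
theorem der_L {p : ℕ} [Fact p.Prime] {Q M : Type} [Group Q] [AddCommGroup M]
    [Group.IsSolvable Q] (hr : r0 Q < ℵ₀) (D : Der Q M) (hpM : ∀ m : M, p • m = 0)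
    (hLM : LM (Q ⧸ D.ρ.ker)) (hs : Function.Surjective D.π) :
    r0 Q = r0 ↥(D.stab D.inv_bot) := by
  have htriv : ∀ x, D.ρ x = 1 → (D.quot D.inv_kerVal).ρ x = 1 ∧
      (D.quot D.inv_kerVal).π x = 0 := by
    intro x hx
    constructor
    · refine LinearMap.ext (fun y => ?_)
      obtain ⟨m, rfl⟩ := Submodule.Quotient.mk_surjective _ y
      change Submodule.Quotient.mk (D.ρ x m) = Submodule.Quotient.mk m
      rw [hx]; rfl
    · change Submodule.Quotient.mk (D.π x) = 0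
      rw [Submodule.Quotient.mk_eq_zero]
      exact ⟨x, hx, rfl⟩
  have hpM' : ∀ m : M ⧸ D.kerVal, p • m = 0 := by
    intro m
    obtain ⟨m, rfl⟩ := Submodule.Quotient.mk_surjective _ m
    rw [← Submodule.Quotient.mk_smul, hpM]; rfl
  let g : Q →* Q ⧸ D.ρ.ker := QuotientGroup.mk' D.ρ.ker
  have hg : Function.Surjective g := QuotientGroup.mk'_surjective _
  have hgk : ∀ x, g x = 1 → D.ρ x = 1 := fun x hx => (QuotientGroup.eq_one_iff x).1 hx
  have hDP : DP p (Q ⧸ D.ρ.ker) := by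
    obtain ⟨n, hn⟩ := Cardinal.lt_aleph0.1 (lt_of_le_of_lt (r0_le_of_surjective g hg) hr)
    refine dp_of_LM mal (n + 1) (Q ⧸ D.ρ.ker) hLM ?_
    rw [hn]
    exact_mod_cast Nat.lt_succ_self n
  have h1 := descent (D.quot D.inv_kerVal) hpM' (D.quot_surj D.inv_kerVal hs) g hg
    (fun x hx => (htriv x (hgk x hx)).1) (fun x hx => (htriv x (hgk x hx)).2) hDP
  have h2 : (D.quot D.inv_kerVal).stab (D.quot D.inv_kerVal).inv_bot = D.stab D.inv_kerVal :=
    D.r0_quot_stab_bot D.inv_kerVal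
  rw [h2, D.r0_stab_kerVal] at h1
  have h3 : Module.rank ℤ D.kerVal = 0 := by
    rw [rank_eq_zero_iff]
    intro x
    refine ⟨(p : ℤ), by exact_mod_cast (Fact.out : p.Prime).ne_zero, Subtype.ext ?_⟩
    change (p : ℤ) • x.1 = 0
    rw [natCast_zsmul]
    exact hpM x.1
  rw [h3, add_zero] at h1
  exact h1

/-- transport of the condition on subgroups -/
theorem LM_of {G H Λ : Type} [Group G] [Group H] [Group Λ] (f : G →* H) (A : Subgroup G)
    (Q : Subgroup H) (hQ : Q ≤ A.map f) (θ : ↥Q →* Λ) (hθ : Function.Surjective θ)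
    (P : G → Prop)
    (hA : ∀ Y K : Subgroup G, Y ≤ A → Y.FG → K ≤ Y → ∃ K0 : Subgroup G, K0.FG ∧ K0 ≤ K ∧
      ∀ k ∈ K, ∃ k0 ∈ K0, P (k0⁻¹ * k))
    (hP : ∀ (g : G) (q : ↥Q), f g = q.1 → P g → θ q = 1) : LM Λ := by
  intro X' K' hX' hK'
  obtain ⟨X, hX, hXX'⟩ := exists_fg_lift θ hθ hX'
  have h1 : (X.map Q.subtype).FG := fg_map _ hX
  -- lift to `A`
  have h2 : ∃ Y : Subgroup G, Y.FG ∧ Y ≤ A ∧ Y.map f = X.map Q.subtype := by
    have h3 : ((X.map Q.subtype).subgroupOf (A.map f)).FG := by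
      refine fg_of_map_subtype ?_
      rw [Subgroup.subgroupOf_map_subtype, inf_eq_left.2]
      · exact h1
      · rintro _ ⟨x, -, rfl⟩
        exact hQ x.2
    obtain ⟨Y, hY, hYX⟩ := exists_fg_lift (f.subgroupMap A) (f.subgroupMap_surjective A) h3
    refine ⟨Y.map A.subtype, fg_map _ hY, ?_, ?_⟩
    · rintro _ ⟨y, -, rfl⟩
      exact y.2
    · ext z
      constructor
      · rintro ⟨_, ⟨y, hy, rfl⟩, rfl⟩
        have h4 : f.subgroupMap A y ∈ (X.map Q.subtype).subgroupOf (A.map f) := by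
          rw [← hYX]
          exact ⟨y, hy, rfl⟩
        exact h4
      · intro hz
        have hzA : z ∈ A.map f := by
          obtain ⟨x, -, rfl⟩ := hz
          exact hQ x.2
        have h4 : (⟨z, hzA⟩ : ↥(A.map f)) ∈ (X.map Q.subtype).subgroupOf (A.map f) := hz
        rw [← hYX] at h4
        obtain ⟨y, hy, hyz⟩ := h4
        exact ⟨y.1, ⟨y, hy, rfl⟩, congrArg Subtype.val hyz⟩
  obtain ⟨Y, hY, hYA, hYX⟩ := h2
  let K : Subgroup G :=
    { carrier := {y | y ∈ Y ∧ ∃ q : ↥Q, f y = q.1 ∧ θ q ∈ K'}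
      mul_mem' := by
        rintro a b ⟨ha, q, hq, hq'⟩ ⟨hb, r, hr, hr'⟩
        exact ⟨Y.mul_mem ha hb, q * r, by rw [map_mul, hq, hr]; rfl,
          by rw [map_mul]; exact K'.mul_mem hq' hr'⟩
      one_mem' := ⟨Y.one_mem, 1, by rw [map_one]; rfl, by rw [map_one]; exact K'.one_mem⟩
      inv_mem' := by
        rintro a ⟨ha, q, hq, hq'⟩
        exact ⟨Y.inv_mem ha, q⁻¹, by rw [map_inv, hq]; rfl,
          by rw [map_inv]; exact K'.inv_mem hq'⟩ }
  obtain ⟨K0, hK0, hK0K, hK0'⟩ := hA Y K hYA hY (fun y hy => hy.1)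
  have hK0Q : K0.map f ≤ Q := by
    rintro _ ⟨k, hk, rfl⟩
    obtain ⟨-, q, hq, -⟩ := hK0K hk
    rw [hq]
    exact q.2
  have h5 : ((K0.map f).subgroupOf Q).FG := by
    refine fg_of_map_subtype ?_
    rw [Subgroup.subgroupOf_map_subtype, inf_eq_left.2 hK0Q]
    exact fg_map _ hK0
  have h6 : ((K0.map f).subgroupOf Q).map θ = K' := by
    ext z
    constructor
    · rintro ⟨q, ⟨k, hk, hkq⟩, rfl⟩
      obtain ⟨-, q', hq', hq''⟩ := hK0K hk
      have h7 : q = q' := Subtype.ext (hkq.symm.trans hq')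
      rw [h7]
      exact hq''
    · intro hz
      have hz' : z ∈ X' := hK' hz
      rw [← hXX'] at hz'
      obtain ⟨q, hq, rfl⟩ := hz'
      have hq' : q.1 ∈ Y.map f := by
        rw [hYX]
        exact ⟨q, hq, rfl⟩
      obtain ⟨y, hy, hyq⟩ := hq'
      obtain ⟨k0, hk0, hP0⟩ := hK0' y ⟨hy, q, hyq, hz⟩
      obtain ⟨-, q0, hq0, -⟩ := hK0K hk0
      refine ⟨q0, ⟨k0, hk0, hq0⟩, ?_⟩
      have h8 : θ (q0⁻¹ * q) = 1 := by
        refine hP (k0⁻¹ * y) (q0⁻¹ * q) ?_ hP0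
        rw [map_mul, map_inv, hq0, hyq]
        rfl
      rw [map_mul, map_inv, inv_mul_eq_one] at h8
      exact h8
  rw [← h6]
  exact fg_map _ h5

theorem reduceL {p : ℕ} [Fact p.Prime] {G : Type} [Group G] [Group.IsSolvable G]
    (hr : r0 G < ℵ₀)
    (N : Subgroup G) [hN : N.Normal] (hc : ∀ x y : N, x * y = y * x) (hp : ∀ x ∈ N, x ^ p = 1)
    (A B : Subgroup G)
    (hLM : ∀ (Λ : Type) [Group Λ] (θ : ↥(A ⊓ (N ⊔ B)) →* Λ), Function.Surjective θ →
      (∀ q : ↥(A ⊓ (N ⊔ B)), (∀ n ∈ N, q.1 * n = n * q.1) → θ q = 1) → LM Λ)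
    (hAB : ∀ g : G, ∃ a ∈ A, ∃ b ∈ B, g = a * b) :
    r0 ↥(A ⊓ (N ⊔ B)) = r0 ↥(A ⊓ B) := by
  let _ : CommGroup ↥N := cg ↥N hc
  let B' : Subgroup ↥N := B.subgroupOf N
  let Q : Subgroup G := A ⊓ (N ⊔ B)
  let ρ₁ : ↥Q → (↥N ⧸ B' →* ↥N ⧸ B') := fun q =>
    QuotientGroup.map B' B' (MulAut.conjNormal q.1 : MulAut ↥N).toMonoidHom
      (fun x hx => conj_mem_inf N B hc q.2.2 x hx)
  have hρ₁ : ∀ (q : ↥Q) (x : ↥N), ρ₁ q (x : ↥N ⧸ B') =
      ((MulAut.conjNormal q.1 x : N) : ↥N ⧸ B') := fun q x => rfl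
  let E : Der ↥Q (Additive (↥N ⧸ B')) :=
    { ρ :=
        { toFun := fun q => (MonoidHom.toAdditive (ρ₁ q)).toIntLinearMap
          map_one' := by
            ext x
            obtain ⟨n, hn⟩ := QuotientGroup.mk_surjective (Additive.toMul x)
            have : x = Additive.ofMul ((n : ↥N ⧸ B')) := hn.symm
            rw [this]
            change Additive.ofMul (ρ₁ 1 (n : ↥N ⧸ B')) = Additive.ofMul ((n : ↥N ⧸ B'))
            rw [hρ₁]
            simp
          map_mul' := by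
            intro a b
            ext x
            obtain ⟨n, hn⟩ := QuotientGroup.mk_surjective (Additive.toMul x)
            have : x = Additive.ofMul ((n : ↥N ⧸ B')) := hn.symm
            rw [this]
            change Additive.ofMul (ρ₁ (a * b) (n : ↥N ⧸ B')) =
              Additive.ofMul (ρ₁ a (ρ₁ b (n : ↥N ⧸ B')))
            rw [hρ₁, hρ₁, hρ₁]
            simp }
      π := fun q => Additive.ofMul ((nPart N A B q : N) : ↥N ⧸ B')
      map_mul := by
        intro a b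
        obtain ⟨c, hc1, hc2⟩ := nPart_spec N A B a
        obtain ⟨d, hd1, hd2⟩ := nPart_spec N A B b
        change Additive.ofMul ((nPart N A B (a * b) : N) : ↥N ⧸ B') =
          Additive.ofMul (((nPart N A B a : N) : ↥N ⧸ B') *
            ρ₁ a ((nPart N A B b : N) : ↥N ⧸ B'))
        congr 1
        rw [hρ₁, ← QuotientGroup.mk_mul]
        refine nPart_eq N A B (a * b) _ (c * d) (B.mul_mem hc1 hd1) ?_
        rw [Subgroup.coe_mul, MulAut.conjNormal_apply]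
        change _ = a.1 * b.1
        have h1 : a.1 * (nPart N A B b : G) * a.1⁻¹ ∈ N := hN.conj_mem _ (nPart N A B b).2 a.1
        have h2 : (nPart N A B a : G) * (a.1 * (nPart N A B b : G) * a.1⁻¹) =
            (a.1 * (nPart N A B b : G) * a.1⁻¹) * (nPart N A B a : G) :=
          congrArg Subtype.val (hc (nPart N A B a) ⟨_, h1⟩)
        rw [h2]
        have h3 : a.1⁻¹ * (nPart N A B a : G) * c = 1 := by
          rw [mul_assoc, hc2]; group
        have h4 : (a.1 * (nPart N A B b : G) * a.1⁻¹) * (nPart N A B a : G) * (c * d) =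
            a.1 * (nPart N A B b : G) * (a.1⁻¹ * (nPart N A B a : G) * c) * d := by group
        rw [h4, h3, mul_one, mul_assoc, hd2] }
  have hEπ : ∀ q : ↥Q, E.π q = Additive.ofMul ((nPart N A B q : N) : ↥N ⧸ B') := fun _ => rfl
  have hs : Function.Surjective E.π := by
    intro m
    obtain ⟨n, hn⟩ := QuotientGroup.mk_surjective (Additive.toMul m)
    obtain ⟨a, ha, b, hb, hab⟩ := hAB n.1
    have hq : a ∈ Q := by
      refine ⟨ha, Subgroup.mem_sup_of_normal_left.2 ⟨n.1, n.2, b⁻¹, B.inv_mem hb, ?_⟩⟩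
      rw [hab]; group
    refine ⟨⟨a, hq⟩, ?_⟩
    rw [hEπ]
    have := nPart_eq N A B ⟨a, hq⟩ n b⁻¹ (B.inv_mem hb) (by rw [hab]; group)
    rw [this]
    exact hn
  have hQr : r0 ↥Q < ℵ₀ := lt_of_le_of_lt (r0_subgroup_le Q) hr
  -- elements acting trivially
  have htriv : ∀ q : ↥Q, (∀ n ∈ N, q.1 * n = n * q.1) → E.ρ q = 1 := by
    intro q hq
    refine LinearMap.ext (fun v => ?_)
    obtain ⟨n, hn⟩ := QuotientGroup.mk_surjective (Additive.toMul v)
    have hvn : v = Additive.ofMul ((n : ↥N ⧸ B')) := hn.symm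
    rw [hvn]
    change Additive.ofMul (ρ₁ q (n : ↥N ⧸ B')) = Additive.ofMul ((n : ↥N ⧸ B'))
    rw [hρ₁]
    have h5 : MulAut.conjNormal (q : G) n = n := by
      refine Subtype.ext ?_
      rw [MulAut.conjNormal_apply, hq n.1 n.2]; group
    rw [h5]
  have hform : r0 ↥Q = r0 ↥(E.stab E.inv_bot) := by
    refine der_L (p := p) hQr E ?_ ?_ hs
    · intro m
      obtain ⟨n, hn⟩ := QuotientGroup.mk_surjective (Additive.toMul m)
      have hvn : m = Additive.ofMul ((n : ↥N ⧸ B')) := hn.symm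
      rw [hvn]
      change Additive.ofMul (((n : ↥N ⧸ B')) ^ p) = 0
      rw [← QuotientGroup.mk_pow]
      have : n ^ p = 1 := Subtype.ext (by rw [Subgroup.coe_pow, hp n.1 n.2]; rfl)
      rw [this]
      rfl
    · refine hLM (↥Q ⧸ E.ρ.ker) (QuotientGroup.mk' E.ρ.ker) (QuotientGroup.mk'_surjective _)
        (fun q hq => ?_)
      exact (QuotientGroup.eq_one_iff q).2 (htriv q hq)
  have hst : r0 (E.stab E.inv_bot) = r0 ↥(A ⊓ B) := by
    refine r0_congr ?_
    have hk : ∀ q : ↥Q, q ∈ E.stab E.inv_bot ↔ q.1 ∈ B := by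
      intro q
      rw [E.mem_stab, Submodule.mem_bot, hEπ]
      obtain ⟨b, hb, hb'⟩ := nPart_spec N A B q
      constructor
      · intro h
        have h1 : nPart N A B q ∈ B' := (QuotientGroup.eq_one_iff _).1 h
        rw [← hb']
        exact B.mul_mem h1 hb
      · intro h
        have := nPart_eq N A B q 1 q.1 h (by simp)
        rw [this]; rfl
    exact
      { toFun := fun x => ⟨x.1.1, x.1.2.1, (hk _).1 x.2⟩
        invFun := fun x => ⟨⟨x.1, x.2.1, Subgroup.mem_sup_right x.2.2⟩, (hk _).2 x.2.2⟩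
        left_inv := fun x => rfl
        right_inv := fun x => rfl
        map_mul' := fun x y => rfl }
  rw [← hst]
  exact hform

/-- the condition on one factor: it acts on `N' / N` as a locally polycyclic group -/
def LocPoly {G : Type} [Group G] (N N' X : Subgroup G) : Prop :=
  ∀ Y K : Subgroup G, Y ≤ X → Y.FG → K ≤ Y → ∃ K0 : Subgroup G, K0.FG ∧ K0 ≤ K ∧
    ∀ k ∈ K, ∃ k0 ∈ K0, ∀ x ∈ N', ⁅k0⁻¹ * k, x⁆ ∈ N

/-- one step, with a condition on the first factor only -/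
theorem stepL {G : Type} [Group G] [Group.IsSolvable G] (hr : r0 G < ℵ₀)
    (T : Subgroup G) (hTt : IsTor T) (A B : Subgroup G)
    (hAB : ∀ g : G, ∃ a ∈ A, ∃ b ∈ B, g = a * b) (N : Subgroup G) (hN : N.Normal) (hNT : N < T)
    (p : ℕ) (hp : p.Prime)
    (N'' : Subgroup G) (hN''n : N''.Normal) (hlt'' : N < N'')
    (hab : ∀ x ∈ N'', ∀ y ∈ N'', ⁅x, y⁆ ∈ N) (hpow : ∀ x ∈ N'', x ^ p ∈ N)
    (h : LocPoly N N'' A) :
    r0 ↥(A ⊓ (N'' ⊔ B)) = r0 ↥(A ⊓ (N ⊔ B)) := by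
  have := Fact.mk hp
  let f : G →* G ⧸ N := QuotientGroup.mk' N
  have hf : Function.Surjective f := QuotientGroup.mk'_surjective N
  have hker : f.ker = N := QuotientGroup.ker_mk' N
  have hkt : IsTor f.ker := fun x hx => hTt x (hNT.le (hker ▸ hx))
  have hmem : ∀ x, f x = 1 ↔ x ∈ N := fun x => QuotientGroup.eq_one_iff x
  let F : Subgroup (G ⧸ N) := N''.map f
  have hFn : F.Normal := hN''n.map f hf
  have hcomm' : ∀ u v : G, ⁅u, v⁆ ∈ N → f u * f v = f v * f u := by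
    intro u v huv
    rw [← hmem, map_commutatorElement, commutatorElement_eq_one_iff_mul_comm] at huv
    exact huv
  have hred := reduceL (p := p) (lt_of_le_of_lt (r0_le_of_surjective f hf) hr) F
    (by
      rintro ⟨_, x, hx, rfl⟩ ⟨_, y, hy, rfl⟩
      exact Subtype.ext (hcomm' x y (hab x hx y hy)))
    (by
      rintro _ ⟨x, hx, rfl⟩
      rw [← map_pow]
      exact (hmem _).2 (hpow x hx))
    (A.map f) (B.map f)
    (by
      intro Λ _ θ hθ hθ1
      refine LM_of f A _ inf_le_left θ hθ (fun g => ∀ x ∈ N'', ⁅g, x⁆ ∈ N) h ?_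
      intro g q hgq hg
      refine hθ1 q ?_
      rintro _ ⟨x, hx, rfl⟩
      rw [← hgq]
      exact hcomm' _ _ (hg x hx))
    (by
      intro y
      obtain ⟨g, rfl⟩ := hf y
      obtain ⟨a, ha, b, hb, rfl⟩ := hAB g
      exact ⟨f a, ⟨a, ha, rfl⟩, f b, ⟨b, hb, rfl⟩, by rw [map_mul]⟩)
  rw [r0_map_tor f hkt (A ⊓ (N'' ⊔ B)), map_inf_sup f N'' A B (by rw [hker]; exact hlt''.le),
    hred, ← map_inf_ker f A B N hker, ← r0_map_tor f hkt]

theorem stepL' {G : Type} [Group G] [Group.IsSolvable G] (hr : r0 G < ℵ₀)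
    (T : Subgroup G) (hTt : IsTor T) (A B : Subgroup G)
    (hAB : ∀ g : G, ∃ a ∈ A, ∃ b ∈ B, g = a * b) (N : Subgroup G) (hN : N.Normal) (hNT : N < T)
    (N' : Subgroup G) (hN' : N'.Normal) (hlt : N < N') (hN'T : N' ≤ T)
    (hab : ∀ x ∈ N', ∀ y ∈ N', ⁅x, y⁆ ∈ N) (h : LocPoly N N' A ∨ LocPoly N N' B) :
    ∃ N' : Subgroup G, N'.Normal ∧ N < N' ∧
      N' ≤ T ∧ r0 ↥(A ⊓ (N' ⊔ B)) = r0 ↥(A ⊓ (N ⊔ B)) := by
  obtain ⟨p, N'', hp, hpx, hN''n, hlt'', hle'', hpow⟩ := exists_elementary N N' hN hN' hlt hab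
    (fun x hx => by
      obtain ⟨k, hk, hk'⟩ := hTt x (hN'T hx)
      exact ⟨k, hk, by rw [hk']; exact N.one_mem⟩)
  refine ⟨N'', hN''n, hlt'', hle''.trans hN'T, ?_⟩
  have hsub : ∀ X : Subgroup G, LocPoly N N' X → LocPoly N N'' X := by
    intro X hX Y K h1 h2 h3
    obtain ⟨K0, h4, h5, h6⟩ := hX Y K h1 h2 h3
    refine ⟨K0, h4, h5, fun k hk => ?_⟩
    obtain ⟨k0, hk0, hk0'⟩ := h6 k hk
    exact ⟨k0, hk0, fun x hx => hk0' x (hle'' hx)⟩
  rcases h with h | h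
  · exact stepL hr T hTt A B hAB N hN hNT p hp N'' hN''n hlt''
      (fun x hx y hy => hab x (hle'' hx) y (hle'' hy)) hpow (hsub A h)
  · have hBA : ∀ g : G, ∃ b ∈ B, ∃ a ∈ A, g = b * a := by
      intro g
      obtain ⟨a, ha, b, hb, hab⟩ := hAB g⁻¹
      refine ⟨b⁻¹, B.inv_mem hb, a⁻¹, A.inv_mem ha, ?_⟩
      rw [← mul_inv_rev, ← hab, inv_inv]
    have h1 := stepL hr T hTt B A hBA N hN hNT p hp N'' hN''n hlt''
      (fun x hx y hy => hab x (hle'' hx) y (hle'' hy)) hpow (hsub B h)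
    rw [r0_swap N'' (fun x hx => hTt x ((hle''.trans hN'T) hx)) A B, h1,
      r0_swap N (fun x hx => hTt x (hNT.le hx)) B A]

/-- **Main theorem.** -/
theorem mainL (G : Type) [Group G] [Group.IsSolvable G] (hr : r0 G < ℵ₀)
    (A B : Subgroup G) (hAB : ∀ g : G, ∃ a ∈ A, ∃ b ∈ B, g = a * b)
    (T : Subgroup G) (hTn : T.Normal) (hTt : IsTor T)
    (hTmax : ∀ S : Subgroup G, S.Normal → IsTor S → S ≤ T)
    (hstar : ∀ N : Subgroup G, N.Normal → N < T → ∃ N' : Subgroup G, N'.Normal ∧ N < N' ∧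
      N' ≤ T ∧ (∀ x ∈ N', ∀ y ∈ N', ⁅x, y⁆ ∈ N) ∧ (LocPoly N N' A ∨ LocPoly N N' B)) :
    r0 G + r0 ↥(A ⊓ B) = r0 ↥A + r0 ↥B := by
  refine formula_of_quotient' T hTt ?_ A B hAB (radical_zorn hr T A B (fun N hN hNT => ?_))
  · have hno : NoTor (G ⧸ T) := by
      refine noTor_of_surj (QuotientGroup.mk' T) (QuotientGroup.mk'_surjective T) ?_ ?_
      · rw [QuotientGroup.ker_mk']; exact hTt
      · rintro x ⟨S, hS, hSt, hx⟩
        rw [QuotientGroup.ker_mk']
        exact hTmax S hS hSt hx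
    obtain ⟨m, hm⟩ := (Group.isSolvable_def (G ⧸ T)).1 inferInstance
    exact formula_noTor m (G ⧸ T) hm (lt_of_le_of_lt
      (r0_le_of_surjective (QuotientGroup.mk' T) (QuotientGroup.mk'_surjective T)) hr) hno
  · obtain ⟨N', hN', hlt, hN'T, hab, h⟩ := hstar N hN hNT
    exact stepL' hr T hTt A B hAB N hN hNT N' hN' hlt hN'T hab h

end Pool.TFL
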